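import Mathlib

/-!
# Circuits with few NOT gates
-/

set_option autoImplicit false

namespace Pool.Agent.FewNeg

/-- Boolean functions of variables indexed by `ι`. -/
abbrev BF (ι : Type) : Type := (ι → Bool) → Bool

/-- Circuits over AND, OR (fan-in two) and NOT, as straight-line programs. `SLP L s t`: the list
`L` (latest gate first) contains for every gate the function which it computes and its depth (the
number of AND and OR gates on a longest path to it); `s` is the number of AND and OR gates and `t`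
is the number of NOT gates. -/
inductive SLP {ι : Type} : List (BF ι × ℕ) → ℕ → ℕ → Prop
  | nil : SLP [] 0 0
  | var {L : List (BF ι × ℕ)} {s t : ℕ} (i : ι) : SLP L s t → SLP ((fun x => x i, 0) :: L) s t
  | const {L : List (BF ι × ℕ)} {s t : ℕ} (b : Bool) : SLP L s t →
      SLP ((fun _ => b, 0) :: L) s t
  | and {L : List (BF ι × ℕ)} {s t : ℕ} {f g : BF ι} {d e : ℕ} : SLP L s t → (f, d) ∈ L →
      (g, e) ∈ L → SLP ((fun x => f x && g x, max d e + 1) :: L) (s + 1) t
  | or {L : List (BF ι × ℕ)} {s t : ℕ} {f g : BF ι} {d e : ℕ} : SLP L s t → (f, d) ∈ L →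
      (g, e) ∈ L → SLP ((fun x => f x || g x, max d e + 1) :: L) (s + 1) t
  | not {L : List (BF ι × ℕ)} {s t : ℕ} {f : BF ι} {d : ℕ} : SLP L s t → (f, d) ∈ L →
      SLP ((fun x => !(f x), d) :: L) s (t + 1)

/-- `f` is computed by a circuit with at most `s` AND and OR gates and at most `t` NOT gates, in
depth at most `d`. -/
def Computes {ι : Type} (s d t : ℕ) (f : BF ι) : Prop :=
  ∃ (L : List (BF ι × ℕ)) (s' d' t' : ℕ), SLP L s' t' ∧ (f, d') ∈ L ∧ s' ≤ s ∧ d' ≤ d ∧ t' ≤ t

end Pool.Agent.FewNeg
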