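import Mathlib
import Pool.Agent.FewNeg.Defs

/-!
# Elimination of NOT gates
-/

set_option autoImplicit false

namespace Pool.Agent.FewNeg

variable {ι κ : Type}

theorem Computes.mono {s d t s' d' t' : ℕ} {f : BF ι} (h : Computes s d t f) (hs : s ≤ s')
    (hd : d ≤ d') (ht : t ≤ t') : Computes s' d' t' f := by
  obtain ⟨L, a, b, c, h1, h2, h3, h4, h5⟩ := h
  exact ⟨L, a, b, c, h1, h2, by omega, by omega, by omega⟩

theorem and_mono' {a b c d : Bool} (h1 : a ≤ c) (h2 : b ≤ d) : (a && b) ≤ (c && d) := by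
  revert a b c d; decide

theorem or_mono' {a b c d : Bool} (h1 : a ≤ c) (h2 : b ≤ d) : (a || b) ≤ (c || d) := by
  revert a b c d; decide

/-- Functions of a circuit without NOT gates are monotone. -/
theorem SLP.monotone {L : List (BF ι × ℕ)} {s t : ℕ} (h : SLP L s t) (ht : t = 0) :
    ∀ p ∈ L, Monotone p.1 := by
  induction h with
  | nil => simp
  | var i _ ih =>
    intro p hp
    rcases List.mem_cons.1 hp with rfl | hp
    · intro x y hxy; exact hxy i
    · exact ih ht p hp
  | const b _ ih =>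
    intro p hp
    rcases List.mem_cons.1 hp with rfl | hp
    · intro x y hxy; exact le_rfl
    · exact ih ht p hp
  | and _ hf hg ih =>
    intro p hp
    rcases List.mem_cons.1 hp with rfl | hp
    · intro x y hxy
      have h1 := ih ht _ hf hxy
      have h2 := ih ht _ hg hxy
      simp only at h1 h2 ⊢
      exact and_mono' h1 h2
    · exact ih ht p hp
  | or _ hf hg ih =>
    intro p hp
    rcases List.mem_cons.1 hp with rfl | hp
    · intro x y hxy
      have h1 := ih ht _ hf hxy
      have h2 := ih ht _ hg hxy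
      simp only at h1 h2 ⊢
      exact or_mono' h1 h2
    · exact ih ht p hp
  | not _ hf ih => omega

/-- Only the gates of depth at most `d` are needed in depth `d`. -/
theorem SLP.prune {L : List (BF ι × ℕ)} {s t : ℕ} (h : SLP L s t) (D : ℕ) :
    ∃ s' ≤ s, ∃ t' ≤ t, SLP (L.filter (fun p => p.2 ≤ D)) s' t' := by
  induction h with
  | nil => exact ⟨0, le_rfl, 0, le_rfl, by simpa using SLP.nil⟩
  | var i _ ih =>
    obtain ⟨s', hs, t', ht, h1⟩ := ih
    refine ⟨s', hs, t', ht, ?_⟩
    rw [List.filter_cons_of_pos (by simp)]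
    exact SLP.var i h1
  | const b _ ih =>
    obtain ⟨s', hs, t', ht, h1⟩ := ih
    refine ⟨s', hs, t', ht, ?_⟩
    rw [List.filter_cons_of_pos (by simp)]
    exact SLP.const b h1
  | @and L s t f g d e _ hf hg ih =>
    obtain ⟨s', hs, t', ht, h1⟩ := ih
    by_cases hD : max d e + 1 ≤ D
    · refine ⟨s' + 1, by omega, t', ht, ?_⟩
      rw [List.filter_cons_of_pos (by simpa using hD)]
      refine SLP.and h1 ?_ ?_
      · rw [List.mem_filter]; exact ⟨hf, by simp; omega⟩
      · rw [List.mem_filter]; exact ⟨hg, by simp; omega⟩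
    · refine ⟨s', by omega, t', ht, ?_⟩
      rw [List.filter_cons_of_neg (by simpa using hD)]
      exact h1
  | @or L s t f g d e _ hf hg ih =>
    obtain ⟨s', hs, t', ht, h1⟩ := ih
    by_cases hD : max d e + 1 ≤ D
    · refine ⟨s' + 1, by omega, t', ht, ?_⟩
      rw [List.filter_cons_of_pos (by simpa using hD)]
      refine SLP.or h1 ?_ ?_
      · rw [List.mem_filter]; exact ⟨hf, by simp; omega⟩
      · rw [List.mem_filter]; exact ⟨hg, by simp; omega⟩
    · refine ⟨s', by omega, t', ht, ?_⟩
      rw [List.filter_cons_of_neg (by simpa using hD)]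
      exact h1
  | @not L s t f d _ hf ih =>
    obtain ⟨s', hs, t', ht, h1⟩ := ih
    by_cases hD : d ≤ D
    · refine ⟨s', hs, t' + 1, by omega, ?_⟩
      rw [List.filter_cons_of_pos (by simpa using hD)]
      refine SLP.not h1 ?_
      rw [List.mem_filter]; exact ⟨hf, by simpa using hD⟩
    · refine ⟨s', hs, t', by omega, ?_⟩
      rw [List.filter_cons_of_neg (by simpa using hD)]
      exact h1

/-- Substitution of variables or constants for the variables. -/
theorem SLP.subst {L : List (BF ι × ℕ)} {s t : ℕ} (h : SLP L s t) (σ : ι → κ ⊕ Bool) :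
    SLP (L.map fun p => ((fun y => p.1 (fun i => Sum.elim y id (σ i)) : BF κ), p.2)) s t := by
  induction h with
  | nil => exact SLP.nil
  | @var L s t i _ ih =>
    rw [List.map_cons]
    rcases hσ : σ i with j | b
    · have : ((fun y : κ → Bool => Sum.elim y id (σ i)) : BF κ) = fun y => y j := by
        funext y; rw [hσ]; rfl
      simp only [this]
      exact SLP.var j ih
    · have : ((fun y : κ → Bool => Sum.elim y id (σ i)) : BF κ) = fun y => b := by
        funext y; rw [hσ]; rfl
      simp only [this]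
      exact SLP.const b ih
  | const b _ ih => exact SLP.const b ih
  | @and L s t f g d e _ hf hg ih =>
    exact SLP.and ih (List.mem_map_of_mem (f := fun p => ((fun y => p.1 (fun i =>
      Sum.elim y id (σ i)) : BF κ), p.2)) hf) (List.mem_map_of_mem (f := fun p => ((fun y => p.1 (fun i =>
      Sum.elim y id (σ i)) : BF κ), p.2)) hg)
  | @or L s t f g d e _ hf hg ih =>
    exact SLP.or ih (List.mem_map_of_mem (f := fun p => ((fun y => p.1 (fun i =>
      Sum.elim y id (σ i)) : BF κ), p.2)) hf) (List.mem_map_of_mem (f := fun p => ((fun y => p.1 (fun i =>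
      Sum.elim y id (σ i)) : BF κ), p.2)) hg)
  | @not L s t f d _ hf ih =>
    exact SLP.not ih (List.mem_map_of_mem (f := fun p => ((fun y => p.1 (fun i =>
      Sum.elim y id (σ i)) : BF κ), p.2)) hf)

theorem Computes.subst {s d t : ℕ} {f : BF ι} (h : Computes s d t f) (σ : ι → κ ⊕ Bool)
    {g : BF κ} (hg : ∀ y, g y = f (fun i => Sum.elim y id (σ i))) : Computes s d t g := by
  obtain ⟨L, s', d', t', h1, h2, h3, h4, h5⟩ := h
  refine ⟨_, s', d', t', h1.subst σ, ?_, h3, h4, h5⟩
  rw [List.mem_map]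
  refine ⟨(f, d'), h2, ?_⟩
  simp only [Prod.mk.injEq, and_true]
  funext y
  exact (hg y).symm

/-- The input of a first NOT gate is monotone, and if its value is known then this gate can be
replaced by a constant. -/
theorem SLP.split {L : List (BF ι × ℕ)} {s t' : ℕ} (h : SLP L s t') : ∀ t, t' = t + 1 →
    ∃ (k : BF ι) (dk : ℕ), (k, dk) ∈ L ∧ Monotone k ∧ ∀ b : Bool,
      ∃ L' : List (BF ι × ℕ), SLP L' s t ∧ (k, dk) ∈ L' ∧
        ∀ p ∈ L, ∃ q ∈ L', q.2 ≤ p.2 ∧ ∀ x, k x = b → q.1 x = p.1 x := by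
  induction h with
  | nil => intro t ht; omega
  | var i _ ih =>
    intro t ht
    obtain ⟨k, dk, h1, h2, h3⟩ := ih t ht
    refine ⟨k, dk, List.mem_cons_of_mem _ h1, h2, fun b => ?_⟩
    obtain ⟨L', h4, h5, h6⟩ := h3 b
    refine ⟨_, SLP.var i h4, List.mem_cons_of_mem _ h5, fun p hp => ?_⟩
    rcases List.mem_cons.1 hp with rfl | hp
    · exact ⟨_, List.mem_cons_self, le_rfl, fun x _ => rfl⟩
    · obtain ⟨q, hq, h7⟩ := h6 p hp
      exact ⟨q, List.mem_cons_of_mem _ hq, h7⟩
  | const c _ ih =>
    intro t ht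
    obtain ⟨k, dk, h1, h2, h3⟩ := ih t ht
    refine ⟨k, dk, List.mem_cons_of_mem _ h1, h2, fun b => ?_⟩
    obtain ⟨L', h4, h5, h6⟩ := h3 b
    refine ⟨_, SLP.const c h4, List.mem_cons_of_mem _ h5, fun p hp => ?_⟩
    rcases List.mem_cons.1 hp with rfl | hp
    · exact ⟨_, List.mem_cons_self, le_rfl, fun x _ => rfl⟩
    · obtain ⟨q, hq, h7⟩ := h6 p hp
      exact ⟨q, List.mem_cons_of_mem _ hq, h7⟩
  | @and L s t₀ f g d e _ hf hg ih =>
    intro t ht
    obtain ⟨k, dk, h1, h2, h3⟩ := ih t ht
    refine ⟨k, dk, List.mem_cons_of_mem _ h1, h2, fun b => ?_⟩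
    obtain ⟨L', h4, h5, h6⟩ := h3 b
    obtain ⟨⟨f', d'⟩, hf', hd', e1⟩ := h6 _ hf
    obtain ⟨⟨g', e'⟩, hg', he', e2⟩ := h6 _ hg
    refine ⟨_, SLP.and h4 hf' hg', List.mem_cons_of_mem _ h5, fun p hp => ?_⟩
    rcases List.mem_cons.1 hp with rfl | hp
    · refine ⟨_, List.mem_cons_self, ?_, fun x hx => ?_⟩
      · simp only at hd' he' ⊢; omega
      · have := e1 x hx; have := e2 x hx; simp_all
    · obtain ⟨q, hq, h7⟩ := h6 p hp
      exact ⟨q, List.mem_cons_of_mem _ hq, h7⟩
  | @or L s t₀ f g d e _ hf hg ih =>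
    intro t ht
    obtain ⟨k, dk, h1, h2, h3⟩ := ih t ht
    refine ⟨k, dk, List.mem_cons_of_mem _ h1, h2, fun b => ?_⟩
    obtain ⟨L', h4, h5, h6⟩ := h3 b
    obtain ⟨⟨f', d'⟩, hf', hd', e1⟩ := h6 _ hf
    obtain ⟨⟨g', e'⟩, hg', he', e2⟩ := h6 _ hg
    refine ⟨_, SLP.or h4 hf' hg', List.mem_cons_of_mem _ h5, fun p hp => ?_⟩
    rcases List.mem_cons.1 hp with rfl | hp
    · refine ⟨_, List.mem_cons_self, ?_, fun x hx => ?_⟩
      · simp only at hd' he' ⊢; omega
      · have := e1 x hx; have := e2 x hx; simp_all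
    · obtain ⟨q, hq, h7⟩ := h6 p hp
      exact ⟨q, List.mem_cons_of_mem _ hq, h7⟩
  | @not L s t₀ f d hL hf ih =>
    intro t ht
    rcases Nat.eq_zero_or_pos t₀ with h0 | h0
    · refine ⟨f, d, List.mem_cons_of_mem _ hf, hL.monotone h0 _ hf, fun b => ?_⟩
      obtain rfl : t₀ = t := by omega
      refine ⟨_, SLP.const (!b) hL, List.mem_cons_of_mem _ hf, fun p hp => ?_⟩
      rcases List.mem_cons.1 hp with rfl | hp
      · exact ⟨_, List.mem_cons_self, Nat.zero_le _, fun x hx => by simp [hx]⟩
      · exact ⟨p, List.mem_cons_of_mem _ hp, le_rfl, fun x _ => rfl⟩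
    · obtain ⟨t₁, ht₁⟩ : ∃ t₁, t₀ = t₁ + 1 := ⟨t₀ - 1, by omega⟩
      obtain ⟨k, dk, h1, h2, h3⟩ := ih t₁ ht₁
      refine ⟨k, dk, List.mem_cons_of_mem _ h1, h2, fun b => ?_⟩
      obtain ⟨L', h4, h5, h6⟩ := h3 b
      obtain ⟨⟨f', d'⟩, hf', hd', e1⟩ := h6 _ hf
      have h7 := SLP.not h4 hf'
      obtain rfl : t = t₁ + 1 := by omega
      refine ⟨_, h7, List.mem_cons_of_mem _ h5, fun p hp => ?_⟩
      rcases List.mem_cons.1 hp with rfl | hp
      · refine ⟨_, List.mem_cons_self, hd', fun x hx => ?_⟩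
        have := e1 x hx; simp_all
      · obtain ⟨q, hq, h8⟩ := h6 p hp
        exact ⟨q, List.mem_cons_of_mem _ hq, h8⟩

/-- **Elimination of a NOT gate.** -/
theorem elim {F : BF ι} {G : BF κ} (hG0 : G (fun _ => false) = false) {s d t : ℕ}
    (h : Computes s d (t + 1) (fun x : ι ⊕ κ → Bool =>
      F (fun i => x (Sum.inl i)) || G (fun j => x (Sum.inr j)))) :
    Computes (s + 1) (d + 1) t F ∨ Computes s d t G := by
  obtain ⟨L, s', d', t', h1, h2, h3, h4, h5⟩ := h
  obtain ⟨s'', hs'', t'', ht'', h6⟩ := h1.prune d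
  have h7 : ((fun x : ι ⊕ κ → Bool => F (fun i => x (Sum.inl i)) || G (fun j => x (Sum.inr j)),
      d') : BF (ι ⊕ κ) × ℕ) ∈ L.filter (fun p => p.2 ≤ d) := by
    rw [List.mem_filter]; exact ⟨h2, by simpa using h4⟩
  rcases Nat.lt_or_ge t'' (t + 1) with h8 | h8
  · left
    have : Computes s'' d t'' (fun x : ι ⊕ κ → Bool =>
        F (fun i => x (Sum.inl i)) || G (fun j => x (Sum.inr j))) :=
      ⟨_, s'', d', t'', h6, h7, le_rfl, h4, le_rfl⟩
    refine (this.subst (Sum.elim Sum.inl (fun _ => Sum.inr false)) (g := F) ?_).mono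
      (by omega) (by omega) (by omega)
    intro y
    simp [hG0]
  · obtain rfl : t'' = t + 1 := by omega
    obtain ⟨k, dk, hk, hkm, hk2⟩ := h6.split t rfl
    rw [List.mem_filter] at hk
    have hdk : dk ≤ d := by simpa using hk.2
    by_cases hc : ∃ w : ι → Bool, F w = false ∧ k (Sum.elim w (fun _ => false)) = true
    · right
      obtain ⟨w, hw1, hw2⟩ := hc
      obtain ⟨L', h9, -, h10⟩ := hk2 true
      obtain ⟨⟨f', e'⟩, hf', he', e1⟩ := h10 _ h7
      have h11 : Computes s'' e' t f' := ⟨L', s'', e', t, h9, hf', le_rfl, le_rfl, le_rfl⟩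
      refine (h11.subst (Sum.elim (fun i => Sum.inr (w i)) Sum.inl) (g := G) ?_).mono
        (by omega) (by simp only at he'; omega) (by omega)
      intro y
      have e2 : (fun i => Sum.elim y id ((Sum.elim (fun i => Sum.inr (w i)) Sum.inl :
          ι ⊕ κ → κ ⊕ Bool) i)) = Sum.elim w y := by
        funext i; rcases i with i | i <;> rfl
      rw [e2]
      have e3 : k (Sum.elim w y) = true := by
        have : k (Sum.elim w (fun _ => false)) ≤ k (Sum.elim w y) := by
          apply hkm
          intro i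
          rcases i with i | i
          · exact le_rfl
          · exact Bool.false_le _
        rw [hw2] at this
        exact Bool.eq_true_of_true_le this
      have e4 := e1 _ e3
      simp only at e4
      rw [e4]
      simp [hw1]
    · left
      push Not at hc
      obtain ⟨L', h9, h9k, h10⟩ := hk2 false
      obtain ⟨⟨f', e'⟩, hf', he', e1⟩ := h10 _ h7
      have h11 : Computes (s'' + 1) (max dk e' + 1) t (fun x => k x || f' x) :=
        ⟨_, s'' + 1, max dk e' + 1, t, SLP.or h9 h9k hf', List.mem_cons_self, le_rfl, le_rfl,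
          le_rfl⟩
      refine (h11.subst (Sum.elim Sum.inl (fun _ => Sum.inr false)) (g := F) ?_).mono
        (by omega) (by simp only at he'; omega) (by omega)
      intro y
      have e2 : (fun i => Sum.elim y id ((Sum.elim Sum.inl (fun _ => Sum.inr false) :
          ι ⊕ κ → ι ⊕ Bool) i)) = Sum.elim y (fun _ => false) := by
        funext i; rcases i with i | i <;> rfl
      rw [e2]
      rcases hky : k (Sum.elim y (fun _ => false)) with _ | _
      · have e4 := e1 _ hky
        simp only at e4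
        rw [e4]
        simp [hG0]
      · have := hc y
        rcases hFy : F y with _ | _
        · exact absurd hky (this hFy)
        · simp

/-- The OR of the copies in `A` of `F`. -/
def orC {α : Type} (A : Finset α) (F : BF ι) : BF (α × ι) :=
  fun x => decide (∃ a ∈ A, F (fun i => x (a, i)) = true)

theorem orC_zero {α : Type} (A : Finset α) {F : BF ι} (hF0 : F (fun _ => false) = false) :
    orC A F (fun _ => false) = false := by
  simp [orC, hF0]

/-- **If the OR of `2 ^ t` copies of `F` is computed with `t` NOT gates then `F` is computed by a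
monotone circuit of about the same size and depth.** -/
theorem mono_of_copies {α : Type} [DecidableEq α] {F : BF ι} (hF0 : F (fun _ => false) = false) :
    ∀ (t s d : ℕ) (A : Finset α), 2 ^ t ≤ A.card → Computes s d t (orC A F) →
      Computes (s + t) (d + t) 0 F := by
  intro t
  induction t with
  | zero =>
    intro s d A hA h
    obtain ⟨a, ha⟩ : A.Nonempty := Finset.card_pos.1 (by simpa using hA)
    refine h.subst (fun p => if p.1 = a then Sum.inl p.2 else Sum.inr false) ?_
    intro y
    have e1 : ∀ b, (fun i => Sum.elim y id ((if b = a then Sum.inl i else Sum.inr false) :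
        ι ⊕ Bool)) = if b = a then y else fun _ => false := by
      intro b
      split_ifs <;> rfl
    simp only [orC, e1]
    rcases hFy : F y with _ | _
    · symm
      rw [decide_eq_false_iff_not]
      rintro ⟨b, -, hb⟩
      split_ifs at hb
      · rw [hFy] at hb; exact Bool.noConfusion hb
      · rw [hF0] at hb; exact Bool.noConfusion hb
    · symm
      rw [decide_eq_true_iff]
      exact ⟨a, ha, by rw [if_pos rfl]; exact hFy⟩
  | succ t ih =>
    intro s d A hA h
    obtain ⟨B, hBA, hB⟩ := Finset.exists_subset_card_eq (s := A) (n := 2 ^ t)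
      (le_trans (Nat.pow_le_pow_right (by omega) (by omega)) hA)
    have hC : 2 ^ t ≤ (A \ B).card := by
      rw [Finset.card_sdiff_of_subset hBA, hB]
      rw [pow_succ] at hA
      omega
    have h1 : Computes s d (t + 1) (fun x : (α × ι) ⊕ (α × ι) → Bool =>
        orC B F (fun i => x (Sum.inl i)) || orC (A \ B) F (fun j => x (Sum.inr j))) := by
      refine h.subst (fun p => if p.1 ∈ B then Sum.inl (Sum.inl p) else Sum.inl (Sum.inr p)) ?_
      intro y
      have e1 : ∀ b, (fun i => Sum.elim y id ((if b ∈ B then Sum.inl (Sum.inl (b, i))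
          else Sum.inl (Sum.inr (b, i))) : ((α × ι) ⊕ (α × ι)) ⊕ Bool)) =
          if b ∈ B then (fun i => y (Sum.inl (b, i))) else fun i => y (Sum.inr (b, i)) := by
        intro b
        split_ifs <;> rfl
      simp only [orC, e1]
      rw [← Bool.decide_or]
      apply decide_eq_decide.2
      constructor
      · rintro (⟨a, ha, h2⟩ | ⟨a, ha, h2⟩)
        · exact ⟨a, hBA ha, by rw [if_pos ha]; exact h2⟩
        · rw [Finset.mem_sdiff] at ha
          exact ⟨a, ha.1, by rw [if_neg ha.2]; exact h2⟩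
      · rintro ⟨a, ha, h2⟩
        by_cases hb : a ∈ B
        · rw [if_pos hb] at h2
          exact Or.inl ⟨a, hb, h2⟩
        · rw [if_neg hb] at h2
          exact Or.inr ⟨a, Finset.mem_sdiff.2 ⟨ha, hb⟩, h2⟩
    rcases elim (orC_zero (A \ B) hF0) h1 with h2 | h2
    · exact (ih _ _ B hB.ge h2).mono (by omega) (by omega) le_rfl
    · exact (ih _ _ (A \ B) hC h2).mono (by omega) (by omega) le_rfl

end Pool.Agent.FewNeg
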