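import Mathlib
import Pool.Agent.FewNeg.Defs

/-!
# Circuits with NOT gates on several levels
-/

set_option autoImplicit false

namespace Pool.Agent.FewNeg

/-- Circuits over AND, OR (fan-in two) and NOT whose inputs are the variables and arbitrary
functions of the variables in `S` (for instance constants, and negations of variables in `S`), as
straight-line programs. `LSLP S L s N`: the list `L` (latest gate first) contains for every gate the
function which it computes, its depth (the number of AND and OR gates on a longest path to it) and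
its level (the largest number of NOT gates on a path to it, the gate included); `s` is the number of
AND and OR gates and `N` is the list of the levels of the NOT gates. -/
inductive LSLP {ι : Type} (S : Finset ι) : List (BF ι × ℕ × ℕ) → ℕ → List ℕ → Prop
  | nil : LSLP S [] 0 []
  | var {L : List (BF ι × ℕ × ℕ)} {s : ℕ} {N : List ℕ} (i : ι) : LSLP S L s N →
      LSLP S ((fun x => x i, 0, 0) :: L) s N
  | free {L : List (BF ι × ℕ × ℕ)} {s : ℕ} {N : List ℕ} (g : BF ι)
      (hg : ∀ x y : ι → Bool, (∀ i ∈ S, x i = y i) → g x = g y) : LSLP S L s N →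
      LSLP S ((g, 0, 0) :: L) s N
  | and {L : List (BF ι × ℕ × ℕ)} {s : ℕ} {N : List ℕ} {f g : BF ι} {d e q r : ℕ} :
      LSLP S L s N → (f, d, q) ∈ L → (g, e, r) ∈ L →
      LSLP S ((fun x => f x && g x, max d e + 1, max q r) :: L) (s + 1) N
  | or {L : List (BF ι × ℕ × ℕ)} {s : ℕ} {N : List ℕ} {f g : BF ι} {d e q r : ℕ} :
      LSLP S L s N → (f, d, q) ∈ L → (g, e, r) ∈ L →
      LSLP S ((fun x => f x || g x, max d e + 1, max q r) :: L) (s + 1) N
  | not {L : List (BF ι × ℕ × ℕ)} {s : ℕ} {N : List ℕ} {f : BF ι} {d r : ℕ} :
      LSLP S L s N → (f, d, r) ∈ L →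
      LSLP S ((fun x => !(f x), d, r + 1) :: L) s ((r + 1) :: N)

/-- The product, over the levels, of one plus the number of NOT gates on this level. It is at most
`2 ^ t` if there are `t` NOT gates (`levelProd_le`), and it is `t + 1` if they are all on level `1`
(`levelProd_replicate`), that is, if no NOT gate is above another one. -/
def levelProd (N : List ℕ) : ℕ := ∏ i ∈ N.toFinset, (N.count i + 1)

/-- `f` is computed by a circuit with free functions of the variables in `S`, with at most `s` AND
and OR gates, in depth at most `d`, with NOT gates for which `levelProd` is at most `P`. -/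
def ComputesL {ι : Type} (S : Finset ι) (s d P : ℕ) (f : BF ι) : Prop :=
  ∃ (L : List (BF ι × ℕ × ℕ)) (s' : ℕ) (N : List ℕ) (d' r : ℕ),
    LSLP S L s' N ∧ (f, d', r) ∈ L ∧ s' ≤ s ∧ d' ≤ d ∧ levelProd N ≤ P

theorem levelProd_le (N : List ℕ) : levelProd N ≤ 2 ^ N.length := by
  have h1 : ∑ i ∈ N.toFinset, N.count i = N.length := by
    have h2 := Multiset.toFinset_sum_count_eq (N : Multiset ℕ)
    simpa using h2
  unfold levelProd
  rw [← h1, ← Finset.prod_pow_eq_pow_sum]
  exact Finset.prod_le_prod' fun i _ => Nat.lt_two_pow_self

theorem levelProd_replicate (t : ℕ) : levelProd (List.replicate t 1) = t + 1 := by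
  unfold levelProd
  rcases Nat.eq_zero_or_pos t with rfl | ht
  · simp
  · rw [List.toFinset_replicate_of_ne_zero ht.ne', Finset.prod_singleton,
      List.count_replicate_self]

end Pool.Agent.FewNeg
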