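import Mathlib
import Pool.Agent.FewNeg.Lev
import Pool.Agent.FewNeg.Elim

/-!
# Circuits with NOT gates on several levels: the NOT gates as a list, and their replacement
-/

set_option autoImplicit false

namespace Pool.Agent.FewNeg

variable {ι κ : Type}

/-- Circuits with the list of the inputs of the NOT gates, with the levels of these gates. -/
inductive SLPX {ι : Type} : List (BF ι × ℕ × ℕ) → ℕ → List (BF ι × ℕ) → Prop
  | nil : SLPX [] 0 []
  | var {L : List (BF ι × ℕ × ℕ)} {s : ℕ} {ns : List (BF ι × ℕ)} (i : ι) : SLPX L s ns →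
      SLPX ((fun x => x i, 0, 0) :: L) s ns
  | const {L : List (BF ι × ℕ × ℕ)} {s : ℕ} {ns : List (BF ι × ℕ)} (b : Bool) : SLPX L s ns →
      SLPX ((fun _ => b, 0, 0) :: L) s ns
  | and {L : List (BF ι × ℕ × ℕ)} {s : ℕ} {ns : List (BF ι × ℕ)} {f g : BF ι} {d e q r : ℕ} :
      SLPX L s ns → (f, d, q) ∈ L → (g, e, r) ∈ L →
      SLPX ((fun x => f x && g x, max d e + 1, max q r) :: L) (s + 1) ns
  | or {L : List (BF ι × ℕ × ℕ)} {s : ℕ} {ns : List (BF ι × ℕ)} {f g : BF ι} {d e q r : ℕ} :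
      SLPX L s ns → (f, d, q) ∈ L → (g, e, r) ∈ L →
      SLPX ((fun x => f x || g x, max d e + 1, max q r) :: L) (s + 1) ns
  | not {L : List (BF ι × ℕ × ℕ)} {s : ℕ} {ns : List (BF ι × ℕ)} {f : BF ι} {d r : ℕ} :
      SLPX L s ns → (f, d, r) ∈ L →
      SLPX ((fun x => !(f x), d, r + 1) :: L) s ((f, r + 1) :: ns)

theorem LSLP.toX {S : Finset ι} {L : List (BF ι × ℕ × ℕ)} {s : ℕ} {N : List ℕ}
    (h : LSLP S L s N) (σ : ι → κ ⊕ Bool) (hσ : ∀ i ∈ S, ∃ b, σ i = Sum.inr b) :
    ∃ ns : List (BF κ × ℕ), SLPX (L.map fun p =>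
      ((fun y => p.1 (fun i => Sum.elim y id (σ i)) : BF κ), p.2)) s ns ∧
      ns.map Prod.snd = N := by
  induction h with
  | nil => exact ⟨[], SLPX.nil, rfl⟩
  | @var L s N i _ ih =>
    obtain ⟨ns, h1, h2⟩ := ih
    refine ⟨ns, ?_, h2⟩
    rw [List.map_cons]
    rcases hσi : σ i with j | b
    · have : ((fun y : κ → Bool => Sum.elim y id (σ i)) : BF κ) = fun y => y j := by
        funext y; rw [hσi]; rfl
      simp only [this]
      exact SLPX.var j h1
    · have : ((fun y : κ → Bool => Sum.elim y id (σ i)) : BF κ) = fun _ => b := by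
        funext y; rw [hσi]; rfl
      simp only [this]
      exact SLPX.const b h1
  | @free L s N g hg _ ih =>
    obtain ⟨ns, h1, h2⟩ := ih
    refine ⟨ns, ?_, h2⟩
    rw [List.map_cons]
    have : ((fun y : κ → Bool => g (fun i => Sum.elim y id (σ i))) : BF κ) =
        fun _ => g (fun i => Sum.elim (fun _ => false) id (σ i)) := by
      funext y
      refine hg _ _ fun i hi => ?_
      obtain ⟨b, hb⟩ := hσ i hi
      rw [hb]
      rfl
    simp only [this]
    exact SLPX.const _ h1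
  | and _ hf hg ih =>
    obtain ⟨ns, h1, h2⟩ := ih
    refine ⟨ns, ?_, h2⟩
    rw [List.map_cons]
    exact SLPX.and h1 (List.mem_map.2 ⟨_, hf, rfl⟩) (List.mem_map.2 ⟨_, hg, rfl⟩)
  | or _ hf hg ih =>
    obtain ⟨ns, h1, h2⟩ := ih
    refine ⟨ns, ?_, h2⟩
    rw [List.map_cons]
    exact SLPX.or h1 (List.mem_map.2 ⟨_, hf, rfl⟩) (List.mem_map.2 ⟨_, hg, rfl⟩)
  | @not L s N f d r _ hf ih =>
    obtain ⟨ns, h1, h2⟩ := ih
    have h3 := SLPX.not h1 (List.mem_map.2 ⟨(f, d, r), hf, rfl⟩)
    exact ⟨_, h3, by rw [List.map_cons, h2]⟩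

theorem not_le_not_of_eq {a b : Bool} (h : a = b) : (!a) ≤ (!b) := by
  rw [h]

/-- If the NOT gates of lower level have the same values, then the input of a NOT gate is
monotone. -/
theorem SLPX.mon {L : List (BF ι × ℕ × ℕ)} {s : ℕ} {ns : List (BF ι × ℕ)} (h : SLPX L s ns) :
    (∀ p ∈ L, ∀ z z' : ι → Bool, z ≤ z' → (∀ k ∈ ns, k.2 ≤ p.2.2 → k.1 z = k.1 z') →
      p.1 z ≤ p.1 z') ∧
    (∀ k ∈ ns, ∀ z z' : ι → Bool, z ≤ z' → (∀ k' ∈ ns, k'.2 < k.2 → k'.1 z = k'.1 z') →
      k.1 z ≤ k.1 z') := by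
  induction h with
  | nil => simp
  | var i _ ih =>
    refine ⟨fun p hp z z' hz hk => ?_, ih.2⟩
    rcases List.mem_cons.1 hp with rfl | hp
    · exact hz i
    · exact ih.1 p hp z z' hz hk
  | const b _ ih =>
    refine ⟨fun p hp z z' hz hk => ?_, ih.2⟩
    rcases List.mem_cons.1 hp with rfl | hp
    · exact le_rfl
    · exact ih.1 p hp z z' hz hk
  | @and L s ns f g d e q r _ hf hg ih =>
    refine ⟨fun p hp z z' hz hk => ?_, ih.2⟩
    rcases List.mem_cons.1 hp with rfl | hp
    · have h1 := ih.1 _ hf z z' hz (fun k hk' hl => hk k hk' (hl.trans (le_max_left _ _)))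
      have h2 := ih.1 _ hg z z' hz (fun k hk' hl => hk k hk' (hl.trans (le_max_right _ _)))
      exact and_mono' h1 h2
    · exact ih.1 p hp z z' hz hk
  | @or L s ns f g d e q r _ hf hg ih =>
    refine ⟨fun p hp z z' hz hk => ?_, ih.2⟩
    rcases List.mem_cons.1 hp with rfl | hp
    · have h1 := ih.1 _ hf z z' hz (fun k hk' hl => hk k hk' (hl.trans (le_max_left _ _)))
      have h2 := ih.1 _ hg z z' hz (fun k hk' hl => hk k hk' (hl.trans (le_max_right _ _)))
      exact or_mono' h1 h2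
    · exact ih.1 p hp z z' hz hk
  | @not L s ns f d r _ hf ih =>
    constructor
    · intro p hp z z' hz hk
      rcases List.mem_cons.1 hp with rfl | hp
      · exact not_le_not_of_eq (hk (f, r + 1) List.mem_cons_self le_rfl)
      · exact ih.1 p hp z z' hz (fun k hk' hl => hk k (List.mem_cons_of_mem _ hk') hl)
    · intro k hk z z' hz hk'
      rcases List.mem_cons.1 hk with rfl | hk
      · exact ih.1 _ hf z z' hz (fun k'' h2 hl => hk' k'' (List.mem_cons_of_mem _ h2)
          (Nat.lt_succ_of_le hl))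
      · exact ih.2 k hk z z' hz (fun k'' h2 hl => hk' k'' (List.mem_cons_of_mem _ h2) hl)

/-- The input for the values `y` of the free variables. -/
def sub (σ : ι → κ ⊕ Bool) (y : κ → Bool) : ι → Bool := fun i => Sum.elim y id (σ i)

/-- Replacing the NOT gates by their values at the input `sub σ 0`. -/
theorem SLPX.repl {L : List (BF ι × ℕ × ℕ)} {s : ℕ} {ns : List (BF ι × ℕ)} (h : SLPX L s ns)
    (σ : ι → κ ⊕ Bool) (D : ℕ) :
    ∃ (L' : List (BF κ × ℕ)) (s' : ℕ) (H : List (BF κ × ℕ)), SLP L' s' 0 ∧ s' ≤ s ∧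
      H.length ≤ ns.length ∧ (∀ p ∈ H, p ∈ L' ∧ p.2 ≤ D) ∧
      (∀ p ∈ L, p.2.1 ≤ D → ∃ q ∈ L', q.2 ≤ p.2.1 ∧
        ∀ y, (∀ k ∈ H, k.1 y = false) → q.1 y = p.1 (sub σ y)) ∧
      (∀ y, (∀ k ∈ ns, k.1 (sub σ y) = k.1 (sub σ fun _ => false)) →
        ∀ k ∈ H, k.1 y = false) := by
  induction h with
  | nil => exact ⟨[], 0, [], SLP.nil, le_rfl, le_rfl, by simp, by simp, by simp⟩
  | @var L s ns i _ ih =>
    obtain ⟨L', s', H, h1, h2, h3, h4, h5, h6⟩ := ih
    rcases hσi : σ i with j | b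
    · refine ⟨_, s', H, SLP.var j h1, h2, h3, fun p hp =>
        ⟨List.mem_cons_of_mem _ (h4 p hp).1, (h4 p hp).2⟩, fun p hp hD => ?_, h6⟩
      rcases List.mem_cons.1 hp with rfl | hp
      · refine ⟨_, List.mem_cons_self, le_rfl, fun y _ => ?_⟩
        simp [sub, hσi]
      · obtain ⟨q, hq, h7⟩ := h5 p hp hD
        exact ⟨q, List.mem_cons_of_mem _ hq, h7⟩
    · refine ⟨_, s', H, SLP.const b h1, h2, h3, fun p hp =>
        ⟨List.mem_cons_of_mem _ (h4 p hp).1, (h4 p hp).2⟩, fun p hp hD => ?_, h6⟩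
      rcases List.mem_cons.1 hp with rfl | hp
      · refine ⟨_, List.mem_cons_self, le_rfl, fun y _ => ?_⟩
        simp [sub, hσi]
      · obtain ⟨q, hq, h7⟩ := h5 p hp hD
        exact ⟨q, List.mem_cons_of_mem _ hq, h7⟩
  | @const L s ns b _ ih =>
    obtain ⟨L', s', H, h1, h2, h3, h4, h5, h6⟩ := ih
    refine ⟨_, s', H, SLP.const b h1, h2, h3, fun p hp =>
      ⟨List.mem_cons_of_mem _ (h4 p hp).1, (h4 p hp).2⟩, fun p hp hD => ?_, h6⟩
    rcases List.mem_cons.1 hp with rfl | hp
    · exact ⟨_, List.mem_cons_self, le_rfl, fun y _ => rfl⟩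
    · obtain ⟨q, hq, h7⟩ := h5 p hp hD
      exact ⟨q, List.mem_cons_of_mem _ hq, h7⟩
  | @and L s ns f g d e q r _ hf hg ih =>
    obtain ⟨L', s', H, h1, h2, h3, h4, h5, h6⟩ := ih
    by_cases hDD : max d e + 1 ≤ D
    · obtain ⟨⟨f', d'⟩, hf', hd', e1⟩ := h5 _ hf (by simp only; omega)
      obtain ⟨⟨g', e'⟩, hg', he', e2⟩ := h5 _ hg (by simp only; omega)
      refine ⟨_, s' + 1, H, SLP.and h1 hf' hg', by omega, h3, fun p hp =>
        ⟨List.mem_cons_of_mem _ (h4 p hp).1, (h4 p hp).2⟩, fun p hp hD => ?_, h6⟩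
      rcases List.mem_cons.1 hp with rfl | hp
      · refine ⟨_, List.mem_cons_self, ?_, fun y hy => ?_⟩
        · simp only at hd' he' ⊢
          omega
        · have h7 := e1 y hy
          have h8 := e2 y hy
          simp only at h7 h8 ⊢
          rw [h7, h8]
      · obtain ⟨q, hq, h7⟩ := h5 p hp hD
        exact ⟨q, List.mem_cons_of_mem _ hq, h7⟩
    · refine ⟨L', s', H, h1, by omega, h3, h4, fun p hp hD => ?_, h6⟩
      rcases List.mem_cons.1 hp with rfl | hp
      · exact absurd hD hDD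
      · exact h5 p hp hD
  | @or L s ns f g d e q r _ hf hg ih =>
    obtain ⟨L', s', H, h1, h2, h3, h4, h5, h6⟩ := ih
    by_cases hDD : max d e + 1 ≤ D
    · obtain ⟨⟨f', d'⟩, hf', hd', e1⟩ := h5 _ hf (by simp only; omega)
      obtain ⟨⟨g', e'⟩, hg', he', e2⟩ := h5 _ hg (by simp only; omega)
      refine ⟨_, s' + 1, H, SLP.or h1 hf' hg', by omega, h3, fun p hp =>
        ⟨List.mem_cons_of_mem _ (h4 p hp).1, (h4 p hp).2⟩, fun p hp hD => ?_, h6⟩
      rcases List.mem_cons.1 hp with rfl | hp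
      · refine ⟨_, List.mem_cons_self, ?_, fun y hy => ?_⟩
        · simp only at hd' he' ⊢
          omega
        · have h7 := e1 y hy
          have h8 := e2 y hy
          simp only at h7 h8 ⊢
          rw [h7, h8]
      · obtain ⟨q, hq, h7⟩ := h5 p hp hD
        exact ⟨q, List.mem_cons_of_mem _ hq, h7⟩
    · refine ⟨L', s', H, h1, by omega, h3, h4, fun p hp hD => ?_, h6⟩
      rcases List.mem_cons.1 hp with rfl | hp
      · exact absurd hD hDD
      · exact h5 p hp hD
  | @not L s ns f d r _ hf ih =>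
    obtain ⟨L', s', H, h1, h2, h3, h4, h5, h6⟩ := ih
    by_cases hDD : d ≤ D
    · obtain ⟨⟨f', d'⟩, hf', hd', e1⟩ := h5 _ hf hDD
      simp only at hd' e1
      have hH0 : ∀ k ∈ H, k.1 (fun _ => false) = false := h6 _ (fun k _ => rfl)
      rcases hb : f (sub σ fun _ => false) with _ | _
      · -- the gate is replaced by `true`
        refine ⟨_, s', (f', d') :: H, SLP.const true h1, h2, by simpa using h3, ?_, ?_, ?_⟩
        · intro p hp
          rcases List.mem_cons.1 hp with rfl | hp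
          · exact ⟨List.mem_cons_of_mem _ hf', by simp only; omega⟩
          · exact ⟨List.mem_cons_of_mem _ (h4 p hp).1, (h4 p hp).2⟩
        · intro p hp hD
          rcases List.mem_cons.1 hp with rfl | hp
          · refine ⟨_, List.mem_cons_self, Nat.zero_le _, fun y hy => ?_⟩
            have h7 := e1 y (fun k hk => hy k (List.mem_cons_of_mem _ hk))
            have h8 := hy _ List.mem_cons_self
            simp only at h8 ⊢
            rw [← h7, h8]
            rfl
          · obtain ⟨q, hq, h7, h8⟩ := h5 p hp hD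
            exact ⟨q, List.mem_cons_of_mem _ hq, h7,
              fun y hy => h8 y (fun k hk => hy k (List.mem_cons_of_mem _ hk))⟩
        · intro y hy k hk
          have h7 := h6 y (fun k hk => hy k (List.mem_cons_of_mem _ hk))
          rcases List.mem_cons.1 hk with rfl | hk
          · have h8 := hy (f, r + 1) List.mem_cons_self
            simp only at h8 ⊢
            rw [e1 y h7, h8, hb]
          · exact h7 k hk
      · -- the gate is replaced by `false`
        refine ⟨_, s', H, SLP.const false h1, h2, h3.trans (by simp), ?_, ?_, ?_⟩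
        · intro p hp
          exact ⟨List.mem_cons_of_mem _ (h4 p hp).1, (h4 p hp).2⟩
        · intro p hp hD
          rcases List.mem_cons.1 hp with rfl | hp
          · refine ⟨_, List.mem_cons_self, Nat.zero_le _, fun y hy => ?_⟩
            have h7 := e1 y hy
            have h8 := e1 _ hH0
            have h9 : f' (fun _ => false) ≤ f' y :=
              h1.monotone rfl _ hf' (fun i => Bool.false_le _)
            rw [h8, hb, h7] at h9
            simp only
            rw [Bool.eq_true_of_true_le h9]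
            rfl
          · obtain ⟨q, hq, h7⟩ := h5 p hp hD
            exact ⟨q, List.mem_cons_of_mem _ hq, h7⟩
        · intro y hy
          exact h6 y (fun k hk => hy k (List.mem_cons_of_mem _ hk))
    · refine ⟨L', s', H, h1, h2, h3.trans (by simp), h4, fun p hp hD => ?_, fun y hy =>
        h6 y (fun k hk => hy k (List.mem_cons_of_mem _ hk))⟩
      rcases List.mem_cons.1 hp with rfl | hp
      · exact absurd hD hDD
      · exact h5 p hp hD

/-- The OR of several gates. -/
theorem SLP.orTree {κ : Type} (D : ℕ) : ∀ (k : ℕ) (hs : List (BF κ × ℕ)) (L : List (BF κ × ℕ))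
    (s : ℕ), hs ≠ [] → hs.length ≤ 2 ^ k → SLP L s 0 → (∀ p ∈ hs, p ∈ L ∧ p.2 ≤ D) →
    ∃ (L' : List (BF κ × ℕ)) (s' e : ℕ), SLP L' s' 0 ∧ (∀ p ∈ L, p ∈ L') ∧
      s' + 1 ≤ s + hs.length ∧ e ≤ D + k ∧ (fun x => hs.any fun p => p.1 x, e) ∈ L' := by
  intro k
  induction k with
  | zero =>
    intro hs L s h0 h1 h2 h3
    rcases hs with _ | ⟨p, hs⟩
    · exact absurd rfl h0
    · have h4 : hs = [] := by
        rw [← List.length_eq_zero_iff]
        simp at h1
        simpa using h1
      subst h4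
      obtain ⟨h5, h6⟩ := h3 p List.mem_cons_self
      refine ⟨L, s, p.2, h2, fun _ h => h, by simp, by omega, ?_⟩
      have : (fun x : κ → Bool => [p].any fun q => q.1 x) = p.1 := by
        funext x
        simp
      rw [this]
      exact h5
  | succ k ih =>
    intro hs L s h0 h1 h2 h3
    rcases Nat.lt_or_ge (2 ^ k) hs.length with h4 | h4
    · have h5 : (hs.take (2 ^ k)).length = 2 ^ k := by rw [List.length_take]; omega
      have h6 : (hs.drop (2 ^ k)).length = hs.length - 2 ^ k := List.length_drop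
      have hpos : 0 < 2 ^ k := by positivity
      obtain ⟨L1, s1, e1, a1, a2, a3, a4, a5⟩ := ih (hs.take (2 ^ k)) L s
        (by rw [← List.length_pos_iff]; omega) h5.le h2
        (fun p hp => h3 p (List.mem_of_mem_take hp))
      obtain ⟨L2, s2, e2, b1, b2, b3, b4, b5⟩ := ih (hs.drop (2 ^ k)) L1 s1
        (by rw [← List.length_pos_iff]; omega) (by rw [h6]; rw [pow_succ] at h1; omega) a1
        (fun p hp => ⟨a2 p (h3 p (List.mem_of_mem_drop hp)).1, (h3 p (List.mem_of_mem_drop hp)).2⟩)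
      refine ⟨_, s2 + 1, max e1 e2 + 1, SLP.or b1 (b2 _ a5) b5,
        fun p hp => List.mem_cons_of_mem _ (b2 p (a2 p hp)), by omega, by omega, ?_⟩
      have : (fun x : κ → Bool => hs.any fun p => p.1 x) = fun x =>
          ((hs.take (2 ^ k)).any fun p => p.1 x) || ((hs.drop (2 ^ k)).any fun p => p.1 x) := by
        funext x
        rw [← List.any_append, List.take_append_drop]
      rw [this]
      exact List.mem_cons_self
    · obtain ⟨L', s', e, a1, a2, a3, a4, a5⟩ := ih hs L s h0 h4 h2 h3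
      exact ⟨L', s', e, a1, a2, a3, by omega, a5⟩

end Pool.Agent.FewNeg
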