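import Mathlib
import Pool.Agent.FewNeg.Elim

/-!
# Block languages
-/

set_option autoImplicit false

namespace Pool.Agent.FewNeg

open Classical in
/-- The characteristic function of the words of length `n` in `L`. -/
noncomputable def slice (L : Set (List Bool)) (n : ℕ) : BF (Fin n) := fun x =>
  decide (List.ofFn x ∈ L)

theorem slice_eq_true {L : Set (List Bool)} {n : ℕ} {x : Fin n → Bool} :
    slice L n x = true ↔ List.ofFn x ∈ L := by
  simp [slice]

private theorem getD_ofFn {n : ℕ} (x : Fin n → Bool) (p : ℕ) (hp : p < n) :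
    (List.ofFn x).getD p false = x ⟨p, hp⟩ := by
  rw [List.getD_eq_getElem _ _ (by simpa using hp)]
  simp

theorem slice_monotone {ι : Type} {L : Set (List Bool)} {n m : ℕ} {F : BF ι} {pos : ι → ℕ}
    (hlt : ∀ i, pos i < m) (hF : Monotone F)
    (hL : ∀ x : List Bool, x.length = n → (x ∈ L ↔ ∃ j, j < n / m ∧
      F (fun i => x.getD (j * m + pos i) false) = true)) : Monotone (slice L n) := by
  intro x y hxy
  rw [Bool.le_iff_imp]
  intro hx
  rw [slice_eq_true, hL _ (by simp)] at hx ⊢
  obtain ⟨j, hj, h⟩ := hx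
  refine ⟨j, hj, ?_⟩
  have h1 : F (fun i => (List.ofFn x).getD (j * m + pos i) false) ≤
      F (fun i => (List.ofFn y).getD (j * m + pos i) false) := by
    refine hF fun i => ?_
    have hi := hlt i
    have hm : 0 < m := by omega
    have h2 : (j + 1) * m ≤ n := (Nat.le_div_iff_mul_le hm).1 hj
    have h3 : j * m + pos i < n := by
      rw [Nat.add_mul, one_mul] at h2
      omega
    rw [getD_ofFn _ _ h3, getD_ofFn _ _ h3]
    exact hxy _
  rw [Bool.le_iff_imp] at h1
  exact h1 h

/-- **Few NOT gates do not help for block languages.** If the words of length `n` in `L` are those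
with a block of length `m` accepted by `F`, and there are at least `2 ^ t` blocks, then a circuit
with `t` NOT gates for these words gives a monotone circuit for `F`. -/
theorem slice_lower {ι : Type} {L : Set (List Bool)} {n m : ℕ} {F : BF ι} {pos : ι → ℕ}
    (hinj : Function.Injective pos) (hlt : ∀ i, pos i < m) (hF0 : F (fun _ => false) = false)
    (hm : 0 < m)
    (hL : ∀ x : List Bool, x.length = n → (x ∈ L ↔ ∃ j, j < n / m ∧
      F (fun i => x.getD (j * m + pos i) false) = true)) {s d t : ℕ} (ht : 2 ^ t * m ≤ n)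
    (h : Computes s d t (slice L n)) : Computes (s + t) (d + t) 0 F := by
  classical
  have hcard : 2 ^ t ≤ (Finset.univ : Finset (Fin (n / m))).card := by
    rw [Finset.card_univ, Fintype.card_fin]
    exact (Nat.le_div_iff_mul_le hm).2 ht
  refine mono_of_copies hF0 t s d Finset.univ hcard ?_
  refine h.subst (fun p : Fin n => if hp : p.val / m < n / m ∧ ∃ i, pos i = p.val % m then
    Sum.inl (⟨p.val / m, hp.1⟩, hp.2.choose) else Sum.inr false) fun y => ?_
  rw [Bool.eq_iff_iff, slice_eq_true, hL _ (by simp)]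
  have key : ∀ j, j < n / m → (hj : j < n / m) →
      (fun i => (List.ofFn fun p : Fin n => Sum.elim y id (if hp : p.val / m < n / m ∧
        ∃ i, pos i = p.val % m then Sum.inl ((⟨p.val / m, hp.1⟩ : Fin (n / m)), hp.2.choose)
        else Sum.inr false)).getD (j * m + pos i) false) = fun i => y (⟨j, hj⟩, i) := by
    intro j _ hj
    funext i
    have hi := hlt i
    have h2 : (j + 1) * m ≤ n := (Nat.le_div_iff_mul_le hm).1 hj
    have h3 : j * m + pos i < n := by
      rw [Nat.add_mul, one_mul] at h2
      omega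
    have h4 : (j * m + pos i) / m = j := by
      rw [mul_comm, Nat.mul_add_div hm, Nat.div_eq_of_lt hi, add_zero]
    have h5 : (j * m + pos i) % m = pos i := by
      rw [mul_comm, Nat.mul_add_mod, Nat.mod_eq_of_lt hi]
    rw [getD_ofFn _ _ h3]
    have h6 : (j * m + pos i) / m < n / m ∧ ∃ i', pos i' = (j * m + pos i) % m := by
      rw [h4, h5]; exact ⟨hj, i, rfl⟩
    rw [dif_pos h6]
    simp only [Sum.elim_inl]
    have h7 : h6.2.choose = i := hinj (h6.2.choose_spec.trans h5)
    rw [h7]
    congr 2
    exact Fin.ext h4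
  have e : (orC (Finset.univ : Finset (Fin (n / m))) F y = true) ↔
      ∃ a ∈ (Finset.univ : Finset (Fin (n / m))), F (fun i => y (a, i)) = true := by
    simp [orC]
  rw [e]
  constructor
  · rintro ⟨j, -, hj⟩
    refine ⟨j.val, j.2, ?_⟩
    rw [key j.val j.2 j.2]
    exact hj
  · rintro ⟨j, hj, hj'⟩
    rw [key j hj hj] at hj'
    exact ⟨⟨j, hj⟩, Finset.mem_univ _, hj'⟩

end Pool.Agent.FewNeg
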