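import Mathlib
import Pool.Agent.FewNeg.Defs
import Pool.Agent.Thrift.Pyr

/-!
# Definitions for the lower bound on the monotone depth of GEN
-/

set_option autoImplicit false

namespace Pool.Agent.FewNeg

open Pool.Agent.Thrift (Nd root cone)

/-- Functions computed by monotone formulas of depth at most `d`. -/
inductive MD {ι : Type} : ℕ → BF ι → Prop
  | var (i : ι) : MD 0 (fun x => x i)
  | const (b : Bool) : MD 0 (fun _ => b)
  | and {d : ℕ} {f g : BF ι} : MD d f → MD d g → MD (d + 1) (fun x => f x && g x)
  | or {d : ℕ} {f g : BF ι} : MD d f → MD d g → MD (d + 1) (fun x => f x || g x)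
  | succ {d : ℕ} {f : BF ι} : MD d f → MD (d + 1) f

/-- The restriction of `a` to the coordinates in `I`. -/
def pr {V α : Type} [DecidableEq V] (I : Finset V) (a : V → α) : V → Option α :=
  fun v => if v ∈ I then some (a v) else none

/-- The query game: `Surv Bad r ρ` says that an adversary can answer `r` more queries to the
coordinates, after the answers `ρ`, without making the partial assignment bad. -/
def Surv {V : Type} [DecidableEq V] (Bad : (V → Option Bool) → Prop) :
    ℕ → (V → Option Bool) → Prop
  | 0, ρ => ¬ Bad ρ
  | r + 1, ρ => ¬ Bad ρ ∧ ∀ v, ρ v = none → ∃ b : Bool, Surv Bad r (Function.update ρ v (some b))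

/-- The violations of the pebbling principle on the pyramid of height `h`. -/
def PBad {h : ℕ} (ρ : Nd h → Option Bool) : Prop :=
  (∃ v : Nd h, v.i = 0 ∧ ρ v = some false) ∨
  (∃ v : Nd h, v.i ≠ 0 ∧ ρ v = some false ∧ ρ v.l = some true ∧ ρ v.r = some true) ∨
  ρ (root h) = some true

/-- The element `z` is generated from the source `s` with the triples of `R`. -/
inductive Gen {X : Type} (R : X → X → X → Bool) (s : X) : X → Prop
  | src : Gen R s s
  | step {x y z : X} : Gen R s x → Gen R s y → R x y z = true → Gen R s z

open Classical in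
/-- The problem GEN on the elements `0, …, k - 1`, the input being a set of triples: is the
element `1` generated from the element `0`? -/
noncomputable def genF (k : ℕ) : BF (Fin k × Fin k × Fin k) := fun R =>
  decide (∃ s t : Fin k, s.val = 0 ∧ t.val = 1 ∧ Gen (fun x y z => R (x, y, z)) s t)

/-- All fibers of the projections which forget one coordinate of `I` are large. -/
def Thick {V : Type} [DecidableEq V] [Fintype V] {M : ℕ} (I : Finset V)
    (A : Finset (V → Fin M)) : Prop :=
  ∀ i ∈ I, ∀ a ∈ A, M ≤ 32 * Fintype.card V *
    ((A.filter (fun a' => pr (I.erase i) a' = pr (I.erase i) a)).image (pr I)).card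

/-- On average, the fibers of the projections which forget one coordinate of `I` are large. -/
def Avg {V : Type} [DecidableEq V] [Fintype V] {M : ℕ} (I : Finset V) (A : Finset (V → Fin M)) : Prop :=
  ∀ i ∈ I, M * (A.image (pr (I.erase i))).card ≤ 8 * (A.image (pr I)).card

/-- The numerical conditions of the lifting theorem: `n` coordinates, alphabet `M`, formulas of
depth `D`, random sequences of length `K`. -/
structure Params (n M D K μ : ℕ) : Prop where
  n_pos : 1 ≤ n
  M_gt : 8 < M
  M_le : M ≤ 2 ^ μ
  hitA : 4 * M ^ n * (32 * n - 1) ^ K ≤ (32 * n) ^ K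
  hitB : 4 * (K * (3 * D + 2 + K * (1 + μ))) ≤ M

end Pool.Agent.FewNeg
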