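import Mathlib
import Pool.Agent.FewNeg.LDefs
import Pool.Agent.FewNeg.Blocks

/-!
# The language of the words with a block in GEN
-/

set_option autoImplicit false

namespace Pool.Agent.FewNeg

/-- `log log n`. -/
def ll (n : ℕ) : ℕ := Nat.log 2 (Nat.log 2 n)

/-- The number of elements of the instances of GEN in a word of length `n`. -/
def kA (n : ℕ) : ℕ := 2 ^ (ll n ^ 2)

/-- The position of a triple in a block. -/
def posA (k : ℕ) (p : Fin k × Fin k × Fin k) : ℕ := (p.1.val * k + p.2.1.val) * k + p.2.2.val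

/-- The language of the words `x` of length `n` with a block `j` which is an instance of GEN on
`k = kA n` elements with a positive answer; the block `j` consists of the `k ^ 3` letters from
position `j k ^ 3` on. -/
def LA : Set (List Bool) := {x | ∃ j, j < x.length / kA x.length ^ 3 ∧
  genF (kA x.length) (fun p => x.getD (j * kA x.length ^ 3 + posA (kA x.length) p) false) = true}

theorem posA_lt (k : ℕ) (p : Fin k × Fin k × Fin k) : posA k p < k ^ 3 := by
  obtain ⟨a, b, c⟩ := p
  unfold posA
  have h1 : a.val + 1 ≤ k := a.2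
  have h2 : b.val + 1 ≤ k := b.2
  have h3 := c.2
  have h4 : a.val * k + b.val + 1 ≤ k * k := by
    calc a.val * k + b.val + 1 ≤ a.val * k + k := by omega
      _ = (a.val + 1) * k := by ring
      _ ≤ k * k := Nat.mul_le_mul_right _ h1
  calc (a.val * k + b.val) * k + c.val < (a.val * k + b.val) * k + k := by omega
    _ = (a.val * k + b.val + 1) * k := by ring
    _ ≤ k * k * k := Nat.mul_le_mul_right _ h4
    _ = k ^ 3 := by ring

theorem posA_inj (k : ℕ) : Function.Injective (posA k) := by
  rintro ⟨a, b, c⟩ ⟨a', b', c'⟩ h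
  unfold posA at h
  simp only at h
  have hk : 0 < k := a.pos
  have h1 : c.val = c'.val := by
    have := congrArg (· % k) h
    simpa [Nat.mul_add_mod', Nat.mod_eq_of_lt c.2, Nat.mod_eq_of_lt c'.2] using this
  have h2 : a.val * k + b.val = a'.val * k + b'.val := by
    rw [h1] at h
    exact Nat.eq_of_mul_eq_mul_right hk (Nat.add_right_cancel h)
  have h3 : b.val = b'.val := by
    have := congrArg (· % k) h2
    simpa [Nat.mul_add_mod', Nat.mod_eq_of_lt b.2, Nat.mod_eq_of_lt b'.2] using this
  have h4 : a.val = a'.val := by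
    rw [h3] at h2
    exact Nat.eq_of_mul_eq_mul_right hk (Nat.add_right_cancel h2)
  rw [Fin.ext h1, Fin.ext h3, Fin.ext h4]

theorem kA_pos (n : ℕ) : 0 < kA n := Nat.two_pow_pos _

theorem Gen.mono {X : Type} {R R' : X → X → X → Bool} (h : ∀ x y z, R x y z = true → R' x y z = true)
    {s z : X} (hz : Gen R s z) : Gen R' s z := by
  induction hz with
  | src => exact Gen.src
  | step _ _ hr ih1 ih2 => exact Gen.step ih1 ih2 (h _ _ _ hr)

theorem genF_eq_true {k : ℕ} {R : Fin k × Fin k × Fin k → Bool} : genF k R = true ↔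
    ∃ s t : Fin k, s.val = 0 ∧ t.val = 1 ∧ Gen (fun x y z => R (x, y, z)) s t := by
  simp [genF]

theorem genF_monotone (k : ℕ) : Monotone (genF k) := by
  intro x y hxy
  rw [Bool.le_iff_imp, genF_eq_true, genF_eq_true]
  rintro ⟨s, t, hs, ht, hg⟩
  refine ⟨s, t, hs, ht, hg.mono fun a b c h => ?_⟩
  have := hxy (a, b, c)
  rw [Bool.le_iff_imp] at this
  exact this h

theorem genF_zero (k : ℕ) : genF k (fun _ => false) = false := by
  rw [Bool.eq_false_iff]
  intro h
  rw [genF_eq_true] at h
  obtain ⟨s, t, hs, ht, hg⟩ := h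
  cases hg with
  | src => omega
  | step _ _ hr => exact Bool.noConfusion hr

theorem LA_iff {n : ℕ} (x : List Bool) (hx : x.length = n) : x ∈ LA ↔ ∃ j, j < n / kA n ^ 3 ∧
    genF (kA n) (fun p => x.getD (j * kA n ^ 3 + posA (kA n) p) false) = true := by
  subst hx
  rfl

end Pool.Agent.FewNeg
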