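import Mathlib
import Pool.Agent.FewNeg.Blocks

/-!
# Languages with many blocks of one size among other blocks
-/

set_option autoImplicit false

namespace Pool.Agent.FewNeg

private theorem getD_ofFn' {n : ℕ} (x : Fin n → Bool) (p : ℕ) (hp : p < n) :
    (List.ofFn x).getD p false = x ⟨p, hp⟩ := by
  rw [List.getD_eq_getElem _ _ (by simpa using hp)]
  simp

/-- **Few NOT gates do not help for block languages.** If the words of length `n` in `L` which
vanish outside of `2 ^ t` blocks of length `m` from position `o` on are those with a block accepted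
by `F` then a circuit with `t` NOT gates for the words of length `n` in `L` gives a monotone circuit
for `F`. -/
theorem slice_lower_seg {ι : Type} {L : Set (List Bool)} {n m o : ℕ} {F : BF ι} {pos : ι → ℕ}
    (hinj : Function.Injective pos) (hlt : ∀ i, pos i < m) (hF0 : F (fun _ => false) = false)
    (hm : 0 < m) {s d t : ℕ} (ht : o + 2 ^ t * m ≤ n)
    (hL : ∀ x : List Bool, x.length = n →
      (∀ p, x.getD p false = true → o ≤ p ∧ p < o + 2 ^ t * m) →
        (x ∈ L ↔ ∃ j, j < 2 ^ t ∧ F (fun i => x.getD (o + j * m + pos i) false) = true))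
    (h : Computes s d t (slice L n)) : Computes (s + t) (d + t) 0 F := by
  classical
  have hcard : 2 ^ t ≤ (Finset.univ : Finset (Fin (2 ^ t))).card := by
    rw [Finset.card_univ, Fintype.card_fin]
  refine mono_of_copies hF0 t s d Finset.univ hcard ?_
  refine h.subst (fun p : Fin n => if hp : o ≤ p.val ∧ (p.val - o) / m < 2 ^ t ∧
    ∃ i, pos i = (p.val - o) % m then
    Sum.inl (⟨(p.val - o) / m, hp.2.1⟩, hp.2.2.choose) else Sum.inr false) fun y => ?_
  set x : Fin n → Bool := fun p : Fin n => Sum.elim y id (if hp : o ≤ p.val ∧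
    (p.val - o) / m < 2 ^ t ∧ ∃ i, pos i = (p.val - o) % m then
    Sum.inl ((⟨(p.val - o) / m, hp.2.1⟩ : Fin (2 ^ t)), hp.2.2.choose) else Sum.inr false) with hx
  have hzero : ∀ p, (List.ofFn x).getD p false = true → o ≤ p ∧ p < o + 2 ^ t * m := by
    intro p hp
    by_cases hpn : p < n
    · rw [getD_ofFn' _ _ hpn] at hp
      simp only [hx] at hp
      by_cases hc : o ≤ p ∧ (p - o) / m < 2 ^ t ∧ ∃ i, pos i = (p - o) % m
      · refine ⟨hc.1, ?_⟩
        have := (Nat.div_lt_iff_lt_mul hm).1 hc.2.1
        omega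
      · rw [dif_neg hc] at hp
        exact Bool.noConfusion hp
    · rw [List.getD_eq_default _ _ (by simpa using hpn)] at hp
      exact Bool.noConfusion hp
  rw [Bool.eq_iff_iff, slice_eq_true, hL _ (by simp) hzero]
  have key : ∀ j, (hj : j < 2 ^ t) →
      (fun i => (List.ofFn x).getD (o + j * m + pos i) false) = fun i => y (⟨j, hj⟩, i) := by
    intro j hj
    funext i
    have hi := hlt i
    have h2 : (j + 1) * m ≤ 2 ^ t * m := Nat.mul_le_mul_right _ hj
    have h3 : o + j * m + pos i < n := by
      rw [Nat.add_mul, one_mul] at h2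
      omega
    have h0 : o + j * m + pos i - o = j * m + pos i := by omega
    have h4 : (j * m + pos i) / m = j := by
      rw [mul_comm, Nat.mul_add_div hm, Nat.div_eq_of_lt hi, add_zero]
    have h5 : (j * m + pos i) % m = pos i := by
      rw [mul_comm, Nat.mul_add_mod, Nat.mod_eq_of_lt hi]
    rw [getD_ofFn' _ _ h3]
    simp only [hx]
    have h6 : o ≤ o + j * m + pos i ∧ (o + j * m + pos i - o) / m < 2 ^ t ∧
        ∃ i', pos i' = (o + j * m + pos i - o) % m := by
      rw [h0, h4, h5]; exact ⟨by omega, hj, i, rfl⟩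
    rw [dif_pos h6]
    simp only [Sum.elim_inl]
    have h7 : h6.2.2.choose = i := hinj (h6.2.2.choose_spec.trans (by rw [h0]; exact h5))
    rw [h7]
    congr 2
    apply Fin.ext
    simp only [h0, h4]
  have e : (orC (Finset.univ : Finset (Fin (2 ^ t))) F y = true) ↔
      ∃ a ∈ (Finset.univ : Finset (Fin (2 ^ t))), F (fun i => y (a, i)) = true := by
    simp [orC]
  rw [e]
  constructor
  · rintro ⟨j, -, hj⟩
    refine ⟨j.val, j.2, ?_⟩
    rw [key j.val j.2]
    exact hj
  · rintro ⟨j, hj, hj'⟩
    rw [key j hj] at hj'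
    exact ⟨⟨j, hj⟩, Finset.mem_univ _, hj'⟩

end Pool.Agent.FewNeg
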