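import Mathlib
import Pool.Agent.FewNeg.BlocksT

/-!
# Languages with blocks of many sizes
-/

set_option autoImplicit false

namespace Pool.Agent.FewNeg

/-- The words of length `n` are divided into `S n` segments of the same length; the segment `i` is
divided into blocks of length `K n i`; accepted are the words with a block accepted by `G n i` in
some segment `i`. -/
def MS (S : ℕ → ℕ) (K : ℕ → ℕ → ℕ) (G : ℕ → ℕ → (ℕ → Bool) → Bool) : Set (List Bool) :=
  {x | ∃ i, i < S x.length ∧ ∃ j, j < x.length / S x.length / K x.length i ∧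
    G x.length i (fun p => x.getD (i * (x.length / S x.length) + j * K x.length i + p) false) =
      true}

variable {S : ℕ → ℕ} {K : ℕ → ℕ → ℕ} {G : ℕ → ℕ → (ℕ → Bool) → Bool}

theorem MS_iff {n : ℕ} (x : List Bool) (hx : x.length = n) : x ∈ MS S K G ↔
    ∃ i, i < S n ∧ ∃ j, j < n / S n / K n i ∧
      G n i (fun p => x.getD (i * (n / S n) + j * K n i + p) false) = true := by
  subst hx
  rfl

theorem MS_monotone (hG : ∀ n i, Monotone (G n i)) (n : ℕ) :
    Monotone (slice (MS S K G) n) := by
  intro x y hxy
  rw [Bool.le_iff_imp]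
  intro hx
  rw [slice_eq_true, MS_iff (n := n) _ (by simp)] at hx ⊢
  obtain ⟨i, hi, j, hj, h⟩ := hx
  refine ⟨i, hi, j, hj, ?_⟩
  have h1 : G n i (fun p => (List.ofFn x).getD (i * (n / S n) + j * K n i + p) false) ≤
      G n i (fun p => (List.ofFn y).getD (i * (n / S n) + j * K n i + p) false) := by
    refine hG n i fun p => ?_
    by_cases hp : i * (n / S n) + j * K n i + p < n
    · rw [List.getD_eq_getElem _ _ (by simpa using hp), List.getD_eq_getElem _ _ (by simpa using hp)]
      simpa using hxy _
    · rw [List.getD_eq_default _ _ (by simpa using hp)]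
      exact Bool.false_le _
  rw [Bool.le_iff_imp] at h1
  exact h1 h

theorem MS_lower {ι : Type} {F : BF ι} {pos : ι → ℕ} {n i : ℕ} (hi : i < S n)
    (hinj : Function.Injective pos) (hlt : ∀ a, pos a < K n i)
    (hF0 : F (fun _ => false) = false) (hK : ∀ i', i' < S n → 0 < K n i')
    (hG0 : ∀ i', i' < S n → ∀ y : ℕ → Bool, (∀ p, p < K n i' → y p = false) → G n i' y = false)
    (hGF : ∀ y : ℕ → Bool, G n i y = F (fun a => y (pos a))) {s d t : ℕ}
    (ht : 2 ^ t * K n i ≤ n / S n) (h : Computes s d t (slice (MS S K G) n)) :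
    Computes (s + t) (d + t) 0 F := by
  have hKi := hK i hi
  have hseg : (i + 1) * (n / S n) ≤ n :=
    (Nat.mul_le_mul_right _ hi).trans (Nat.mul_div_le n (S n))
  have hseg' : (i + 1) * (n / S n) = i * (n / S n) + n / S n := by ring
  refine slice_lower_seg (o := i * (n / S n)) (m := K n i) hinj hlt hF0 hKi (by omega) ?_ h
  intro x hx hsup
  rw [MS_iff x hx]
  constructor
  · rintro ⟨i', hi', j, hj, hg⟩
    obtain ⟨p, hp, hpt⟩ : ∃ p, p < K n i' ∧
        x.getD (i' * (n / S n) + j * K n i' + p) false = true := by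
      by_contra hcon
      push Not at hcon
      rw [hG0 i' hi' _ fun p hp => by simpa using hcon p hp] at hg
      exact Bool.noConfusion hg
    obtain ⟨h1, h2⟩ := hsup _ hpt
    have h3 : (j + 1) * K n i' ≤ n / S n := (Nat.le_div_iff_mul_le (hK i' hi')).1 hj
    have h4 : (j + 1) * K n i' = j * K n i' + K n i' := by ring
    have hii : i' = i := by
      rcases lt_trichotomy i' i with hlt' | heq | hgt
      · have h5 : (i' + 1) * (n / S n) ≤ i * (n / S n) := Nat.mul_le_mul_right _ hlt'
        have h6 : (i' + 1) * (n / S n) = i' * (n / S n) + n / S n := by ring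
        omega
      · exact heq
      · have h5 : (i + 1) * (n / S n) ≤ i' * (n / S n) := Nat.mul_le_mul_right _ hgt
        omega
    subst hii
    refine ⟨j, ?_, ?_⟩
    · by_contra hcon
      push Not at hcon
      have h5 : 2 ^ t * K n i' ≤ j * K n i' := Nat.mul_le_mul_right _ hcon
      omega
    · rw [← hGF (fun p => x.getD (i' * (n / S n) + j * K n i' + p) false)]
      exact hg
  · rintro ⟨j, hj, hg⟩
    refine ⟨i, hi, j, ?_, ?_⟩
    · have h1 : 2 ^ t ≤ n / S n / K n i := (Nat.le_div_iff_mul_le hKi).2 ht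
      omega
    · rw [hGF (fun p => x.getD (i * (n / S n) + j * K n i + p) false)]
      exact hg

end Pool.Agent.FewNeg
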