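import Mathlib
import Pool.Agent.FewNeg.MS
import Pool.Agent.FewNeg.LangADefs

/-!
# The language of the words with a block in GEN, for blocks of all sizes
-/

set_option autoImplicit false

namespace Pool.Agent.FewNeg

/-- A block of length `8 ^ i` as an instance of GEN on `2 ^ i` elements. -/
noncomputable def GA (i : ℕ) (y : ℕ → Bool) : Bool := genF (2 ^ i) (fun p => y (posA (2 ^ i) p))

/-- A word of length `n` is divided into `log n + 1` segments, the segment `i` is divided into
blocks of length `8 ^ i`, which are instances of GEN on `2 ^ i` elements; accepted are the words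
with an instance with a positive answer. -/
noncomputable def LTA : Set (List Bool) :=
  MS (fun n => Nat.log 2 n + 1) (fun _ i => 8 ^ i) (fun _ i => GA i)

theorem GA_monotone (i : ℕ) : Monotone (GA i) := fun _ _ h => genF_monotone _ fun _ => h _

theorem LTA_monotone (n : ℕ) : Monotone (slice LTA n) := MS_monotone (fun _ i => GA_monotone i) n

theorem posA_lt' (i : ℕ) (p : Fin (2 ^ i) × Fin (2 ^ i) × Fin (2 ^ i)) :
    posA (2 ^ i) p < 8 ^ i := by
  have h := posA_lt (2 ^ i) p
  have e : (2 ^ i) ^ 3 = 8 ^ i := by rw [← pow_mul, mul_comm, pow_mul]; norm_num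
  rwa [e] at h

end Pool.Agent.FewNeg
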