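import Mathlib
import Pool.Agent.BookPL.Log2

/-!
# Powers of primes in the term calculus
-/

set_option autoImplicit false

namespace Pool.Agent.FewNeg

open Pool.Agent.PT

private def PD (p y : ℕ) : Prop :=
  1 ≤ y ∧ ∀ d, d < y + 1 → (y % d = 0 → (d = 1 ∨ d % p = 0))

private theorem pd_iff {p : ℕ} (hp : p.Prime) (q : ℕ) : PD p q ↔ ∃ j, q = p ^ j := by
  constructor
  · rintro ⟨h1, h2⟩
    refine ⟨_, Nat.eq_prime_pow_of_unique_prime_dvd (by omega) fun {d} hd hdq => ?_⟩
    rcases h2 d (Nat.lt_succ_of_le (Nat.le_of_dvd h1 hdq)) (Nat.mod_eq_zero_of_dvd hdq) with h | h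
    · exact absurd h hd.one_lt.ne'
    · exact ((Nat.prime_dvd_prime_iff_eq hp hd).1 (Nat.dvd_of_mod_eq_zero h)).symm
  · rintro ⟨j, rfl⟩
    refine ⟨Nat.one_le_pow _ _ hp.pos, fun d _ hd => ?_⟩
    obtain ⟨i, -, rfl⟩ := (Nat.dvd_prime_pow hp).1 (Nat.dvd_of_mod_eq_zero hd)
    rcases Nat.eq_zero_or_pos i with h | h
    · left
      rw [h, pow_zero]
    · right
      exact Nat.mod_eq_zero_of_dvd (dvd_pow_self p h.ne')

private theorem up_pd {Γ : Type} : UP (Γ := Γ) (fun _ e => PD (e 0) (e 1)) := by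
  unfold PD
  refine (UP.le (UF.const 1) (UF.var 1)).and ?_
  refine UP.ball (P := fun _ e d => (e 1 % d = 0 → (d = 1 ∨ d % e 0 = 0)))
    ((UF.var 1).add (UF.const 1)) ?_
  exact (UP.eq ((UF.var 2).mod (UF.var 0)) (UF.const 0)).imp
    ((UP.eq (UF.var 0) (UF.const 1)).or (UP.eq ((UF.var 0).mod (UF.var 1)) (UF.const 0)))

open Classical in
private theorem count_pd {p : ℕ} (hp : p.Prime) (j : ℕ) :
    (∑ z ∈ Finset.range (p ^ j), if PD p z then 1 else 0) = j := by
  rw [Finset.sum_boole]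
  simp only [Nat.cast_id]
  have h1 : (Finset.range (p ^ j)).filter (fun z => PD p z) =
      (Finset.range j).image (fun l => p ^ l) := by
    ext z
    simp only [Finset.mem_filter, Finset.mem_range, Finset.mem_image]
    constructor
    · rintro ⟨hz, hz2⟩
      obtain ⟨l, rfl⟩ := (pd_iff hp z).1 hz2
      exact ⟨l, (Nat.pow_lt_pow_iff_right hp.one_lt).1 hz, rfl⟩
    · rintro ⟨l, hl, rfl⟩
      exact ⟨(Nat.pow_lt_pow_iff_right hp.one_lt).2 hl, (pd_iff hp _).2 ⟨l, rfl⟩⟩
  rw [h1, Finset.card_image_of_injective _ (Nat.pow_right_injective hp.two_le), Finset.card_range]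

theorem UF.powP {Γ : Type} {f g b : List Γ → (ℕ → ℕ) → ℕ} (hf : UF f) (hg : UF g) (hb : UF b)
    (hp : ∀ x e, (f x e).Prime) :
    UF (fun x e => if f x e ^ g x e ≤ b x e then f x e ^ g x e else 0) := by
  classical
  have hcount : UF (Γ := Γ) (fun _ e =>
      ∑ z ∈ Finset.range (e 1), if PD (e 0) z then 1 else 0) := by
    refine UF.sum (b := fun _ e => e 1) (f := fun _ e z => if PD (e 0) z then 1 else 0)
      (UF.var 1) ?_
    exact UF.ite (P := fun (_ : List Γ) e => PD (e 1) (e 0))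
      (UP.comp₂ (P := fun _ u v => PD u v) up_pd (UF.var 1) (UF.var 0)) (UF.const 1) (UF.const 0)
  refine UF.congr (UF.sum (b := fun x e => b x e + 1)
    (f := fun x e y => if (PD (f x e) y ∧
      (∑ z ∈ Finset.range y, if PD (f x e) z then 1 else 0) = g x e) then y else 0)
    (hb.add (UF.const 1)) ?_) fun x e => ?_
  · have hf' : UF (fun x e => f x (fun i => e (i + 1))) := UF.ren (fun i => i + 1) hf
    have hg' : UF (fun x e => g x (fun i => e (i + 1))) := UF.ren (fun i => i + 1) hg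
    refine UF.ite (P := fun x e => PD (f x (fun i => e (i + 1))) (e 0) ∧
      (∑ z ∈ Finset.range (e 0), if PD (f x (fun i => e (i + 1))) z then 1 else 0) =
        g x (fun i => e (i + 1))) ?_ (UF.var 0) (UF.const 0)
    refine (UP.comp₂ (P := fun _ u v => PD u v) up_pd hf' (UF.var 0)).and (UP.eq ?_ hg')
    exact UF.comp₂ (f := fun _ u v => ∑ z ∈ Finset.range v, if PD u z then 1 else 0) hcount hf'
      (UF.var 0)
  · have hpr := hp x e
    have hiff : ∀ y, (PD (f x e) y ∧
        (∑ z ∈ Finset.range y, if PD (f x e) z then 1 else 0) = g x e) ↔ y = f x e ^ g x e := by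
      intro y
      constructor
      · rintro ⟨h1, h2⟩
        obtain ⟨j, rfl⟩ := (pd_iff hpr y).1 h1
        rw [count_pd hpr] at h2
        rw [h2]
      · rintro rfl
        exact ⟨(pd_iff hpr _).2 ⟨_, rfl⟩, count_pd hpr _⟩
    have hsum : (∑ y ∈ Finset.range (b x e + 1), if (PD (f x e) y ∧
        (∑ z ∈ Finset.range y, if PD (f x e) z then 1 else 0) = g x e) then y else 0) =
        ∑ y ∈ Finset.range (b x e + 1), if y = f x e ^ g x e then f x e ^ g x e else 0 := by
      refine Finset.sum_congr rfl fun y _ => ?_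
      by_cases h : y = f x e ^ g x e
      · rw [if_pos ((hiff y).2 h), if_pos h, h]
      · rw [if_neg (fun h' => h ((hiff y).1 h')), if_neg h]
    rw [hsum, Finset.sum_ite_eq']
    simp only [Finset.mem_range, Nat.lt_succ_iff]

end Pool.Agent.FewNeg
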