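import Mathlib
import Pool.Agent.FewNeg.TADefs
import Pool.Agent.FewNeg.PowU
import Pool.Agent.Book19.Defs
import Pool.Agent.B7219d.PTIter
import Pool.Agent.BookPL.Log2

/-!
# The language of the words with a block in GEN, for blocks of all sizes, is in P
-/

set_option autoImplicit false

namespace Pool.Agent.FewNeg

open Pool.Agent.PT

/-- The length of the segments. -/
private def tm (n : ℕ) : ℕ := n / (Nat.log 2 n + 1)

/-- `2 ^ i`, except if it is greater than `n`. -/
private def tk (n i : ℕ) : ℕ := if 2 ^ i ≤ n then 2 ^ i else 0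

/-- The segment of the position `p`. -/
private def tsg (n p : ℕ) : ℕ := p / tm n

/-- The number of elements of the instance at the position `p`. -/
private def tkk (n p : ℕ) : ℕ := tk n (tsg n p)

/-- The first position of the block of the position `p`. -/
private def tbs (n p : ℕ) : ℕ := tsg n p * tm n + p % tm n / tkk n p ^ 3 * tkk n p ^ 3

/-- The position in the block. -/
private def tzz (n p : ℕ) : ℕ := p % tm n % tkk n p ^ 3

private theorem tk_eq (n i : ℕ) (hn : n ≠ 0) (hi : i < Nat.log 2 n + 1) : tk n i = 2 ^ i := by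
  have h : 2 ^ i ≤ n :=
    (Nat.pow_le_pow_right (by norm_num) (Nat.lt_succ_iff.1 hi)).trans (Nat.pow_log_le_self 2 hn)
  rw [tk, if_pos h]

private theorem uf_tm {Γ : Type} : UF (fun (x : List Γ) _ => tm x.length) :=
  UF.len.div ((BookPL.UF.log2 UF.len).add (UF.const 1))

private theorem uf_tk {Γ : Type} {f : List Γ → (ℕ → ℕ) → ℕ} (hf : UF f) :
    UF (fun (x : List Γ) e => tk x.length (f x e)) :=
  UF.powP (UF.const 2) hf UF.len fun _ _ => Nat.prime_two

private theorem uf_tsg {Γ : Type} {f : List Γ → (ℕ → ℕ) → ℕ} (hf : UF f) :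
    UF (fun (x : List Γ) e => tsg x.length (f x e)) := hf.div uf_tm

private theorem uf_tkk {Γ : Type} {f : List Γ → (ℕ → ℕ) → ℕ} (hf : UF f) :
    UF (fun (x : List Γ) e => tkk x.length (f x e)) := uf_tk (uf_tsg hf)

private theorem uf_tbs {Γ : Type} {f : List Γ → (ℕ → ℕ) → ℕ} (hf : UF f) :
    UF (fun (x : List Γ) e => tbs x.length (f x e)) :=
  ((uf_tsg hf).mul uf_tm).add (((hf.mod uf_tm).div ((uf_tkk hf).pow 3)).mul ((uf_tkk hf).pow 3))

private theorem uf_tzz {Γ : Type} {f : List Γ → (ℕ → ℕ) → ℕ} (hf : UF f) :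
    UF (fun (x : List Γ) e => tzz x.length (f x e)) :=
  (hf.mod uf_tm).mod ((uf_tkk hf).pow 3)

/-- The letter at position `p`. -/
private def bt (w : List (Bool × Bool)) (p : ℕ) : Bool := (w.getD p (false, false)).1

/-- The mark at position `p`. -/
private def mk (w : List (Bool × Bool)) (p : ℕ) : Bool := (w.getD p (false, false)).2

/-- The position `p` belongs to an element of an instance. -/
private def EL (n p : ℕ) : Prop :=
  tsg n p < Nat.log 2 n + 1 ∧ p % tm n / tkk n p ^ 3 < tm n / tkk n p ^ 3 ∧ tzz n p < tkk n p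

/-- The position `p` gets a mark. -/
private def NM (n : ℕ) (w : List (Bool × Bool)) (p : ℕ) : Prop :=
  EL n p ∧ (mk w p = true ∨ tzz n p = 0 ∨
    ∃ x, x < tkk n p ∧ ∃ y, y < tkk n p ∧ (mk w (tbs n p + x) = true ∧
      mk w (tbs n p + y) = true ∧
      bt w (tbs n p + ((x * tkk n p + y) * tkk n p + tzz n p)) = true))

private theorem up_bt {f : List (Bool × Bool) → (ℕ → ℕ) → ℕ} (hf : UF f) :
    UP (fun w e => bt w (f w e) = true) := by
  refine ((UP.sym (true, true) hf).or (UP.sym (true, false) hf)).congr fun w e => ?_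
  rw [bt, List.getD_eq_getElem?_getD]
  cases w[f w e]? with
  | none => simp
  | some b =>
    obtain ⟨b1, b2⟩ := b
    cases b1 <;> cases b2 <;> simp

private theorem up_mk {f : List (Bool × Bool) → (ℕ → ℕ) → ℕ} (hf : UF f) :
    UP (fun w e => mk w (f w e) = true) := by
  refine ((UP.sym (true, true) hf).or (UP.sym (false, true) hf)).congr fun w e => ?_
  rw [mk, List.getD_eq_getElem?_getD]
  cases w[f w e]? with
  | none => simp
  | some b =>
    obtain ⟨b1, b2⟩ := b
    cases b1 <;> cases b2 <;> simp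

private theorem up_EL {Γ : Type} : UP (fun (w : List Γ) e => EL w.length (e 0)) :=
  (UP.lt (uf_tsg (UF.var 0)) ((BookPL.UF.log2 UF.len).add (UF.const 1))).and
    ((UP.lt (((UF.var 0).mod uf_tm).div ((uf_tkk (UF.var 0)).pow 3))
      (uf_tm.div ((uf_tkk (UF.var 0)).pow 3))).and (UP.lt (uf_tzz (UF.var 0)) (uf_tkk (UF.var 0))))

private theorem up_NM {f : List (Bool × Bool) → (ℕ → ℕ) → ℕ} (hf : UF f) :
    UP (fun w e => NM w.length w (f w e)) := by
  refine UP.comp₁ (P := fun w p => NM w.length w p) ?_ hf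
  refine up_EL.and ((up_mk (UF.var 0)).or ((UP.eq (uf_tzz (UF.var 0)) (UF.const 0)).or ?_))
  refine UP.bex (P := fun w e x => ∃ y, y < tkk w.length (e 0) ∧
    (mk w (tbs w.length (e 0) + x) = true ∧
      mk w (tbs w.length (e 0) + y) = true ∧
      bt w (tbs w.length (e 0) + ((x * tkk w.length (e 0) + y) *
        tkk w.length (e 0) + tzz w.length (e 0))) = true)) (uf_tkk (UF.var 0)) ?_
  refine UP.bex (P := fun w e y =>
    (mk w (tbs w.length (e 1) + e 0) = true ∧
      mk w (tbs w.length (e 1) + y) = true ∧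
      bt w (tbs w.length (e 1) + ((e 0 * tkk w.length (e 1) + y) *
        tkk w.length (e 1) + tzz w.length (e 1))) = true)) (uf_tkk (UF.var 1)) ?_
  exact (up_mk ((uf_tbs (UF.var 2)).add (UF.var 1))).and
    ((up_mk ((uf_tbs (UF.var 2)).add (UF.var 0))).and
    (up_bt ((uf_tbs (UF.var 2)).add (((((UF.var 1).mul (uf_tkk (UF.var 2))).add (UF.var 0)).mul
      (uf_tkk (UF.var 2))).add (uf_tzz (UF.var 2))))))

/-- The initial letters. -/
private def G0 (x : List Bool) (p : ℕ) : Bool × Bool := (x.getD p false, false)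

open Classical in
/-- The letters after one round. -/
private noncomputable def G1 (w : List (Bool × Bool)) (p : ℕ) : Bool × Bool :=
  (bt w p, decide (NM w.length w p))

private def F0 (x : List Bool) : List (Bool × Bool) := (List.range x.length).map (G0 x)

private noncomputable def F1 (w : List (Bool × Bool)) : List (Bool × Bool) :=
  (List.range w.length).map (G1 w)

/-- There is a new mark. -/
private def QQ (w : List (Bool × Bool)) : Prop :=
  ∃ p, p < w.length ∧ (NM w.length w p ∧ ¬ mk w p = true)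

/-- The element `1` of some block is marked. -/
private def RR (w : List (Bool × Bool)) : Prop :=
  ∃ i, i < Nat.log 2 w.length + 1 ∧ ∃ j, j < tm w.length / tk w.length i ^ 3 ∧
    (1 < tk w.length i ∧ mk w (i * tm w.length + j * tk w.length i ^ 3 + 1) = true)

private theorem up_G0 (a : Bool × Bool) : UP (fun x e => G0 x (e 0) = a) := by
  obtain ⟨a1, a2⟩ := a
  have h : UP (fun x e => List.getD x (e 0) false = true) := by
    refine (UP.sym true (UF.var 0)).congr fun w e => ?_
    rw [List.getD_eq_getElem?_getD]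
    cases w[e 0]? with
    | none => simp
    | some b => simp
  cases a1
  · refine (h.not.and (UP.const (false = a2))).congr fun x e => ?_
    rw [G0, Prod.mk.injEq, Bool.not_eq_true]
  · refine (h.and (UP.const (false = a2))).congr fun x e => ?_
    rw [G0, Prod.mk.injEq]

private theorem up_G1 (a : Bool × Bool) : UP (fun w e => G1 w (e 0) = a) := by
  classical
  obtain ⟨a1, a2⟩ := a
  have h1 := up_bt (UF.var 0)
  have h2 := up_NM (UF.var 0)
  have h3 : UP (fun w e => bt w (e 0) = a1) := by
    cases a1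
    · exact h1.not.congr fun x e => by rw [Bool.not_eq_true]
    · exact h1
  have h4 : UP (fun w e => decide (NM w.length w (e 0)) = a2) := by
    cases a2
    · exact h2.not.congr fun x e => by rw [decide_eq_false_iff_not]
    · exact h2.congr fun x e => by rw [decide_eq_true_iff]
  refine (h3.and h4).congr fun x e => ?_
  rw [G1, Prod.mk.injEq]

private theorem up_QQ : UP (fun w _ => QQ w) := by
  refine UP.bex (P := fun w _ p => (NM w.length w p ∧ ¬ mk w p = true)) UF.len ?_
  exact (up_NM (UF.var 0)).and (up_mk (UF.var 0)).not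

private theorem up_RR : UP (fun w _ => RR w) := by
  refine UP.bex (P := fun w _ i => ∃ j, j < tm w.length / tk w.length i ^ 3 ∧
    (1 < tk w.length i ∧ mk w (i * tm w.length + j * tk w.length i ^ 3 + 1) = true))
    ((BookPL.UF.log2 UF.len).add (UF.const 1)) ?_
  refine UP.bex (P := fun w e j => (1 < tk w.length (e 0) ∧
    mk w (e 0 * tm w.length + j * tk w.length (e 0) ^ 3 + 1) = true))
    (uf_tm.div ((uf_tk (UF.var 0)).pow 3)) ?_
  exact (UP.lt (UF.const 1) (uf_tk (UF.var 1))).and
    (up_mk ((((UF.var 1).mul uf_tm).add ((UF.var 0).mul ((uf_tk (UF.var 1)).pow 3))).add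
      (UF.const 1)))

private theorem getD_map_range {β : Type} (n : ℕ) (f : ℕ → β) (p : ℕ) (d : β) :
    ((List.range n).map f).getD p d = if p < n then f p else d := by
  rw [List.getD_eq_getElem?_getD, List.getElem?_map]
  split_ifs with h
  · rw [List.getElem?_range h]
    rfl
  · rw [List.getElem?_eq_none (by simpa using h)]
    rfl

private theorem length_F1 (w : List (Bool × Bool)) : (F1 w).length = w.length := by simp [F1]

private theorem bt_F1 (w : List (Bool × Bool)) (p : ℕ) : bt (F1 w) p = bt w p := by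
  rw [bt, F1, getD_map_range]
  split_ifs with h
  · rfl
  · rw [bt, List.getD_eq_default _ _ (by omega)]

private theorem mk_F1 (w : List (Bool × Bool)) (p : ℕ) :
    mk (F1 w) p = true ↔ p < w.length ∧ NM w.length w p := by
  rw [mk, F1, getD_map_range]
  split_ifs with h
  · simp [G1, h]
  · simp [h]

private theorem inv (x : List Bool) (i : ℕ) : (F1^[i] (F0 x)).length = x.length ∧
    (∀ p, bt (F1^[i] (F0 x)) p = x.getD p false) ∧
    ∀ p, mk (F1^[i] (F0 x)) p = true → p < x.length ∧ EL x.length p := by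
  induction i with
  | zero =>
    refine ⟨by simp [F0], fun p => ?_, fun p hp => ?_⟩
    · change bt (F0 x) p = _
      rw [bt, F0, getD_map_range]
      split_ifs with h
      · rfl
      · rw [List.getD_eq_default _ _ (by omega)]
    · change mk (F0 x) p = true at hp
      rw [mk, F0, getD_map_range] at hp
      split_ifs at hp with h
      exact absurd hp (by simp [G0])
  | succ i ih =>
    obtain ⟨h1, h2, h3⟩ := ih
    rw [Function.iterate_succ_apply']
    refine ⟨by rw [length_F1, h1], fun p => by rw [bt_F1, h2], fun p hp => ?_⟩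
    rw [mk_F1, h1] at hp
    exact ⟨hp.1, hp.2.1⟩

private theorem mk_mono (x : List Bool) (i p : ℕ) (h : mk (F1^[i] (F0 x)) p = true) :
    mk (F1^[i + 1] (F0 x)) p = true := by
  obtain ⟨h1, h2, h3⟩ := inv x i
  rw [Function.iterate_succ_apply', mk_F1, h1]
  obtain ⟨h4, h5⟩ := h3 p h
  exact ⟨h4, h5, Or.inl h⟩

private theorem exists_stop (x : List Bool) : ∃ s ≤ x.length + 1,
    (∀ i < s, QQ (F1^[i] (F0 x))) ∧ ¬ QQ (F1^[s] (F0 x)) := by
  classical
  set c : ℕ → ℕ := fun i => ((Finset.range x.length).filter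
    (fun p => mk (F1^[i] (F0 x)) p = true)).card with hc
  have hle : ∀ i, c i ≤ x.length := fun i => by
    have := Finset.card_filter_le (Finset.range x.length) (fun p => mk (F1^[i] (F0 x)) p = true)
    rwa [Finset.card_range] at this
  have hlt : ∀ i, QQ (F1^[i] (F0 x)) → c i < c (i + 1) := by
    rintro i ⟨p, hp, hp1, hp2⟩
    have h1 := (inv x i).1
    refine Finset.card_lt_card ⟨fun q hq => ?_, fun hsub => ?_⟩
    · rw [Finset.mem_filter] at hq ⊢
      exact ⟨hq.1, mk_mono x i q hq.2⟩
    · apply hp2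
      have h2 : p ∈ (Finset.range x.length).filter
          (fun p => mk (F1^[i + 1] (F0 x)) p = true) := by
        rw [Finset.mem_filter, Finset.mem_range]
        refine ⟨by rwa [h1] at hp, ?_⟩
        rw [Function.iterate_succ_apply', mk_F1]
        exact ⟨hp, hp1⟩
      exact (Finset.mem_filter.1 (hsub h2)).2
  have hex : ∃ s, ¬ QQ (F1^[s] (F0 x)) := by
    by_contra hcon
    push Not at hcon
    have h1 : ∀ i, i ≤ c i := by
      intro i
      induction i with
      | zero => exact Nat.zero_le _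
      | succ i ih =>
        have := hlt i (hcon i)
        omega
    have h2 := h1 (x.length + 1)
    have h3 := hle (x.length + 1)
    omega
  refine ⟨Nat.find hex, ?_, fun i hi => by_contra fun h => Nat.find_min hex hi h,
    Nat.find_spec hex⟩
  have h1 : ∀ i, i ≤ Nat.find hex → i ≤ c i := by
    intro i
    induction i with
    | zero => exact fun _ => Nat.zero_le _
    | succ i ih =>
      intro hi
      have h2 : QQ (F1^[i] (F0 x)) := by_contra fun h => Nat.find_min hex (by omega) h
      have := hlt i h2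
      have := ih (by omega)
      omega
  have h2 := h1 _ le_rfl
  have h3 := hle (Nat.find hex)
  omega

/-- The triples of the block `j` of the segment `i`. -/
private def blk (x : List Bool) (i j : ℕ)
    (p : Fin (tk x.length i) × Fin (tk x.length i) × Fin (tk x.length i)) : Bool :=
  x.getD (i * tm x.length + j * tk x.length i ^ 3 + posA (tk x.length i) p) false

private theorem dm (n i j z : ℕ) (hi : i < Nat.log 2 n + 1) (hj : j < tm n / tk n i ^ 3)
    (hz : z < tk n i) : i * tm n + j * tk n i ^ 3 + z < n ∧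
      tsg n (i * tm n + j * tk n i ^ 3 + z) = i ∧ tkk n (i * tm n + j * tk n i ^ 3 + z) = tk n i ∧
      tbs n (i * tm n + j * tk n i ^ 3 + z) = i * tm n + j * tk n i ^ 3 ∧
      tzz n (i * tm n + j * tk n i ^ 3 + z) = z ∧ EL n (i * tm n + j * tk n i ^ 3 + z) := by
  have hk : tk n i ≤ tk n i ^ 3 := Nat.le_self_pow (by norm_num) _
  have h0 : 0 < tk n i ^ 3 := by omega
  have h1 : (j + 1) * tk n i ^ 3 ≤ tm n := (Nat.le_div_iff_mul_le h0).1 hj
  rw [add_mul, one_mul] at h1
  have h2 : (Nat.log 2 n + 1) * tm n ≤ n := Nat.mul_div_le n _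
  have h3 : (i + 1) * tm n ≤ (Nat.log 2 n + 1) * tm n := Nat.mul_le_mul_right _ hi
  rw [add_mul i, one_mul] at h3
  set p := i * tm n + j * tk n i ^ 3 + z with hp
  have h4 : j * tk n i ^ 3 + z < tm n := by omega
  have h5 : p = tm n * i + (j * tk n i ^ 3 + z) := by rw [hp]; ring
  have e1 : p / tm n = i := by
    rw [h5, Nat.mul_add_div (by omega), Nat.div_eq_of_lt h4, add_zero]
  have e2 : p % tm n = j * tk n i ^ 3 + z := by
    rw [h5, Nat.mul_add_mod, Nat.mod_eq_of_lt h4]
  have e3 : tkk n p = tk n i := by rw [tkk, tsg, e1]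
  have e4 : (j * tk n i ^ 3 + z) / tk n i ^ 3 = j := by
    rw [mul_comm, Nat.mul_add_div h0, Nat.div_eq_of_lt (by omega), add_zero]
  have e5 : (j * tk n i ^ 3 + z) % tk n i ^ 3 = z := by
    rw [mul_comm, Nat.mul_add_mod, Nat.mod_eq_of_lt (by omega)]
  have e6 : tzz n p = z := by rw [tzz, e2, e3, e5]
  refine ⟨by omega, e1, e3, ?_, e6, ?_, ?_, ?_⟩
  · rw [tbs, e3, tsg, e1, e2, e4]
  · rw [tsg, e1]
    exact hi
  · rw [e2, e3, e4]
    exact hj
  · rw [e6, e3]
    exact hz

private theorem sound (x : List Bool) (t : ℕ) (i j : ℕ) (hi : i < Nat.log 2 x.length + 1)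
    (hj : j < tm x.length / tk x.length i ^ 3) (s : Fin (tk x.length i)) (hs : s.val = 0) :
    ∀ z : Fin (tk x.length i),
      mk (F1^[t] (F0 x)) (i * tm x.length + j * tk x.length i ^ 3 + z.val) = true →
      Gen (fun a b c => blk x i j (a, b, c)) s z := by
  induction t with
  | zero =>
    intro z hz
    change mk (F0 x) _ = true at hz
    rw [mk, F0, getD_map_range] at hz
    split_ifs at hz with h
    exact absurd hz (by simp [G0])
  | succ t ih =>
    intro z hz
    obtain ⟨h1, h2, h3⟩ := inv x t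
    rw [Function.iterate_succ_apply', mk_F1, h1] at hz
    obtain ⟨-, -, hz⟩ := hz
    obtain ⟨-, e1, e2, e3, e4, -⟩ := dm x.length i j z.val hi hj z.2
    rw [e2, e3, e4] at hz
    rcases hz with hz | hz | ⟨a, ha, b, hb, h4, h5, h6⟩
    · exact ih z hz
    · have hsz : z = s := Fin.ext (by rw [hs, hz])
      rw [hsz]
      exact Gen.src
    · refine Gen.step (ih ⟨a, ha⟩ h4) (ih ⟨b, hb⟩ h5) ?_
      rw [h2] at h6
      exact h6

private theorem complete (x : List Bool) (t : ℕ) (hQ : ¬ QQ (F1^[t] (F0 x))) (i j : ℕ)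
    (hi : i < Nat.log 2 x.length + 1) (hj : j < tm x.length / tk x.length i ^ 3)
    (s : Fin (tk x.length i)) (hs : s.val = 0)
    (z : Fin (tk x.length i)) (hz : Gen (fun a b c => blk x i j (a, b, c)) s z) :
    mk (F1^[t] (F0 x)) (i * tm x.length + j * tk x.length i ^ 3 + z.val) = true := by
  obtain ⟨h1, h2, h3⟩ := inv x t
  have key : ∀ z : Fin (tk x.length i),
      NM x.length (F1^[t] (F0 x)) (i * tm x.length + j * tk x.length i ^ 3 + z.val) →
      mk (F1^[t] (F0 x)) (i * tm x.length + j * tk x.length i ^ 3 + z.val) = true := by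
    intro z hz
    by_contra hcon
    exact hQ ⟨_, by rw [h1]; exact (dm x.length i j z.val hi hj z.2).1, by rw [h1]; exact hz, hcon⟩
  induction hz with
  | src =>
    refine key s ?_
    obtain ⟨-, e1, e2, e3, e4, e5⟩ := dm x.length i j s.val hi hj s.2
    exact ⟨e5, Or.inr (Or.inl (by rw [e4, hs]))⟩
  | @step a b c _ _ hr ih1 ih2 =>
    refine key c ?_
    obtain ⟨-, e1, e2, e3, e4, e5⟩ := dm x.length i j c.val hi hj c.2
    refine ⟨e5, Or.inr (Or.inr ?_)⟩
    rw [e2, e3, e4]
    refine ⟨a.val, a.2, b.val, b.2, ih1, ih2, ?_⟩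
    rw [h2]
    exact hr

private theorem mem_iff (x : List Bool) : x ∈ LTA ↔ ∃ i, i < Nat.log 2 x.length + 1 ∧
    ∃ j, j < tm x.length / tk x.length i ^ 3 ∧ genF (tk x.length i) (blk x i j) = true := by
  rw [LTA, MS_iff x rfl]
  refine exists_congr fun i => and_congr_right fun hi => ?_
  rcases Nat.eq_zero_or_pos x.length with h0 | h0
  · have e1 : tm x.length = 0 := by rw [h0]; rfl
    constructor
    · rintro ⟨j, hj, -⟩
      rw [h0, Nat.zero_div, Nat.zero_div] at hj
      omega
    · rintro ⟨j, hj, -⟩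
      rw [e1, Nat.zero_div] at hj
      omega
  · have e : tk x.length i = 2 ^ i := tk_eq _ _ h0.ne' hi
    have e8 : (2 ^ i) ^ 3 = 8 ^ i := by rw [← pow_mul, mul_comm, pow_mul]; norm_num
    refine exists_congr fun j => ?_
    unfold blk
    rw [e, e8]
    rfl

private theorem final (x : List Bool) (t : ℕ) (hQ : ¬ QQ (F1^[t] (F0 x))) :
    x ∈ LTA ↔ RR (F1^[t] (F0 x)) := by
  rw [mem_iff, RR, (inv x t).1]
  refine exists_congr fun i => and_congr_right fun hi => exists_congr fun j =>
    and_congr_right fun hj => ?_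
  rw [genF_eq_true]
  constructor
  · rintro ⟨s, u, hs, hu, hg⟩
    have h1 := complete x t hQ i j hi hj s hs u hg
    rw [hu] at h1
    exact ⟨by have := u.2; omega, h1⟩
  · rintro ⟨hk, h1⟩
    exact ⟨⟨0, by omega⟩, ⟨1, hk⟩, rfl, rfl, sound x t i j hi hj _ rfl ⟨1, hk⟩ h1⟩

theorem inP_LTA : Book19.InP Bool LTA := by
  classical
  refine ⟨fun x => decide (x ∈ LTA), ?_, fun x => by simp⟩
  refine B7219d.polyTime_iterate (Γ := Bool × Bool) _ (M₀ := fun x => x.length) (G₀ := G0)
    UF.len up_G0 (M₁ := fun w => w.length) (G₁ := G1) UF.len up_G1 up_QQ up_RR _ F0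
    (fun _ => rfl) F1 (fun _ => rfl) (fun N => N + 1) (fun N => N) (PB.id.add (PB.const 1))
    PB.id fun x => ?_
  have e : (Computability.encodingList Bool).encode x = x := rfl
  rw [e]
  obtain ⟨s, h1, h2, h3⟩ := exists_stop x
  refine ⟨s, h1, h2, h3, fun i _ => (inv x i).1.le, ?_⟩
  rw [decide_eq_true_iff]
  exact final x s h3

end Pool.Agent.FewNeg
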