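import Mathlib
import Pool.Agent.FewNeg.Defs

/-!
# Monotone CNFs and DNFs; Andreev's polynomial function
-/

set_option autoImplicit false

namespace Pool.Agent.FewNeg

/-- The value of a monotone CNF (a set of clauses). -/
def evC {ι : Type} (Φ : Finset (Finset ι)) (x : ι → Bool) : Prop := ∀ q ∈ Φ, ∃ i ∈ q, x i = true

/-- The value of a monotone DNF (a set of monomials). -/
def evD {ι : Type} (Φ : Finset (Finset ι)) (x : ι → Bool) : Prop := ∃ m ∈ Φ, ∀ i ∈ m, x i = true

open Classical in
/-- Andreev's function: does the set `x` of points of the plane over `ℤ / q` contain the graph of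
a polynomial of degree less than `k`? -/
noncomputable def andrF (q k : ℕ) : BF (Fin q × Fin q) := fun x =>
  decide (∃ c : Fin k → Fin q, ∀ u v : Fin q,
    v.val = (∑ i : Fin k, (c i).val * u.val ^ (i : ℕ)) % q → x (u, v) = true)

end Pool.Agent.FewNeg
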