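import Mathlib
import Pool.Agent.FewNeg.SwDefs
import Pool.Agent.FewNeg.Blocks

/-!
# The language of the words with a block accepted by Andreev's function
-/

set_option autoImplicit false

namespace Pool.Agent.FewNeg

/-- The degree parameter for the words of length `n`. -/
def aB (c n : ℕ) : ℕ := (Nat.log 2 n + 2) ^ (c + 1) + 5

/-- The least prime greater than the fourth power of the degree parameter. -/
def qB (c n : ℕ) : ℕ := Nat.find (Nat.exists_infinite_primes (aB c n ^ 4 + 1))

/-- The position of a point in a block. -/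
def posB (q : ℕ) (p : Fin q × Fin q) : ℕ := p.1.val * q + p.2.val

/-- The language of the words `x` of length `n` with a block `j` which is accepted by Andreev's
function for `q = qB c n` and degree less than `aB c n`; the block `j` consists of the `q ^ 2`
letters from position `j q ^ 2` on. -/
def LB (c : ℕ) : Set (List Bool) := {x | ∃ j, j < x.length / qB c x.length ^ 2 ∧
  andrF (qB c x.length) (aB c x.length)
    (fun p => x.getD (j * qB c x.length ^ 2 + posB (qB c x.length) p) false) = true}

theorem qB_prime (c n : ℕ) : (qB c n).Prime :=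
  (Nat.find_spec (Nat.exists_infinite_primes (aB c n ^ 4 + 1))).2

theorem lt_qB (c n : ℕ) : aB c n ^ 4 < qB c n :=
  (Nat.find_spec (Nat.exists_infinite_primes (aB c n ^ 4 + 1))).1

theorem qB_le (c n : ℕ) : qB c n ≤ 2 * aB c n ^ 4 := by
  have h0 : aB c n ^ 4 ≠ 0 := by
    have : 0 < aB c n := by unfold aB; omega
    positivity
  obtain ⟨p, hp, h1, h2⟩ := Nat.exists_prime_lt_and_le_two_mul _ h0
  exact (Nat.find_min' _ ⟨h1, hp⟩).trans h2

theorem posB_lt (q : ℕ) (p : Fin q × Fin q) : posB q p < q ^ 2 := by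
  obtain ⟨a, b⟩ := p
  unfold posB
  have h1 : a.val + 1 ≤ q := a.2
  have h2 := b.2
  calc a.val * q + b.val < a.val * q + q := by omega
    _ = (a.val + 1) * q := by ring
    _ ≤ q * q := Nat.mul_le_mul_right _ h1
    _ = q ^ 2 := by ring

theorem posB_inj (q : ℕ) : Function.Injective (posB q) := by
  rintro ⟨a, b⟩ ⟨a', b'⟩ h
  unfold posB at h
  simp only at h
  have hk : 0 < q := a.pos
  have h3 : b.val = b'.val := by
    have := congrArg (· % q) h
    simpa [Nat.mul_add_mod', Nat.mod_eq_of_lt b.2, Nat.mod_eq_of_lt b'.2] using this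
  have h4 : a.val = a'.val := by
    rw [h3] at h
    exact Nat.eq_of_mul_eq_mul_right hk (Nat.add_right_cancel h)
  rw [Fin.ext h3, Fin.ext h4]

theorem andrF_eq_true {q k : ℕ} {x : Fin q × Fin q → Bool} : andrF q k x = true ↔
    ∃ c : Fin k → Fin q, ∀ u v : Fin q,
      v.val = (∑ i : Fin k, (c i).val * u.val ^ (i : ℕ)) % q → x (u, v) = true := by
  simp [andrF]

theorem andrF_monotone (q k : ℕ) : Monotone (andrF q k) := by
  intro x y hxy
  rw [Bool.le_iff_imp, andrF_eq_true, andrF_eq_true]
  rintro ⟨c, hc⟩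
  refine ⟨c, fun u v h => ?_⟩
  have := hxy (u, v)
  rw [Bool.le_iff_imp] at this
  exact this (hc u v h)

theorem andrF_zero {q k : ℕ} (hq : 0 < q) : andrF q k (fun _ => false) = false := by
  rw [Bool.eq_false_iff]
  intro h
  rw [andrF_eq_true] at h
  obtain ⟨c, hc⟩ := h
  have := hc ⟨0, hq⟩ ⟨_, Nat.mod_lt _ hq⟩ rfl
  exact Bool.noConfusion this

theorem LB_iff {c n : ℕ} (x : List Bool) (hx : x.length = n) : x ∈ LB c ↔
    ∃ j, j < n / qB c n ^ 2 ∧ andrF (qB c n) (aB c n)
      (fun p => x.getD (j * qB c n ^ 2 + posB (qB c n) p) false) = true := by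
  subst hx
  rfl

end Pool.Agent.FewNeg
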