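import Mathlib
import Pool.Agent.FewNeg.MS
import Pool.Agent.FewNeg.LangADefs
import Pool.Agent.FewNeg.LangBDefs

/-!
# The language of the words with a block accepted by Andreev's function, for blocks of many sizes
-/

set_option autoImplicit false

namespace Pool.Agent.FewNeg

/-- The degree parameter of the blocks in the segment `i`. -/
def aT (i : ℕ) : ℕ := 2 ^ i + 5

/-- The least prime greater than the fourth power of the degree parameter. -/
def qT (i : ℕ) : ℕ := Nat.find (Nat.exists_infinite_primes (aT i ^ 4 + 1))

/-- The number of segments. -/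
def sT (c n : ℕ) : ℕ := (c + 1) * (Nat.log 2 (Nat.log 2 n) + 2) + 1

/-- Andreev's function on a block. -/
noncomputable def GB (i : ℕ) (y : ℕ → Bool) : Bool :=
  andrF (qT i) (aT i) (fun p => y (posB (qT i) p))

/-- A word of length `n` is divided into `sT c n` segments, the segment `i` is divided into blocks
of length `(qT i) ^ 2`; accepted are the words with a block accepted by Andreev's function for the
prime `qT i` and degree less than `aT i`. -/
noncomputable def LTB (c : ℕ) : Set (List Bool) := MS (sT c) (fun _ i => qT i ^ 2) (fun _ i => GB i)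

theorem qT_prime (i : ℕ) : (qT i).Prime :=
  (Nat.find_spec (Nat.exists_infinite_primes (aT i ^ 4 + 1))).2

theorem lt_qT (i : ℕ) : aT i ^ 4 < qT i :=
  (Nat.find_spec (Nat.exists_infinite_primes (aT i ^ 4 + 1))).1

theorem qT_le (i : ℕ) : qT i ≤ 2 * aT i ^ 4 := by
  have h0 : aT i ^ 4 ≠ 0 := by
    have : 0 < aT i := Nat.succ_pos _
    positivity
  obtain ⟨p, hp, h1, h2⟩ := Nat.exists_prime_lt_and_le_two_mul _ h0
  exact (Nat.find_min' _ ⟨h1, hp⟩).trans h2

theorem GB_monotone (i : ℕ) : Monotone (GB i) := fun _ _ h => andrF_monotone _ _ fun _ => h _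

theorem LTB_monotone (c n : ℕ) : Monotone (slice (LTB c) n) :=
  MS_monotone (fun _ i => GB_monotone i) n

end Pool.Agent.FewNeg
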