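import Mathlib
import Pool.Agent.FewNeg.LangBDefs
import Pool.Agent.FewNeg.PowU
import Pool.Agent.BookPL.While

/-!
# The language of the words with a block accepted by Andreev's function is in POLYLOGSPACE
-/

set_option autoImplicit false

namespace Pool.Agent.FewNeg

open Pool.Agent.PT

/-! ### Numbers in base `B` -/

lemma LangB_digits (B : ℕ) (hB : 0 < B) : ∀ (a C : ℕ), C < B ^ a →
    C = ∑ i ∈ Finset.range a, (C / B ^ i) % B * B ^ i
  | 0, C, hC => by
    rw [pow_zero] at hC
    rw [Finset.range_zero, Finset.sum_empty]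
    omega
  | a + 1, C, hC => by
    have h1 : C / B < B ^ a := by
      rw [Nat.div_lt_iff_lt_mul hB, ← pow_succ]
      exact hC
    have h2 := LangB_digits B hB a (C / B) h1
    rw [Finset.sum_range_succ', pow_zero, Nat.div_one, mul_one]
    have h3 : ∑ i ∈ Finset.range a, C / B ^ (i + 1) % B * B ^ (i + 1) =
        B * ∑ i ∈ Finset.range a, (C / B) / B ^ i % B * B ^ i := by
      rw [Finset.mul_sum]
      refine Finset.sum_congr rfl fun i _ => ?_
      rw [Nat.div_div_eq_div_mul, pow_succ, mul_comm (B ^ i) B]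
      ring
    rw [h3, ← h2]
    have h4 := Nat.div_add_mod C B
    omega

lemma LangB_enc (B : ℕ) (hB : 0 < B) : ∀ (a : ℕ) (c : ℕ → ℕ), (∀ i < a, c i < B) →
    ∃ C < B ^ a, ∀ i < a, (C / B ^ i) % B = c i
  | 0, c, _ => ⟨0, by simp, fun i hi => absurd hi (by omega)⟩
  | a + 1, c, hc => by
    obtain ⟨C, hC, hC2⟩ := LangB_enc B hB a (fun i => c (i + 1)) fun i hi => hc (i + 1) (by omega)
    have h0 : c 0 < B := hc 0 (by omega)
    refine ⟨c 0 + B * C, ?_, fun i hi => ?_⟩
    · have h1 : B * (C + 1) ≤ B * B ^ a := Nat.mul_le_mul_left _ hC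
      rw [pow_succ, mul_comm (B ^ a) B]
      calc c 0 + B * C < B + B * C := by omega
        _ = B * (C + 1) := by ring
        _ ≤ B * B ^ a := h1
    · cases i with
      | zero =>
        rw [pow_zero, Nat.div_one, Nat.add_mul_mod_self_left, Nat.mod_eq_of_lt h0]
      | succ i =>
        have h1 : (c 0 + B * C) / B = C := by
          rw [Nat.add_mul_div_left _ _ hB, Nat.div_eq_of_lt h0, zero_add]
        rw [pow_succ, mul_comm (B ^ i) B, ← Nat.div_div_eq_div_mul, h1]
        exact hC2 i (by omega)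

lemma LangB_modEq (B u m : ℕ) (h : B ≡ u [MOD m]) (d : ℕ → ℕ) : ∀ a : ℕ,
    (∑ i ∈ Finset.range a, d i * B ^ i) ≡ (∑ i ∈ Finset.range a, d i * u ^ i) [MOD m]
  | 0 => by rfl
  | a + 1 => by
    rw [Finset.sum_range_succ, Finset.sum_range_succ]
    exact (LangB_modEq B u m h d a).add (Nat.ModEq.mul_left _ (h.pow a))

lemma LangB_small (q a u : ℕ) (hu : u < q) (d : ℕ → ℕ) (hd : ∀ i < a, d i < q) :
    ∑ i ∈ Finset.range a, d i * u ^ i < q ^ a := by
  have h0 : 0 < q := by omega
  have key : ∀ b ≤ a, ∑ i ∈ Finset.range b, d i * u ^ i + 1 ≤ q ^ b := by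
    intro b
    induction b with
    | zero => intro _; simp
    | succ b ih =>
      intro hb
      have h1 := ih (by omega)
      rw [Finset.sum_range_succ, pow_succ]
      have h2 : d b + 1 ≤ q := hd b (by omega)
      have h3 : u ^ b ≤ q ^ b := Nat.pow_le_pow_left hu.le b
      have h4 : d b * u ^ b ≤ (q - 1) * q ^ b := Nat.mul_le_mul (by omega) h3
      have h5 : q ^ b + (q - 1) * q ^ b = q ^ b * q := by
        obtain ⟨r, hr⟩ : ∃ r, q = r + 1 := ⟨q - 1, by omega⟩
        rw [hr, Nat.add_sub_cancel]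
        ring
      omega
  exact key a le_rfl

lemma LangB_value (q a u C : ℕ) (hq : 2 ≤ q) (ha : 1 ≤ a) (hu : u < q)
    (hC : C < (q ^ (a + 2)) ^ a) (hd : ∀ i < a, C / (q ^ (a + 2)) ^ i % q ^ (a + 2) < q) :
    C % (q ^ (a + 2) - u) =
      ∑ i ∈ Finset.range a, (C / (q ^ (a + 2)) ^ i % q ^ (a + 2)) * u ^ i := by
  set B := q ^ (a + 2) with hB
  set d : ℕ → ℕ := fun i => C / B ^ i % B with hdd
  have hBpos : 0 < B := by positivity
  have hqa : q ≤ q ^ a := by
    calc q = q ^ 1 := (pow_one q).symm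
      _ ≤ q ^ a := Nat.pow_le_pow_right (by omega) ha
  have hB4 : 4 * q ^ a ≤ B := by
    rw [hB, pow_add, mul_comm]
    refine Nat.mul_le_mul_left _ ?_
    nlinarith
  have h1 := LangB_digits B hBpos a C hC
  have h2 : B ≡ u [MOD (B - u)] := by
    have h3 : B = u + (B - u) := by omega
    conv_lhs => rw [h3]
    exact Nat.add_mod_right u (B - u)
  have h3 := LangB_modEq B u (B - u) h2 d a
  rw [← h1] at h3
  have h4 := LangB_small q a u hu d hd
  have h5 : C % (B - u) = (∑ i ∈ Finset.range a, d i * u ^ i) % (B - u) := h3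
  rw [h5, Nat.mod_eq_of_lt (by omega)]

/-! ### The terms -/

lemma LangB_prime {f : List Bool → (ℕ → ℕ) → ℕ} (hf : UF f) :
    UP (fun x e => (f x e).Prime) := by
  have h : UP (Γ := Bool) (fun _ e => (e 0).Prime) := by
    refine UP.congr (P := fun (_ : List Bool) (e : ℕ → ℕ) =>
      2 ≤ e 0 ∧ ∀ m, m < e 0 → (2 ≤ m → ¬ (e 0 % m = 0))) ?_ fun x e => ?_
    · refine (UP.le (UF.const 2) (UF.var 0)).and ?_
      refine UP.ball (P := fun _ e m => (2 ≤ m → ¬ (e 0 % m = 0))) (UF.var 0) ?_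
      exact (UP.le (UF.const 2) (UF.var 0)).imp
        (UP.eq ((UF.var 1).mod (UF.var 0)) (UF.const 0)).not
    · rw [Nat.prime_def_lt']
      constructor
      · rintro ⟨h1, h2⟩
        exact ⟨h1, fun m hm1 hm2 hd => h2 m hm2 hm1 (Nat.mod_eq_zero_of_dvd hd)⟩
      · rintro ⟨h1, h2⟩
        exact ⟨h1, fun m hm1 hm2 hd => h2 m hm2 hm1 (Nat.dvd_of_mod_eq_zero hd)⟩
  exact UP.comp₁ (P := fun _ a => a.Prime) h hf

lemma LangB_a (c : ℕ) : UF (Γ := Bool) (fun x _ => aB c x.length) :=
  ((((BookPL.UF.log2 UF.len).add (UF.const 2)).pow (c + 1)).add (UF.const 5)).congr fun x e => rfl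

open Classical in
lemma LangB_q_sum (c n : ℕ) : (∑ y ∈ Finset.range (2 * aB c n ^ 4 + 1),
    if ∀ z, z < y + 1 → ¬ (aB c n ^ 4 < z ∧ z.Prime) then 1 else 0) = qB c n := by
  rw [Finset.sum_boole]
  simp only [Nat.cast_id]
  have h1 : (Finset.range (2 * aB c n ^ 4 + 1)).filter
      (fun y => ∀ z, z < y + 1 → ¬ (aB c n ^ 4 < z ∧ z.Prime)) = Finset.range (qB c n) := by
    ext y
    rw [Finset.mem_filter, Finset.mem_range, Finset.mem_range]
    have h2 := qB_le c n
    constructor
    · rintro ⟨-, h⟩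
      by_contra hcon
      exact h (qB c n) (by omega) ⟨lt_qB c n, qB_prime c n⟩
    · intro h
      refine ⟨by omega, fun z hz hz2 => ?_⟩
      have h3 : qB c n ≤ z :=
        Nat.find_min' (Nat.exists_infinite_primes (aB c n ^ 4 + 1)) ⟨hz2.1, hz2.2⟩
      omega
  rw [h1, Finset.card_range]

lemma LangB_q (c : ℕ) : UF (Γ := Bool) (fun x _ => qB c x.length) := by
  classical
  refine UF.congr (UF.sum (b := fun x _ => 2 * aB c x.length ^ 4 + 1)
    (f := fun x _ y => if ∀ z, z < y + 1 → ¬ (aB c x.length ^ 4 < z ∧ z.Prime) then 1 else 0)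
    (((UF.const 2).mul ((LangB_a c).pow 4)).add (UF.const 1)) ?_) fun x e => ?_
  · have h : UP (Γ := Bool) (fun x e => ∀ z, z < e 0 + 1 →
        ¬ (aB c x.length ^ 4 < z ∧ z.Prime)) := by
      refine UP.ball (P := fun x _ z => ¬ (aB c x.length ^ 4 < z ∧ z.Prime))
        ((UF.var 0).add (UF.const 1)) ?_
      exact ((UP.lt ((LangB_a c).pow 4) (UF.var 0)).and (LangB_prime (UF.var 0))).not
    exact UF.congr h fun x e => by congr
  · refine Eq.trans ?_ (LangB_q_sum c x.length)
    refine Finset.sum_congr rfl fun y _ => ?_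
    congr

/-- bounded powers of `q` -/
def LangB_pw (c : ℕ) (x : List Bool) (N g : ℕ) : ℕ :=
  if qB c x.length ^ g ≤ N then qB c x.length ^ g else 0

lemma LangB_pwT (c : ℕ) {b g : List Bool → (ℕ → ℕ) → ℕ} (hb : UF b) (hg : UF g) :
    UF (fun x e => LangB_pw c x (b x e) (g x e)) :=
  UF.powP (LangB_q c) hg hb fun x _ => qB_prime c x.length

/-- the test of one block with one polynomial -/
def LangB_PE (c : ℕ) (x : List Bool) (N j C : ℕ) : Prop :=
  (∀ i, i < aB c x.length → C / LangB_pw c x N ((aB c x.length + 2) * i) %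
    LangB_pw c x N (aB c x.length + 2) < qB c x.length) ∧
  ∀ u, u < qB c x.length → x[j * qB c x.length ^ 2 + (u * qB c x.length +
    (C % (LangB_pw c x N (aB c x.length + 2) - u)) % qB c x.length)]? = some true

lemma LangB_PET (c : ℕ) : UP (fun x e => LangB_PE c x (e 0) (e 1) (e 2)) := by
  refine UP.and ?_ ?_
  · refine UP.ball (P := fun x e i => e 2 / LangB_pw c x (e 0) ((aB c x.length + 2) * i) %
      LangB_pw c x (e 0) (aB c x.length + 2) < qB c x.length) (LangB_a c) ?_
    exact UP.lt (((UF.var 3).div (LangB_pwT c (UF.var 1)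
      (((LangB_a c).add (UF.const 2)).mul (UF.var 0)))).mod
      (LangB_pwT c (UF.var 1) ((LangB_a c).add (UF.const 2)))) (LangB_q c)
  · refine UP.ball (P := fun x e u => x[e 1 * qB c x.length ^ 2 + (u * qB c x.length +
      (e 2 % (LangB_pw c x (e 0) (aB c x.length + 2) - u)) % qB c x.length)]? = some true)
      (LangB_q c) ?_
    exact UP.sym true (((UF.var 2).mul ((LangB_q c).pow 2)).add
      (((UF.var 0).mul (LangB_q c)).add (((UF.var 3).mod
        ((LangB_pwT c (UF.var 1) ((LangB_a c).add (UF.const 2))).sub (UF.var 0))).mod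
          (LangB_q c))))

/-- the test of all blocks -/
def LangB_PP (c : ℕ) (x : List Bool) (N : ℕ) : Prop :=
  ∃ j, j < x.length / qB c x.length ^ 2 ∧ ∃ C, C < N ∧ LangB_PE c x N j C

lemma LangB_PPT (c : ℕ) : UP (fun x e => LangB_PP c x (e 2)) := by
  refine UP.bex (P := fun x e j => ∃ C, C < e 2 ∧ LangB_PE c x (e 2) j C)
    (UF.len.div ((LangB_q c).pow 2)) ?_
  refine UP.bex (P := fun x e C => LangB_PE c x (e 3) (e 0) C) (UF.var 3) ?_
  exact UP.comp₃ (P := fun x N j C => LangB_PE c x N j C) (LangB_PET c) (UF.var 4) (UF.var 1)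
    (UF.var 0)

lemma LangB_getD (x : List Bool) (i : ℕ) : x.getD i false = true ↔ x[i]? = some true := by
  rw [List.getD_eq_getElem?_getD]
  cases x[i]? with
  | none => simp
  | some b => simp

lemma LangB_iff (c : ℕ) (x : List Bool) :
    LangB_PP c x (qB c x.length ^ (aB c x.length * (aB c x.length + 2))) ↔ x ∈ LB c := by
  rw [LB_iff x rfl]
  set a := aB c x.length with ha
  set q := qB c x.length with hq
  have ha5 : 5 ≤ a := by rw [ha]; unfold aB; omega
  have hq2 : 2 ≤ q := (qB_prime c x.length).two_le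
  have hX : q ^ (a * (a + 2)) = (q ^ (a + 2)) ^ a := by rw [← pow_mul, mul_comm]
  have hpw : ∀ g, g ≤ a * (a + 2) → LangB_pw c x (q ^ (a * (a + 2))) g = q ^ g := by
    intro g hg
    unfold LangB_pw
    rw [if_pos (Nat.pow_le_pow_right (by omega) hg)]
  have hpwB : LangB_pw c x (q ^ (a * (a + 2))) (a + 2) = q ^ (a + 2) :=
    hpw _ (Nat.le_mul_of_pos_left _ (by omega))
  have hpwi : ∀ i, i < a → LangB_pw c x (q ^ (a * (a + 2))) ((a + 2) * i) = (q ^ (a + 2)) ^ i := by
    intro i hi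
    rw [hpw _ (by rw [mul_comm]; exact Nat.mul_le_mul_right _ hi.le), pow_mul]
  have hsum : ∀ (d : ℕ → ℕ) (f : Fin a → Fin q) (u : ℕ), (∀ i : Fin a, (f i).val = d i) →
      ∑ i : Fin a, (f i).val * u ^ (i : ℕ) = ∑ i ∈ Finset.range a, d i * u ^ i := by
    intro d f u h
    rw [Finset.sum_range]
    exact Finset.sum_congr rfl fun i _ => by rw [h i]
  unfold LangB_PP
  constructor
  · rintro ⟨j, hj, C, hC, h1, h2⟩
    refine ⟨j, hj, ?_⟩
    rw [andrF_eq_true]
    rw [hX] at hC
    have h1' : ∀ i < a, C / (q ^ (a + 2)) ^ i % q ^ (a + 2) < q := by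
      intro i hi
      have h3 := h1 i hi
      rwa [hpwi i hi, hpwB] at h3
    refine ⟨fun i => ⟨C / (q ^ (a + 2)) ^ (i : ℕ) % q ^ (a + 2), h1' i i.2⟩, fun u v huv => ?_⟩
    rw [LangB_getD]
    have h3 := h2 u.val u.2
    rw [hpwB, LangB_value q a u.val C hq2 (by omega) u.2 hC h1'] at h3
    rw [hsum (fun i => C / (q ^ (a + 2)) ^ i % q ^ (a + 2)) _ u.val fun i => rfl] at huv
    unfold posB
    simp only
    rw [huv]
    exact h3
  · rintro ⟨j, hj, h⟩
    rw [andrF_eq_true] at h
    obtain ⟨f, hf⟩ := h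
    set d : ℕ → ℕ := fun i => if hi : i < a then (f ⟨i, hi⟩).val else 0 with hd
    have hdlt : ∀ i < a, d i < q := by
      intro i hi
      rw [hd]
      simp only [dif_pos hi]
      exact (f ⟨i, hi⟩).2
    have hdf : ∀ i : Fin a, (f i).val = d i := by
      intro i
      rw [hd]
      simp only [dif_pos i.2]
    have hqB : q ≤ q ^ (a + 2) := by
      calc q = q ^ 1 := (pow_one q).symm
        _ ≤ q ^ (a + 2) := Nat.pow_le_pow_right (by omega) (by omega)
    obtain ⟨C, hC, hC2⟩ := LangB_enc (q ^ (a + 2)) (by positivity) a d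
      fun i hi => (hdlt i hi).trans_le hqB
    have h1' : ∀ i < a, C / (q ^ (a + 2)) ^ i % q ^ (a + 2) < q := by
      intro i hi
      rw [hC2 i hi]
      exact hdlt i hi
    refine ⟨j, hj, C, by rw [hX]; exact hC, fun i hi => ?_, fun u hu => ?_⟩
    · rw [hpwi i hi, hpwB]
      exact h1' i hi
    · rw [hpwB, LangB_value q a u C hq2 (by omega) hu hC h1']
      have h3 : ∑ i ∈ Finset.range a, (C / (q ^ (a + 2)) ^ i % q ^ (a + 2)) * u ^ i =
          ∑ i ∈ Finset.range a, d i * u ^ i :=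
        Finset.sum_congr rfl fun i hi => by rw [hC2 i (Finset.mem_range.mp hi)]
      rw [h3, ← hsum d f u hdf]
      have h4 := hf ⟨u, hu⟩ ⟨(∑ i : Fin a, (f i).val * u ^ (i : ℕ)) % q,
        Nat.mod_lt _ (by omega)⟩ rfl
      rw [LangB_getD] at h4
      exact h4

/-! ### The bound -/

lemma LangB_bound (c : ℕ) :
    BookPL.QB (fun n => qB c n ^ (aB c n * (aB c n + 2))) := by
  refine ⟨6 * c + 26, fun n => ?_⟩
  set l := Nat.log 2 n + 2 with hl
  have hl2 : 2 ≤ l := by omega
  have ha : aB c n ≤ l ^ (c + 4) := by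
    unfold aB
    rw [← hl, show c + 4 = (c + 1) + 3 by ring, pow_add l (c + 1) 3]
    have h1 : 2 ≤ l ^ (c + 1) := by
      calc 2 = 2 ^ 1 := rfl
        _ ≤ 2 ^ (c + 1) := Nat.pow_le_pow_right (by omega) (by omega)
        _ ≤ l ^ (c + 1) := Nat.pow_le_pow_left hl2 _
    have h2 : 8 ≤ l ^ 3 := by
      calc 8 = 2 ^ 3 := by norm_num
        _ ≤ l ^ 3 := Nat.pow_le_pow_left hl2 _
    nlinarith
  have hq : qB c n ≤ 2 ^ l ^ (4 * c + 17) := by
    calc qB c n ≤ 2 * aB c n ^ 4 := qB_le c n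
      _ ≤ l * (l ^ (c + 4)) ^ 4 := Nat.mul_le_mul hl2 (Nat.pow_le_pow_left ha 4)
      _ = l ^ (4 * c + 17) := by rw [← pow_mul]; ring
      _ ≤ 2 ^ l ^ (4 * c + 17) := Nat.lt_two_pow_self.le
  have he : aB c n * (aB c n + 2) ≤ l ^ (2 * c + 9) := by
    have h1 : aB c n + 2 ≤ l ^ (c + 5) := by
      rw [pow_succ]
      have h3 : 2 ≤ l ^ (c + 4) := by
        calc 2 = 2 ^ 1 := rfl
          _ ≤ 2 ^ (c + 4) := Nat.pow_le_pow_right (by omega) (by omega)
          _ ≤ l ^ (c + 4) := Nat.pow_le_pow_left hl2 _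
      nlinarith
    calc aB c n * (aB c n + 2) ≤ l ^ (c + 4) * l ^ (c + 5) := Nat.mul_le_mul ha h1
      _ = l ^ (2 * c + 9) := by rw [← pow_add]; congr 1; ring
  calc qB c n ^ (aB c n * (aB c n + 2)) ≤ (2 ^ l ^ (4 * c + 17)) ^ (aB c n * (aB c n + 2)) :=
        Nat.pow_le_pow_left hq _
    _ ≤ (2 ^ l ^ (4 * c + 17)) ^ l ^ (2 * c + 9) :=
        Nat.pow_le_pow_right (by positivity) he
    _ = 2 ^ l ^ (6 * c + 26) := by
        rw [← pow_mul, ← pow_add]
        congr 2
        ring

theorem inPL_LB (c : ℕ) : BookPL.InPL Bool (LB c) := by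
  classical
  set F : ℕ → List Bool → (ℕ → ℕ) → ℕ := fun j x e =>
    if j = 0 then (if LangB_pw c x (e 2) (aB c x.length * (aB c x.length + 2)) = 0 then 1 else 0)
    else if j = 1 then (if LangB_PP c x (e 2) then 1 else 0)
    else if j = 2 then e 2 + 1 else 0 with hF
  have hUF : ∀ j, UF (F j) := by
    intro j
    rcases j with _ | _ | _ | j
    · refine UF.congr (UP.eq (LangB_pwT c (UF.var 2)
        ((LangB_a c).mul ((LangB_a c).add (UF.const 2)))) (UF.const 0)) fun x e => ?_
      simp only [hF, if_true]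
      split_ifs <;> rfl
    · refine UF.congr (LangB_PPT c) fun x e => ?_
      simp only [hF]
      simp
    · refine UF.congr ((UF.var 2).add (UF.const 1)) fun x e => ?_
      simp only [hF]
      simp
    · refine UF.congr (UF.const 0) fun x e => ?_
      simp only [hF]
      simp
  refine BookPL.inPL_of_while 3 (by omega) F hUF (LB c)
    (fun n => qB c n ^ (aB c n * (aB c n + 2)) + 2)
    ((LangB_bound c).add (BookPL.QB.const 2)) fun x => ?_
  set X := qB c x.length ^ (aB c x.length * (aB c x.length + 2)) with hX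
  have hXpos : 0 < X := pow_pos (qB_prime c x.length).pos _
  have h2 : ∀ i, (BookPL.vstep 3 F x)^[i] BookPL.e₀ 2 = i := by
    intro i
    induction i with
    | zero => simp [BookPL.e₀]
    | succ i ih =>
      rw [Function.iterate_succ_apply']
      have h3 : BookPL.vstep 3 F x ((BookPL.vstep 3 F x)^[i] BookPL.e₀) 2 =
          F 2 x ((BookPL.vstep 3 F x)^[i] BookPL.e₀) := by
        unfold BookPL.vstep
        simp
      have h4 : ∀ e, F 2 x e = e 2 + 1 := by
        intro e
        simp only [hF]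
        simp
      rw [h3, h4, ih]
  have h0 : ∀ i, (BookPL.vstep 3 F x)^[i + 1] BookPL.e₀ 0 = if X ≤ i then 0 else 1 := by
    intro i
    rw [Function.iterate_succ_apply']
    have h3 : BookPL.vstep 3 F x ((BookPL.vstep 3 F x)^[i] BookPL.e₀) 0 =
        F 0 x ((BookPL.vstep 3 F x)^[i] BookPL.e₀) := by
      unfold BookPL.vstep
      simp
    rw [h3]
    simp only [hF, if_true]
    rw [← hF, h2 i]
    unfold LangB_pw
    rw [← hX]
    by_cases h : X ≤ i
    · rw [if_pos h, if_pos h, if_neg hXpos.ne']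
    · rw [if_neg h, if_neg h, if_pos rfl]
  have h1 : ∀ i, (BookPL.vstep 3 F x)^[i + 1] BookPL.e₀ 1 = if LangB_PP c x i then 1 else 0 := by
    intro i
    rw [Function.iterate_succ_apply']
    have h3 : BookPL.vstep 3 F x ((BookPL.vstep 3 F x)^[i] BookPL.e₀) 1 =
        F 1 x ((BookPL.vstep 3 F x)^[i] BookPL.e₀) := by
      unfold BookPL.vstep
      simp
    rw [h3]
    have h4 : ∀ e, F 1 x e = if LangB_PP c x (e 2) then 1 else 0 := by
      intro e
      simp only [hF]
      simp
    rw [h4, h2 i]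
  refine ⟨X + 1, (by show X + 1 ≤ X + 2; omega), fun i hi => ?_, ?_, fun i hi j => ?_, ?_⟩
  · cases i with
    | zero => simp [BookPL.e₀]
    | succ i =>
      rw [h0, if_neg (by omega)]
      exact one_ne_zero
  · rw [h0, if_pos le_rfl]
  · show (BookPL.vstep 3 F x)^[i] BookPL.e₀ j ≤ X + 2
    cases i with
    | zero =>
      simp only [Function.iterate_zero, id_eq, BookPL.e₀]
      split_ifs
      · omega
      · omega
    | succ i =>
      rcases j with _ | _ | _ | j
      · rw [h0]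
        split_ifs <;> omega
      · rw [zero_add, h1]
        split_ifs <;> omega
      · have h3 := h2 (i + 1)
        rw [show (0 + 1 + 1 : ℕ) = 2 by rfl, h3]
        omega
      · rw [Function.iterate_succ_apply']
        unfold BookPL.vstep
        rw [if_neg (by omega)]
        omega
  · rw [h1, ← LangB_iff]
    split_ifs with h
    · exact ⟨fun _ => one_ne_zero, fun _ => h⟩
    · exact ⟨fun h3 => absurd h3 h, fun h3 => absurd rfl h3⟩

end Pool.Agent.FewNeg
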