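import Mathlib
import Pool.Agent.FewNeg.TBDefs
import Pool.Agent.FewNeg.LangB

/-!
# The language of the words with a block accepted by Andreev's function, for blocks of many sizes,
is in POLYLOGSPACE
-/

set_option autoImplicit false

namespace Pool.Agent.FewNeg

open Pool.Agent.PT

/-- the encoding of the coefficients by one number -/
private lemma TB_core (q a o : ℕ) (hq : 2 ≤ q) (ha : 1 ≤ a) (x : List Bool) :
    (∃ C, C < q ^ (a * (a + 2)) ∧ (∀ s, s < a → C / q ^ ((a + 2) * s) % q ^ (a + 2) < q) ∧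
      ∀ u, u < q → x[o + (u * q + (C % (q ^ (a + 2) - u)) % q)]? = some true) ↔
    andrF q a (fun p => x.getD (o + posB q p) false) = true := by
  have hX : q ^ (a * (a + 2)) = (q ^ (a + 2)) ^ a := by rw [← pow_mul, mul_comm]
  have hsum : ∀ (d : ℕ → ℕ) (f : Fin a → Fin q) (u : ℕ), (∀ i : Fin a, (f i).val = d i) →
      ∑ i : Fin a, (f i).val * u ^ (i : ℕ) = ∑ i ∈ Finset.range a, d i * u ^ i := by
    intro d f u h
    rw [Finset.sum_range]
    exact Finset.sum_congr rfl fun i _ => by rw [h i]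
  rw [andrF_eq_true]
  constructor
  · rintro ⟨C, hC, h1, h2⟩
    rw [hX] at hC
    have h1' : ∀ i < a, C / (q ^ (a + 2)) ^ i % q ^ (a + 2) < q := by
      intro i hi
      have h3 := h1 i hi
      rwa [pow_mul] at h3
    refine ⟨fun i => ⟨C / (q ^ (a + 2)) ^ (i : ℕ) % q ^ (a + 2), h1' i i.2⟩, fun u v huv => ?_⟩
    rw [LangB_getD]
    have h3 := h2 u.val u.2
    rw [LangB_value q a u.val C hq ha u.2 hC h1'] at h3
    rw [hsum (fun i => C / (q ^ (a + 2)) ^ i % q ^ (a + 2)) _ u.val fun i => rfl] at huv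
    unfold posB
    simp only
    rw [huv]
    exact h3
  · rintro ⟨f, hf⟩
    set d : ℕ → ℕ := fun i => if hi : i < a then (f ⟨i, hi⟩).val else 0 with hd
    have hdlt : ∀ i < a, d i < q := by
      intro i hi
      rw [hd]
      simp only [dif_pos hi]
      exact (f ⟨i, hi⟩).2
    have hdf : ∀ i : Fin a, (f i).val = d i := by
      intro i
      rw [hd]
      simp only [dif_pos i.2]
    have hqB : q ≤ q ^ (a + 2) := by
      calc q = q ^ 1 := (pow_one q).symm
        _ ≤ q ^ (a + 2) := Nat.pow_le_pow_right (by omega) (by omega)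
    obtain ⟨C, hC, hC2⟩ := LangB_enc (q ^ (a + 2)) (by positivity) a d
      fun i hi => (hdlt i hi).trans_le hqB
    have h1' : ∀ i < a, C / (q ^ (a + 2)) ^ i % q ^ (a + 2) < q := by
      intro i hi
      rw [hC2 i hi]
      exact hdlt i hi
    refine ⟨C, by rw [hX]; exact hC, fun i hi => ?_, fun u hu => ?_⟩
    · rw [pow_mul]
      exact h1' i hi
    · rw [LangB_value q a u C hq ha hu hC h1']
      have h3 : ∑ i ∈ Finset.range a, (C / (q ^ (a + 2)) ^ i % q ^ (a + 2)) * u ^ i =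
          ∑ i ∈ Finset.range a, d i * u ^ i :=
        Finset.sum_congr rfl fun i hi => by rw [hC2 i (Finset.mem_range.mp hi)]
      rw [h3, ← hsum d f u hdf]
      have h4 := hf ⟨u, hu⟩ ⟨(∑ i : Fin a, (f i).val * u ^ (i : ℕ)) % q,
        Nat.mod_lt _ (by omega)⟩ rfl
      rw [LangB_getD] at h4
      exact h4

/-! ### The terms -/

/-- the least prime greater than the fourth power -/
private def TB_Q (A : ℕ) : ℕ := Nat.find (Nat.exists_infinite_primes (A ^ 4 + 1))

private lemma TB_Q_prime (A : ℕ) : (TB_Q A).Prime :=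
  (Nat.find_spec (Nat.exists_infinite_primes (A ^ 4 + 1))).2

private lemma TB_Q_lt (A : ℕ) : A ^ 4 < TB_Q A :=
  (Nat.find_spec (Nat.exists_infinite_primes (A ^ 4 + 1))).1

private lemma TB_Q_le (A : ℕ) (hA : 1 ≤ A) : TB_Q A ≤ 2 * A ^ 4 := by
  have h0 : A ^ 4 ≠ 0 := by positivity
  obtain ⟨p, hp, h1, h2⟩ := Nat.exists_prime_lt_and_le_two_mul _ h0
  exact (Nat.find_min' _ ⟨h1, hp⟩).trans h2

open Classical in
private lemma TB_Q_sum (A : ℕ) (hA : 1 ≤ A) : (∑ y ∈ Finset.range (2 * A ^ 4 + 1),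
    if ∀ z, z < y + 1 → ¬ (A ^ 4 < z ∧ z.Prime) then 1 else 0) = TB_Q A := by
  rw [Finset.sum_boole]
  simp only [Nat.cast_id]
  have h1 : (Finset.range (2 * A ^ 4 + 1)).filter
      (fun y => ∀ z, z < y + 1 → ¬ (A ^ 4 < z ∧ z.Prime)) = Finset.range (TB_Q A) := by
    ext y
    rw [Finset.mem_filter, Finset.mem_range, Finset.mem_range]
    have h2 := TB_Q_le A hA
    constructor
    · rintro ⟨-, h⟩
      by_contra hcon
      exact h (TB_Q A) (by omega) ⟨TB_Q_lt A, TB_Q_prime A⟩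
    · intro h
      refine ⟨by omega, fun z hz hz2 => ?_⟩
      have h3 : TB_Q A ≤ z :=
        Nat.find_min' (Nat.exists_infinite_primes (A ^ 4 + 1)) ⟨hz2.1, hz2.2⟩
      omega
  rw [h1, Finset.card_range]

private lemma TB_QT {f : List Bool → (ℕ → ℕ) → ℕ} (hf : UF f) (h1 : ∀ x e, 1 ≤ f x e) :
    UF (fun x e => TB_Q (f x e)) := by
  classical
  refine UF.congr (UF.sum (b := fun x e => 2 * f x e ^ 4 + 1)
    (f := fun x e y => if ∀ z, z < y + 1 → ¬ (f x e ^ 4 < z ∧ z.Prime) then 1 else 0)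
    (((UF.const 2).mul (hf.pow 4)).add (UF.const 1)) ?_) fun x e => ?_
  · have h : UP (Γ := Bool) (fun x e => ∀ z, z < e 0 + 1 →
        ¬ (f x (fun i => e (i + 1)) ^ 4 < z ∧ z.Prime)) := by
      refine UP.ball (P := fun x e z => ¬ (f x (fun i => e (i + 1)) ^ 4 < z ∧ z.Prime))
        ((UF.var 0).add (UF.const 1)) ?_
      exact ((UP.lt ((UF.ren (fun i => i + 1) (UF.ren (fun i => i + 1) hf)).pow 4)
        (UF.var 0)).and (LangB_prime (UF.var 0))).not
    exact UF.congr h fun x e => by congr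
  · refine Eq.trans ?_ (TB_Q_sum (f x e) (h1 x e))
    refine Finset.sum_congr rfl fun y _ => ?_
    congr

/-- the bounded powers of `2` -/
private def TB_p (N i : ℕ) : ℕ := if 2 ^ i ≤ N then 2 ^ i else 0

/-- the degree parameter -/
private def TB_a (N i : ℕ) : ℕ := TB_p N i + 5

/-- the prime -/
private def TB_q (N i : ℕ) : ℕ := TB_Q (TB_a N i)

/-- the bounded powers of the prime -/
private def TB_pw (N i g : ℕ) : ℕ := if TB_q N i ^ g ≤ N then TB_q N i ^ g else 0

private lemma TB_pT {N i : List Bool → (ℕ → ℕ) → ℕ} (hN : UF N) (hi : UF i) :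
    UF (fun x e => TB_p (N x e) (i x e)) :=
  UF.powP (UF.const 2) hi hN fun _ _ => Nat.prime_two

private lemma TB_aT {N i : List Bool → (ℕ → ℕ) → ℕ} (hN : UF N) (hi : UF i) :
    UF (fun x e => TB_a (N x e) (i x e)) := (TB_pT hN hi).add (UF.const 5)

private lemma TB_qT {N i : List Bool → (ℕ → ℕ) → ℕ} (hN : UF N) (hi : UF i) :
    UF (fun x e => TB_q (N x e) (i x e)) :=
  TB_QT (TB_aT hN hi) fun x e => by unfold TB_a; omega

private lemma TB_pwT {N i g : List Bool → (ℕ → ℕ) → ℕ} (hN : UF N) (hi : UF i) (hg : UF g) :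
    UF (fun x e => TB_pw (N x e) (i x e) (g x e)) :=
  UF.powP (TB_qT hN hi) hg hN fun _ _ => TB_Q_prime _

private lemma TB_sT (c : ℕ) : UF (Γ := Bool) (fun x _ => sT c x.length) :=
  ((UF.const (c + 1)).mul ((BookPL.UF.log2 (BookPL.UF.log2 UF.len)).add (UF.const 2))).add
    (UF.const 1)

/-- the test of one block with one polynomial -/
private def TB_PE (c : ℕ) (x : List Bool) (N i j C : ℕ) : Prop :=
  (∀ s, s < TB_a N i → C / TB_pw N i ((TB_a N i + 2) * s) % TB_pw N i (TB_a N i + 2) < TB_q N i) ∧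
  ∀ u, u < TB_q N i → x[i * (x.length / sT c x.length) + j * TB_q N i ^ 2 + (u * TB_q N i +
    (C % (TB_pw N i (TB_a N i + 2) - u)) % TB_q N i)]? = some true

private lemma TB_PET (c : ℕ) {N i j C : List Bool → (ℕ → ℕ) → ℕ} (hN : UF N) (hi : UF i)
    (hj : UF j) (hC : UF C) : UP (fun x e => TB_PE c x (N x e) (i x e) (j x e) (C x e)) := by
  have hN' := UF.ren (fun k => k + 1) hN
  have hi' := UF.ren (fun k => k + 1) hi
  have hj' := UF.ren (fun k => k + 1) hj
  have hC' := UF.ren (fun k => k + 1) hC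
  refine UP.and ?_ ?_
  · refine UP.ball (P := fun x e s => C x e / TB_pw (N x e) (i x e) ((TB_a (N x e) (i x e) + 2) *
      s) % TB_pw (N x e) (i x e) (TB_a (N x e) (i x e) + 2) < TB_q (N x e) (i x e))
      (TB_aT hN hi) ?_
    exact UP.lt ((hC'.div (TB_pwT hN' hi' (((TB_aT hN' hi').add (UF.const 2)).mul
      (UF.var 0)))).mod (TB_pwT hN' hi' ((TB_aT hN' hi').add (UF.const 2)))) (TB_qT hN' hi')
  · refine UP.ball (P := fun x e u => x[i x e * (x.length / sT c x.length) + j x e *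
      TB_q (N x e) (i x e) ^ 2 + (u * TB_q (N x e) (i x e) + (C x e %
        (TB_pw (N x e) (i x e) (TB_a (N x e) (i x e) + 2) - u)) % TB_q (N x e) (i x e))]? =
          some true) (TB_qT hN hi) ?_
    exact UP.sym true (((hi'.mul (UF.len.div (TB_sT c))).add (hj'.mul
      ((TB_qT hN' hi').pow 2))).add (((UF.var 0).mul (TB_qT hN' hi')).add ((hC'.mod
        ((TB_pwT hN' hi' ((TB_aT hN' hi').add (UF.const 2))).sub (UF.var 0))).mod
          (TB_qT hN' hi'))))

/-- the test of all blocks -/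
private def TB_PP (c : ℕ) (x : List Bool) (N : ℕ) : Prop :=
  ∃ i, i < sT c x.length ∧ ∃ j, j < x.length / sT c x.length / TB_q N i ^ 2 ∧
    ∃ C, C < TB_pw N i (TB_a N i * (TB_a N i + 2)) ∧ TB_PE c x N i j C

private lemma TB_PPT (c : ℕ) : UP (fun x e => TB_PP c x (e 2)) := by
  refine UP.bex (P := fun x e i => ∃ j, j < x.length / sT c x.length / TB_q (e 2) i ^ 2 ∧
    ∃ C, C < TB_pw (e 2) i (TB_a (e 2) i * (TB_a (e 2) i + 2)) ∧ TB_PE c x (e 2) i j C)
    (TB_sT c) ?_
  refine UP.bex (P := fun x e j => ∃ C, C < TB_pw (e 3) (e 0) (TB_a (e 3) (e 0) *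
    (TB_a (e 3) (e 0) + 2)) ∧ TB_PE c x (e 3) (e 0) j C)
    ((UF.len.div (TB_sT c)).div ((TB_qT (UF.var 3) (UF.var 0)).pow 2)) ?_
  refine UP.bex (P := fun x e C => TB_PE c x (e 4) (e 1) (e 0) C)
    (TB_pwT (UF.var 4) (UF.var 1) ((TB_aT (UF.var 4) (UF.var 1)).mul
      ((TB_aT (UF.var 4) (UF.var 1)).add (UF.const 2)))) ?_
  exact TB_PET c (UF.var 5) (UF.var 2) (UF.var 1) (UF.var 0)

/-- the bound is large enough -/
private def TB_T (c : ℕ) (x : List Bool) (N : ℕ) : Prop :=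
  ∀ i, i < sT c x.length → TB_p N i ≠ 0 ∧ TB_pw N i (TB_a N i * (TB_a N i + 2)) ≠ 0

private lemma TB_TT (c : ℕ) : UP (fun x e => TB_T c x (e 2)) := by
  refine UP.ball (P := fun x e i => TB_p (e 2) i ≠ 0 ∧ TB_pw (e 2) i (TB_a (e 2) i *
    (TB_a (e 2) i + 2)) ≠ 0) (TB_sT c) ?_
  exact (UP.ne (TB_pT (UF.var 3) (UF.var 0)) (UF.const 0)).and
    (UP.ne (TB_pwT (UF.var 3) (UF.var 0) ((TB_aT (UF.var 3) (UF.var 0)).mul
      ((TB_aT (UF.var 3) (UF.var 0)).add (UF.const 2)))) (UF.const 0))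

private lemma TB_T_iff (c : ℕ) (x : List Bool) (N : ℕ) : TB_T c x N ↔
    ∀ i, i < sT c x.length → 2 ^ i ≤ N ∧ qT i ^ (aT i * (aT i + 2)) ≤ N := by
  have hq : ∀ i, (qT i).Prime := fun i => qT_prime i
  constructor
  · intro h i hi
    obtain ⟨h1, h2⟩ := h i hi
    have h3 : 2 ^ i ≤ N := by
      by_contra hcon
      exact h1 (if_neg hcon)
    have h4 : TB_a N i = aT i := by
      unfold TB_a TB_p aT
      rw [if_pos h3]
    have h5 : TB_q N i = qT i := by
      unfold TB_q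
      rw [h4]
      rfl
    refine ⟨h3, ?_⟩
    by_contra hcon
    apply h2
    unfold TB_pw
    rw [h4, h5]
    exact if_neg hcon
  · intro h i hi
    obtain ⟨h3, h2⟩ := h i hi
    have h4 : TB_a N i = aT i := by
      unfold TB_a TB_p aT
      rw [if_pos h3]
    have h5 : TB_q N i = qT i := by
      unfold TB_q
      rw [h4]
      rfl
    refine ⟨?_, ?_⟩
    · unfold TB_p
      rw [if_pos h3]
      positivity
    · unfold TB_pw
      rw [h4, h5, if_pos h2]
      exact pow_ne_zero _ (hq i).ne_zero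

private lemma TB_iff (c : ℕ) (x : List Bool) (N : ℕ) (hN : TB_T c x N) :
    TB_PP c x N ↔ x ∈ LTB c := by
  rw [TB_T_iff] at hN
  unfold LTB
  rw [MS_iff x rfl]
  unfold TB_PP
  refine exists_congr fun i => and_congr_right fun hi => ?_
  obtain ⟨h3, h2⟩ := hN i hi
  have h4 : TB_a N i = aT i := by
    unfold TB_a TB_p aT
    rw [if_pos h3]
  have h5 : TB_q N i = qT i := by
    unfold TB_q
    rw [h4]
    rfl
  have ha : 5 ≤ aT i := Nat.le_add_left 5 _
  have hq2 : 2 ≤ qT i := (qT_prime i).two_le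
  have hpw : ∀ g, g ≤ aT i * (aT i + 2) → TB_pw N i g = qT i ^ g := by
    intro g hg
    unfold TB_pw
    rw [h5, if_pos ((Nat.pow_le_pow_right (by omega) hg).trans h2)]
  rw [h4, h5]
  refine exists_congr fun j => and_congr_right fun hj => ?_
  have h6 := TB_core (qT i) (aT i) (i * (x.length / sT c x.length) + j * qT i ^ 2) hq2
    (by omega) x
  unfold GB
  simp only
  rw [← h6, hpw _ le_rfl]
  refine exists_congr fun C => and_congr_right fun hC => ?_
  unfold TB_PE
  rw [h4, h5, hpw (aT i + 2) (Nat.le_mul_of_pos_left _ (by omega))]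
  refine and_congr ?_ Iff.rfl
  refine forall_congr' fun s => ?_
  constructor
  · intro h hs
    have h7 := h hs
    rwa [hpw _ (by rw [mul_comm]; exact Nat.mul_le_mul_right _ hs.le)] at h7
  · intro h hs
    rw [hpw _ (by rw [mul_comm]; exact Nat.mul_le_mul_right _ hs.le)]
    exact h hs

/-! ### The bound -/

private lemma TB_bound (c : ℕ) (x : List Bool) :
    TB_T c x (2 ^ ((Nat.log 2 x.length + 2) ^ (18 * c + 38))) := by
  rw [TB_T_iff]
  intro i hi
  set n := x.length with hn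
  set l := Nat.log 2 n + 2 with hl
  have hl2 : 2 ≤ l := by omega
  have h0 : 2 ^ Nat.log 2 (Nat.log 2 n) ≤ l := by
    rcases Nat.eq_zero_or_pos (Nat.log 2 n) with h | h
    · rw [h]
      simp
      omega
    · exact (Nat.pow_log_le_self 2 h.ne').trans (by omega)
  have h2i : 2 ^ i ≤ l ^ (3 * c + 3) := by
    have hi' : i ≤ (Nat.log 2 (Nat.log 2 n) + 2) * (c + 1) := by
      unfold sT at hi
      rw [mul_comm]
      omega
    calc 2 ^ i ≤ 2 ^ ((Nat.log 2 (Nat.log 2 n) + 2) * (c + 1)) :=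
          Nat.pow_le_pow_right (by omega) hi'
      _ = (2 ^ Nat.log 2 (Nat.log 2 n) * 2 ^ 2) ^ (c + 1) := by
          rw [pow_mul, pow_add 2 (Nat.log 2 (Nat.log 2 n)) 2]
      _ ≤ (l * l ^ 2) ^ (c + 1) :=
          Nat.pow_le_pow_left (Nat.mul_le_mul h0 (Nat.pow_le_pow_left hl2 2)) _
      _ = l ^ (3 * c + 3) := by
          rw [← pow_succ', ← pow_mul]
          congr 1
  have ha : aT i ≤ l ^ (3 * c + 6) := by
    unfold aT
    rw [show 3 * c + 6 = (3 * c + 3) + 3 by ring, pow_add l (3 * c + 3) 3]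
    have h1 : 1 ≤ l ^ (3 * c + 3) := Nat.one_le_pow _ _ (by omega)
    have h2 : 8 ≤ l ^ 3 := by
      calc 8 = 2 ^ 3 := by norm_num
        _ ≤ l ^ 3 := Nat.pow_le_pow_left hl2 _
    nlinarith
  have hq : qT i ≤ 2 ^ l ^ (12 * c + 25) := by
    calc qT i ≤ 2 * aT i ^ 4 := qT_le i
      _ ≤ l * (l ^ (3 * c + 6)) ^ 4 := Nat.mul_le_mul hl2 (Nat.pow_le_pow_left ha 4)
      _ = l ^ (12 * c + 25) := by rw [← pow_mul]; ring
      _ ≤ 2 ^ l ^ (12 * c + 25) := Nat.lt_two_pow_self.le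
  have he : aT i * (aT i + 2) ≤ l ^ (6 * c + 13) := by
    have h1 : aT i + 2 ≤ l ^ (3 * c + 7) := by
      rw [pow_succ]
      have h3 : 2 ≤ l ^ (3 * c + 6) := by
        calc 2 = 2 ^ 1 := rfl
          _ ≤ 2 ^ (3 * c + 6) := Nat.pow_le_pow_right (by omega) (by omega)
          _ ≤ l ^ (3 * c + 6) := Nat.pow_le_pow_left hl2 _
      nlinarith
    calc aT i * (aT i + 2) ≤ l ^ (3 * c + 6) * l ^ (3 * c + 7) := Nat.mul_le_mul ha h1
      _ = l ^ (6 * c + 13) := by rw [← pow_add]; congr 1; ring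
  have hX : qT i ^ (aT i * (aT i + 2)) ≤ 2 ^ l ^ (18 * c + 38) := by
    calc qT i ^ (aT i * (aT i + 2)) ≤ (2 ^ l ^ (12 * c + 25)) ^ (aT i * (aT i + 2)) :=
          Nat.pow_le_pow_left hq _
      _ ≤ (2 ^ l ^ (12 * c + 25)) ^ l ^ (6 * c + 13) :=
          Nat.pow_le_pow_right (by positivity) he
      _ = 2 ^ l ^ (18 * c + 38) := by
          rw [← pow_mul, ← pow_add]
          congr 2
          ring
  refine ⟨?_, hX⟩
  refine le_trans ?_ hX
  have hap : 0 < aT i := Nat.succ_pos _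
  calc 2 ^ i ≤ aT i := Nat.le_add_right _ _
    _ = aT i ^ 1 := (pow_one _).symm
    _ ≤ aT i ^ 4 := Nat.pow_le_pow_right hap (by omega)
    _ ≤ qT i := (lt_qT i).le
    _ = qT i ^ 1 := (pow_one _).symm
    _ ≤ qT i ^ (aT i * (aT i + 2)) :=
        Nat.pow_le_pow_right (qT_prime i).pos (Nat.mul_pos hap (by omega))

theorem inPL_LTB (c : ℕ) : BookPL.InPL Bool (LTB c) := by
  classical
  set F : ℕ → List Bool → (ℕ → ℕ) → ℕ := fun j x e =>
    if j = 0 then (if ¬ TB_T c x (e 2) then 1 else 0)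
    else if j = 1 then (if TB_PP c x (e 2) then 1 else 0)
    else if j = 2 then e 2 + 1 else 0 with hF
  have hF0 : ∀ x e, F 0 x e = if ¬ TB_T c x (e 2) then 1 else 0 := fun x e => rfl
  have hF1 : ∀ x e, F 1 x e = if TB_PP c x (e 2) then 1 else 0 := fun x e => rfl
  have hF2 : ∀ x e, F 2 x e = e 2 + 1 := fun x e => rfl
  have hF3 : ∀ j x e, F (j + 3) x e = 0 := fun j x e => rfl
  have hUF : ∀ j, UF (F j) := by
    intro j
    rcases j with _ | _ | _ | j
    · refine UF.congr (TB_TT c).not fun x e => ?_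
      rw [hF0]
      split_ifs <;> rfl
    · refine UF.congr (TB_PPT c) fun x e => ?_
      rw [zero_add, hF1]
    · exact UF.congr ((UF.var 2).add (UF.const 1)) fun x e => (hF2 x e).symm
    · exact UF.congr (UF.const 0) fun x e => (hF3 j x e).symm
  refine BookPL.inPL_of_while 3 (by omega) F hUF (LTB c)
    (fun n => 2 ^ ((Nat.log 2 n + 2) ^ (18 * c + 38)) + 2)
    ((BookPL.QB.two_pow (18 * c + 38)).add (BookPL.QB.const 2)) fun x => ?_
  have hex : ∃ N, TB_T c x N := ⟨_, TB_bound c x⟩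
  set X := Nat.find hex with hX
  have hXT : TB_T c x X := Nat.find_spec hex
  have hXle : X ≤ 2 ^ ((Nat.log 2 x.length + 2) ^ (18 * c + 38)) :=
    Nat.find_min' hex (TB_bound c x)
  have h2 : ∀ i, (BookPL.vstep 3 F x)^[i] BookPL.e₀ 2 = i := by
    intro i
    induction i with
    | zero => rfl
    | succ i ih =>
      rw [Function.iterate_succ_apply']
      have h3 : BookPL.vstep 3 F x ((BookPL.vstep 3 F x)^[i] BookPL.e₀) 2 =
          F 2 x ((BookPL.vstep 3 F x)^[i] BookPL.e₀) := rfl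
      rw [h3, hF2, ih]
  have h0 : ∀ i, (BookPL.vstep 3 F x)^[i + 1] BookPL.e₀ 0 = if ¬ TB_T c x i then 1 else 0 := by
    intro i
    rw [Function.iterate_succ_apply']
    have h3 : BookPL.vstep 3 F x ((BookPL.vstep 3 F x)^[i] BookPL.e₀) 0 =
        F 0 x ((BookPL.vstep 3 F x)^[i] BookPL.e₀) := rfl
    rw [h3, hF0, h2 i]
  have h1 : ∀ i, (BookPL.vstep 3 F x)^[i + 1] BookPL.e₀ 1 = if TB_PP c x i then 1 else 0 := by
    intro i
    rw [Function.iterate_succ_apply']
    have h3 : BookPL.vstep 3 F x ((BookPL.vstep 3 F x)^[i] BookPL.e₀) 1 =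
        F 1 x ((BookPL.vstep 3 F x)^[i] BookPL.e₀) := rfl
    rw [h3, hF1, h2 i]
  refine ⟨X + 1, (by show X + 1 ≤ _ + 2; omega), fun i hi => ?_, ?_, fun i hi j => ?_, ?_⟩
  · cases i with
    | zero => exact one_ne_zero
    | succ i =>
      rw [h0, if_pos (Nat.find_min hex (by omega))]
      exact one_ne_zero
  · rw [h0, if_neg (not_not.mpr hXT)]
  · show (BookPL.vstep 3 F x)^[i] BookPL.e₀ j ≤ _ + 2
    cases i with
    | zero =>
      simp only [Function.iterate_zero, id_eq, BookPL.e₀]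
      split_ifs
      · omega
      · omega
    | succ i =>
      rcases j with _ | _ | _ | j
      · rw [h0]
        split_ifs <;> omega
      · rw [zero_add, h1]
        split_ifs <;> omega
      · have h3 := h2 (i + 1)
        rw [show (0 + 1 + 1 : ℕ) = 2 by rfl, h3]
        omega
      · rw [Function.iterate_succ_apply']
        unfold BookPL.vstep
        rw [if_neg (by omega)]
        omega
  · rw [h1, ← TB_iff c x X hXT]
    split_ifs with h
    · exact ⟨fun _ => one_ne_zero, fun _ => h⟩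
    · exact ⟨fun h3 => absurd h3 h, fun h3 => absurd rfl h3⟩

end Pool.Agent.FewNeg
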