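import Mathlib
import Pool.Agent.FewNeg.LevX

/-!
# The values of the NOT gates change rarely along chains of inputs
-/

set_option autoImplicit false

namespace Pool.Agent.FewNeg

variable {κ : Type}

/-- the number of NOT gates on the level `i` -/
def cap (ns : List (BF κ × ℕ)) (i : ℕ) : ℕ := ns.countP (fun k => decide (k.2 = i))

/-- the number of NOT gates on the level `i` whose input has the value `true` -/
def cnt (ns : List (BF κ × ℕ)) (i : ℕ) (z : κ → Bool) : ℕ :=
  ns.countP (fun k => decide (k.2 = i) && k.1 z)

/-- the potential -/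
def rho (ns : List (BF κ × ℕ)) : ℕ → (κ → Bool) → ℕ
  | 0, _ => 0
  | i + 1, z => rho ns i z * (cap ns i + 1) + cnt ns i z

theorem cnt_le (ns : List (BF κ × ℕ)) (i : ℕ) (z : κ → Bool) : cnt ns i z ≤ cap ns i := by
  unfold cnt cap
  refine List.countP_mono_left fun k _ h => ?_
  simp only [Bool.and_eq_true] at h
  exact h.1

theorem rho_lt (ns : List (BF κ × ℕ)) (z : κ → Bool) : ∀ R,
    rho ns R z + 1 ≤ ∏ i ∈ Finset.range R, (cap ns i + 1) := by
  intro R
  induction R with
  | zero => simp [rho]
  | succ R ih =>
    rw [Finset.prod_range_succ, rho]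
    have h1 := cnt_le ns R z
    calc rho ns R z * (cap ns R + 1) + cnt ns R z + 1 ≤
          (rho ns R z + 1) * (cap ns R + 1) := by nlinarith
      _ ≤ _ := Nat.mul_le_mul_right _ ih

theorem countP_le_of {α : Type} {a b : α → Bool} : ∀ {l : List α},
    (∀ x ∈ l, a x = true → b x = true) →
    l.countP a ≤ l.countP b ∧ (l.countP a = l.countP b → ∀ x ∈ l, a x = b x) := by
  intro l
  induction l with
  | nil => simp
  | cons x l ih =>
    intro h
    obtain ⟨h1, h2⟩ := ih (fun y hy => h y (List.mem_cons_of_mem _ hy))
    have h3 := h x List.mem_cons_self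
    rw [List.countP_cons, List.countP_cons]
    rcases ha : a x with _ | _ <;> rcases hb : b x with _ | _
    · simp only [Bool.false_eq_true, if_false, Nat.add_zero]
      refine ⟨h1, fun h4 y hy => ?_⟩
      rcases List.mem_cons.1 hy with rfl | hy
      · rw [ha, hb]
      · exact h2 h4 y hy
    · simp only [Bool.false_eq_true, if_false, if_true, Nat.add_zero]
      exact ⟨by omega, fun h4 => by omega⟩
    · rw [h3 ha] at hb
      exact Bool.noConfusion hb
    · simp only [if_true]
      refine ⟨by omega, fun h4 y hy => ?_⟩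
      rcases List.mem_cons.1 hy with rfl | hy
      · rw [ha, hb]
      · exact h2 (by omega) y hy

/-- Either all NOT gates keep their values, or the potential grows. -/
theorem rho_step {ns : List (BF κ × ℕ)}
    (hmon : ∀ k ∈ ns, ∀ z z' : κ → Bool, z ≤ z' →
      (∀ k' ∈ ns, k'.2 < k.2 → k'.1 z = k'.1 z') → k.1 z ≤ k.1 z')
    {z z' : κ → Bool} (hz : z ≤ z') : ∀ R,
    ((∀ k ∈ ns, k.2 < R → k.1 z = k.1 z') ∧ rho ns R z = rho ns R z') ∨
      rho ns R z < rho ns R z' := by
  intro R
  induction R with
  | zero => exact Or.inl ⟨fun k _ h => absurd h (Nat.not_lt_zero _), rfl⟩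
  | succ R ih =>
    rw [rho, rho]
    rcases ih with ⟨h1, h2⟩ | h1
    · have h3 : ∀ k ∈ ns, (decide (k.2 = R) && k.1 z) = true →
          (decide (k.2 = R) && k.1 z') = true := by
        intro k hk h4
        rw [Bool.and_eq_true] at h4 ⊢
        refine ⟨h4.1, ?_⟩
        have h5 := hmon k hk z z' hz (fun k' hk' h6 => h1 k' hk' (by
          have := of_decide_eq_true h4.1
          omega))
        rw [h4.2] at h5
        exact Bool.eq_true_of_true_le h5
      obtain ⟨h4, h5⟩ := countP_le_of h3
      rw [h2]
      rcases Nat.lt_or_ge (cnt ns R z) (cnt ns R z') with h6 | h6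
      · right
        omega
      · left
        have h7 : cnt ns R z = cnt ns R z' := le_antisymm h4 h6
        refine ⟨fun k hk hkR => ?_, by rw [h7]⟩
        rcases Nat.lt_succ_iff_lt_or_eq.1 hkR with h8 | h8
        · exact h1 k hk h8
        · have h9 := h5 h7 k hk
          simpa [h8] using h9
    · right
      have h3 := cnt_le ns R z
      calc rho ns R z * (cap ns R + 1) + cnt ns R z < (rho ns R z + 1) * (cap ns R + 1) := by
            nlinarith
        _ ≤ rho ns R z' * (cap ns R + 1) := Nat.mul_le_mul_right _ h1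
        _ ≤ _ := Nat.le_add_right _ _

theorem levelProd_eq (ns : List (BF κ × ℕ)) {R : ℕ} (hR : ∀ k ∈ ns, k.2 < R) :
    ∏ i ∈ Finset.range R, (cap ns i + 1) = levelProd (ns.map Prod.snd) := by
  unfold levelProd
  have h1 : ∀ i, (ns.map Prod.snd).count i = cap ns i := by
    intro i
    unfold cap List.count
    rw [List.countP_map]
    refine List.countP_congr fun k _ => ?_
    simp
  symm
  calc ∏ i ∈ (ns.map Prod.snd).toFinset, ((ns.map Prod.snd).count i + 1) =
      ∏ i ∈ (ns.map Prod.snd).toFinset, (cap ns i + 1) :=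
        Finset.prod_congr rfl fun i _ => by rw [h1]
    _ = _ := by
      refine Finset.prod_subset ?_ ?_
      · intro i hi
        rw [List.mem_toFinset, List.mem_map] at hi
        obtain ⟨k, hk, rfl⟩ := hi
        exact Finset.mem_range.2 (hR k hk)
      · intro i _ hi
        rw [List.mem_toFinset] at hi
        rw [← h1, List.count_eq_zero_of_not_mem hi, zero_add]

theorem length_lt_levelProd (N : List ℕ) : N.length + 1 ≤ levelProd N := by
  have h1 : ∑ i ∈ N.toFinset, N.count i = N.length := by
    have h2 := Multiset.toFinset_sum_count_eq (N : Multiset ℕ)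
    simpa using h2
  unfold levelProd
  rw [← h1]
  have key : ∀ s : Finset ℕ, ∑ i ∈ s, N.count i + 1 ≤ ∏ i ∈ s, (N.count i + 1) := by
    intro s
    induction s using Finset.induction_on with
    | empty => simp
    | insert a s ha ih =>
      rw [Finset.sum_insert ha, Finset.prod_insert ha]
      nlinarith [Nat.zero_le (N.count a * ∑ i ∈ s, N.count i)]
  exact key _

end Pool.Agent.FewNeg
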