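import Mathlib
import Pool.Agent.FewNeg.LevPot

/-!
# Elimination of all NOT gates
-/

set_option autoImplicit false

namespace Pool.Agent.FewNeg

variable {ι κ α : Type}

/-- The input `z` with the copy `a` replaced by `w`. -/
def upd [DecidableEq α] (z : α × ι → Bool) (a : α) (w : ι → Bool) : α × ι → Bool :=
  fun p => if p.1 = a then w p.2 else z p

theorem mono_of_copiesX [DecidableEq α] {F : BF ι} (hF0 : F (fun _ => false) = false)
    (A : Finset α) {L : List (BF (α × ι) × ℕ × ℕ)} {s d r : ℕ} {ns : List (BF (α × ι) × ℕ)}
    (h : SLPX L s ns) (hf : (orC A F, d, r) ∈ L)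
    (hP : levelProd (ns.map Prod.snd) ≤ A.card) :
    Computes (s + ns.length) (d + Nat.clog 2 (ns.length + 1)) 0 F := by
  classical
  obtain ⟨R, hR⟩ : ∃ R, ∀ k ∈ ns, k.2 < R := by
    refine ⟨(ns.map Prod.snd).sum + 1, fun k hk => ?_⟩
    have := List.le_sum_of_mem (List.mem_map.2 ⟨k, hk, rfl⟩ : k.2 ∈ ns.map Prod.snd)
    omega
  have hprod := levelProd_eq ns hR
  -- a good input
  have hgood : ∃ a ∈ A, ∃ z : α × ι → Bool, (∀ i, z (a, i) = false) ∧
      (∀ b ∈ A, F (fun i => z (b, i)) = false) ∧
      ∀ w, F w = false → ∀ k ∈ ns, k.1 (upd z a w) = k.1 z := by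
    by_contra hcon
    push Not at hcon
    have key : ∀ B : Finset α, B ⊆ A → ∃ z : α × ι → Bool, (∀ b, b ∉ B → ∀ i, z (b, i) = false) ∧
        (∀ b ∈ A, F (fun i => z (b, i)) = false) ∧ B.card ≤ rho ns R z := by
      intro B
      induction B using Finset.induction_on with
      | empty => exact fun _ => ⟨fun _ => false, fun _ _ _ => rfl, fun _ _ => hF0, by simp⟩
      | insert a B ha ih =>
        intro hB
        obtain ⟨z, h1, h2, h3⟩ := ih ((Finset.subset_insert a B).trans hB)
        have haA : a ∈ A := hB (Finset.mem_insert_self a B)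
        obtain ⟨w, hw, k, hk, hkne⟩ := hcon a haA z (h1 a ha) h2
        have hle : z ≤ upd z a w := by
          rintro ⟨b, i⟩
          unfold upd
          split_ifs with hb
          · simp only at hb
            rw [hb, h1 a ha i]
            exact Bool.false_le _
          · exact le_rfl
        refine ⟨upd z a w, ?_, ?_, ?_⟩
        · intro b hb i
          rw [Finset.mem_insert, not_or] at hb
          simp only [upd]
          rw [if_neg hb.1]
          exact h1 b hb.2 i
        · intro b hb
          by_cases hba : b = a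
          · have : (fun i => upd z a w (b, i)) = w := by
              funext i
              simp [upd, hba]
            rw [this, hw]
          · have : (fun i => upd z a w (b, i)) = fun i => z (b, i) := by
              funext i
              simp [upd, hba]
            rw [this, h2 b hb]
        · rw [Finset.card_insert_of_notMem ha]
          rcases rho_step h.mon.2 hle R with ⟨h4, -⟩ | h4
          · exact absurd (h4 k hk (hR k hk)).symm hkne
          · omega
    obtain ⟨z, -, -, h3⟩ := key A (Finset.Subset.refl A)
    have h4 := rho_lt ns z R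
    omega
  obtain ⟨a, haA, z, hz0, hzA, hgood⟩ := hgood
  set σ : α × ι → ι ⊕ Bool := fun p => if p.1 = a then Sum.inl p.2 else Sum.inr (z p) with hσ
  have hsub : ∀ y, sub σ y = upd z a y := by
    intro y
    funext p
    simp only [sub, hσ, upd]
    split_ifs
    · rfl
    · rfl
  have hsub0 : sub σ (fun _ => false) = z := by
    rw [hsub]
    funext p
    obtain ⟨b, i⟩ := p
    simp only [upd]
    split_ifs with hb
    · rw [hb, hz0]
    · rfl
  have hor : ∀ y, orC A F (sub σ y) = F y := by
    intro y
    rw [hsub]
    have e1 : ∀ b, b ≠ a → (fun i => upd z a y (b, i)) = fun i => z (b, i) := by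
      intro b hb
      funext i
      simp [upd, hb]
    have e2 : (fun i => upd z a y (a, i)) = y := by
      funext i
      simp [upd]
    unfold orC
    rcases hFy : F y with _ | _
    · rw [decide_eq_false_iff_not]
      rintro ⟨b, hb, h1⟩
      by_cases hba : b = a
      · rw [hba, e2, hFy] at h1
        exact Bool.noConfusion h1
      · rw [e1 b hba, hzA b hb] at h1
        exact Bool.noConfusion h1
    · rw [decide_eq_true_iff]
      exact ⟨a, haA, by rw [e2]; exact hFy⟩
  obtain ⟨L', s', H, h1, h2, h3, h4, h5, h6⟩ := h.repl σ d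
  obtain ⟨q, hq, hqd, hq1⟩ := h5 _ hf le_rfl
  simp only at hqd hq1
  obtain ⟨L'', s'', e, a1, -, a3, a4, a5⟩ := SLP.orTree d (Nat.clog 2 (ns.length + 1)) (q :: H)
    L' s' (by simp) (le_trans (by simpa using h3) (Nat.le_pow_clog (by norm_num) _)) h1
    (fun p hp => by
      rcases List.mem_cons.1 hp with rfl | hp
      · exact ⟨hq, hqd⟩
      · exact h4 p hp)
  have hM : (fun x => (q :: H).any fun p => p.1 x) = F := by
    funext y
    rw [List.any_cons]
    rcases hFy : F y with _ | _
    · have h7 : ∀ k ∈ H, k.1 y = false := by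
        refine h6 y fun k hk => ?_
        rw [hsub, hsub0]
        exact hgood y hFy k hk
      rw [hq1 y h7, hor, hFy, Bool.false_or, List.any_eq_false]
      intro p hp
      simp [h7 p hp]
    · by_contra hcon
      rw [Bool.not_eq_true, Bool.or_eq_false_iff, List.any_eq_false] at hcon
      have h7 : ∀ k ∈ H, k.1 y = false := fun k hk => by simpa using hcon.2 k hk
      have h8 := hq1 y h7
      rw [hcon.1, hor, hFy] at h8
      exact Bool.noConfusion h8
  rw [hM] at a5
  rw [List.length_cons] at a3
  exact ⟨L'', s'', e, 0, a1, a5, by omega, a4, le_rfl⟩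

/-- **If the OR of `P` copies of `F` is computed by a circuit for which the product over the levels
of one plus the number of NOT gates is at most `P`, then `F` is computed by a monotone circuit of
about the same size and depth.** -/
theorem ComputesL.mono_of_copies [DecidableEq α] {S : Finset κ} {s d P : ℕ} {f : BF κ}
    (h : ComputesL S s d P f) {F : BF ι} (hF0 : F (fun _ => false) = false) (A : Finset α)
    (hA : P ≤ A.card) (σ : κ → (α × ι) ⊕ Bool) (hσ : ∀ i ∈ S, ∃ b, σ i = Sum.inr b)
    (hg : ∀ y, orC A F y = f (fun i => Sum.elim y id (σ i))) :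
    Computes (s + P) (d + (Nat.log 2 P + 1)) 0 F := by
  obtain ⟨L, s', N, d', r, h1, h2, h3, h4, h5⟩ := h
  obtain ⟨ns, h6, h7⟩ := h1.toX σ hσ
  have h8 : (orC A F, d', r) ∈ L.map fun p =>
      ((fun y => p.1 (fun i => Sum.elim y id (σ i)) : BF (α × ι)), p.2) := by
    rw [List.mem_map]
    refine ⟨_, h2, ?_⟩
    simp only [Prod.mk.injEq, and_true]
    funext y
    exact (hg y).symm
  have h9 := length_lt_levelProd N
  have h10 : ns.length = N.length := by rw [← h7, List.length_map]
  have h11 : Nat.clog 2 (ns.length + 1) ≤ Nat.log 2 P + 1 := by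
    refine (Nat.clog_le_iff_le_pow (by norm_num)).2 ?_
    have : P < 2 ^ (Nat.log 2 P + 1) := Nat.lt_pow_succ_log_self (by norm_num) _
    omega
  exact (mono_of_copiesX hF0 A h6 h8 (by rw [h7]; omega)).mono (by omega) (by omega) le_rfl

end Pool.Agent.FewNeg
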