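import Mathlib
import Pool.Agent.FewNeg.SwDefs

/-!
# The monotone switching lemma
-/

set_option autoImplicit false

namespace Pool.Agent.FewNeg

variable {ι : Type} [DecidableEq ι]

private theorem switch_aux (r s : ℕ) (Φ : Finset (Finset ι)) (hΦ : ∀ q ∈ Φ, q.card ≤ s) (j : ℕ) :
    ∀ m : Finset ι, m.card + j = r + 1 →
    ∃ Ψ D : Finset (Finset ι), (∀ a ∈ Ψ, a.card ≤ r) ∧ (∀ a ∈ D, a.card = r + 1) ∧
      D.card ≤ s ^ j ∧ (∀ x, evD Ψ x → evC Φ x) ∧
      (∀ x, (∀ i ∈ m, x i = true) → evC Φ x → evD Ψ x ∨ evD D x) := by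
  induction j with
  | zero =>
    intro m hm
    refine ⟨∅, {m}, by simp, by simpa using hm, by simp, ?_, ?_⟩
    · rintro x ⟨a, ha, -⟩
      simp at ha
    · intro x hx _
      exact Or.inr ⟨m, Finset.mem_singleton_self m, hx⟩
  | succ j ih =>
    intro m hm
    by_cases h : ∀ q ∈ Φ, ∃ i ∈ q, i ∈ m
    · refine ⟨{m}, ∅, ?_, by simp, by simp, ?_, ?_⟩
      · intro a ha
        rw [Finset.mem_singleton.1 ha]
        omega
      · rintro x ⟨a, ha, hx⟩ q hq
        obtain ⟨i, hi, him⟩ := h q hq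
        rw [Finset.mem_singleton.1 ha] at hx
        exact ⟨i, hi, hx i him⟩
      · intro x hx _
        exact Or.inl ⟨m, Finset.mem_singleton_self m, hx⟩
    · push Not at h
      obtain ⟨q, hq, hqm⟩ := h
      have hex : ∀ i : ι, ∃ P : Finset (Finset ι) × Finset (Finset ι), i ∈ q →
          (∀ a ∈ P.1, a.card ≤ r) ∧ (∀ a ∈ P.2, a.card = r + 1) ∧
          P.2.card ≤ s ^ j ∧ (∀ x, evD P.1 x → evC Φ x) ∧
          (∀ x, (∀ k ∈ insert i m, x k = true) → evC Φ x → evD P.1 x ∨ evD P.2 x) := by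
        intro i
        by_cases hi : i ∈ q
        · have hc : (insert i m).card + j = r + 1 := by
            rw [Finset.card_insert_of_notMem (hqm i hi)]
            omega
          obtain ⟨Ψ, D, h1, h2, h3, h4, h5⟩ := ih (insert i m) hc
          exact ⟨(Ψ, D), fun _ => ⟨h1, h2, h3, h4, h5⟩⟩
        · exact ⟨(∅, ∅), fun h => absurd h hi⟩
      choose P hP using hex
      refine ⟨q.biUnion fun i => (P i).1, q.biUnion fun i => (P i).2, ?_, ?_, ?_, ?_, ?_⟩
      · intro a ha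
        obtain ⟨i, hi, hai⟩ := Finset.mem_biUnion.1 ha
        exact (hP i hi).1 a hai
      · intro a ha
        obtain ⟨i, hi, hai⟩ := Finset.mem_biUnion.1 ha
        exact (hP i hi).2.1 a hai
      · calc (q.biUnion fun i => (P i).2).card ≤ ∑ i ∈ q, (P i).2.card := Finset.card_biUnion_le
          _ ≤ ∑ _i ∈ q, s ^ j := Finset.sum_le_sum fun i hi => (hP i hi).2.2.1
          _ = q.card * s ^ j := by rw [Finset.sum_const, smul_eq_mul]
          _ ≤ s * s ^ j := Nat.mul_le_mul_right _ (hΦ q hq)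
          _ = s ^ (j + 1) := by rw [pow_succ, mul_comm]
      · rintro x ⟨a, ha, hx⟩
        obtain ⟨i, hi, hai⟩ := Finset.mem_biUnion.1 ha
        exact (hP i hi).2.2.2.1 x ⟨a, hai, hx⟩
      · intro x hx hC
        obtain ⟨i, hi, hxi⟩ := hC q hq
        have hx' : ∀ k ∈ insert i m, x k = true := by
          intro k hk
          rcases Finset.mem_insert.1 hk with rfl | hk
          · exact hxi
          · exact hx k hk
        rcases (hP i hi).2.2.2.2 x hx' hC with ⟨a, ha, hxa⟩ | ⟨a, ha, hxa⟩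
        · exact Or.inl ⟨a, Finset.mem_biUnion.2 ⟨i, hi, ha⟩, hxa⟩
        · exact Or.inr ⟨a, Finset.mem_biUnion.2 ⟨i, hi, ha⟩, hxa⟩

/-- From a CNF with clauses of size at most `s` to a DNF with monomials of size at most `r`. -/
theorem switch_CD (r s : ℕ) (Φ : Finset (Finset ι)) (hΦ : ∀ q ∈ Φ, q.card ≤ s) :
    ∃ Ψ D : Finset (Finset ι), (∀ m ∈ Ψ, m.card ≤ r) ∧ (∀ m ∈ D, m.card = r + 1) ∧
      D.card ≤ s ^ (r + 1) ∧ (∀ x, evD Ψ x → evC Φ x) ∧ (∀ x, evC Φ x → evD Ψ x ∨ evD D x) := by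
  obtain ⟨Ψ, D, h1, h2, h3, h4, h5⟩ := switch_aux r s Φ hΦ (r + 1) ∅ (by simp)
  exact ⟨Ψ, D, h1, h2, h3, h4, fun x hx => h5 x (by simp) hx⟩

private theorem switch_not (Φ : Finset (Finset ι)) (x : ι → Bool) :
    evC Φ x ↔ ¬ evD Φ fun i => !(x i) := by
  unfold evC evD
  push Not
  refine forall₂_congr fun q _ => exists_congr fun i => and_congr_right fun _ => ?_
  cases x i <;> simp

private theorem switch_not' (Φ : Finset (Finset ι)) (x : ι → Bool) :
    evD Φ x ↔ ¬ evC Φ fun i => !(x i) := by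
  rw [switch_not, not_not]
  simp

/-- From a DNF with monomials of size at most `r` to a CNF with clauses of size at most `s`. -/
theorem switch_DC (r s : ℕ) (Ψ : Finset (Finset ι)) (hΨ : ∀ m ∈ Ψ, m.card ≤ r) :
    ∃ Φ C : Finset (Finset ι), (∀ q ∈ Φ, q.card ≤ s) ∧ (∀ q ∈ C, q.card = s + 1) ∧
      C.card ≤ r ^ (s + 1) ∧ (∀ x, evD Ψ x → evC Φ x) ∧ (∀ x, evC Φ x → evC C x → evD Ψ x) := by
  obtain ⟨Φ, C, h1, h2, h3, h4, h5⟩ := switch_CD s r Ψ hΨ
  refine ⟨Φ, C, h1, h2, h3, fun x hx => ?_, fun x hx hC => ?_⟩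
  · rw [switch_not]
    intro h
    exact (switch_not' Ψ x).1 hx (h4 _ h)
  · rw [switch_not']
    intro h
    rcases h5 _ h with h | h
    · exact (switch_not Φ x).1 hx h
    · exact (switch_not C x).1 hC h

end Pool.Agent.FewNeg
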