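import Mathlib
import Pool.Agent.FewNeg.Switch

/-!
# Jukna's criterion for the size of monotone circuits
-/

set_option autoImplicit false

namespace Pool.Agent.FewNeg

/-- The approximators of `f`: a CNF `A` and a DNF `B` with the errors `C` and `D`. -/
private structure CritAp {ι : Type} (r s : ℕ) (C D : Finset (Finset ι)) (f : BF ι)
    (A B : Finset (Finset ι)) : Prop where
  cA : ∀ q ∈ A, q.card ≤ s
  cB : ∀ m ∈ B, m.card ≤ r
  upD : ∀ x, f x = true → evD D x ∨ evD B x
  upC : ∀ x, f x = true → evD D x ∨ evC A x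
  loD : ∀ x, evD B x → evC C x → f x = true
  loC : ∀ x, evC A x → evC C x → f x = true

private theorem CritAp.mono {ι : Type} {r s : ℕ} {C C' D D' : Finset (Finset ι)} {f : BF ι}
    {A B : Finset (Finset ι)} (h : CritAp r s C D f A B) (hC : C ⊆ C') (hD : D ⊆ D') :
    CritAp r s C' D' f A B where
  cA := h.cA
  cB := h.cB
  upD := fun x hx => (h.upD x hx).imp_left fun ⟨m, hm, hmx⟩ => ⟨m, hD hm, hmx⟩
  upC := fun x hx => (h.upC x hx).imp_left fun ⟨m, hm, hmx⟩ => ⟨m, hD hm, hmx⟩
  loD := fun x hx hc => h.loD x hx fun q hq => hc q (hC hq)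
  loC := fun x hx hc => h.loC x hx fun q hq => hc q (hC hq)

private theorem crit_aux {ι : Type} [DecidableEq ι] (r s : ℕ) (hr : 1 ≤ r) (hs : 1 ≤ s)
    {L : List (BF ι × ℕ)} {t k : ℕ} (h : SLP L t k) : k = 0 → ∃ D C : Finset (Finset ι),
      (∀ m ∈ D, m.card = r + 1) ∧ D.card ≤ t * s ^ (r + 1) ∧ (∀ q ∈ C, q.card = s + 1) ∧
      C.card ≤ t * r ^ (s + 1) ∧ ∀ p ∈ L, ∃ A B, CritAp r s C D p.1 A B := by
  induction h with
  | nil =>
    intro _
    exact ⟨∅, ∅, by simp, by simp, by simp, by simp, by simp⟩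
  | @var L t k i _ ih =>
    intro hk
    obtain ⟨D, C, hD, hDn, hC, hCn, hL⟩ := ih hk
    refine ⟨D, C, hD, hDn, hC, hCn, ?_⟩
    intro p hp
    rcases List.mem_cons.1 hp with rfl | hp
    · refine ⟨{{i}}, {{i}}, ?_, ?_, ?_, ?_, ?_, ?_⟩
      · intro q hq
        rw [Finset.mem_singleton.1 hq, Finset.card_singleton]
        exact hs
      · intro q hq
        rw [Finset.mem_singleton.1 hq, Finset.card_singleton]
        exact hr
      · intro x hx
        exact Or.inr ⟨{i}, Finset.mem_singleton_self _, by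
          intro j hj
          rw [Finset.mem_singleton.1 hj]
          exact hx⟩
      · intro x hx
        refine Or.inr fun q hq => ?_
        rw [Finset.mem_singleton.1 hq]
        exact ⟨i, Finset.mem_singleton_self _, hx⟩
      · rintro x ⟨m, hm, hmx⟩ _
        rw [Finset.mem_singleton.1 hm] at hmx
        exact hmx i (Finset.mem_singleton_self _)
      · intro x hx _
        obtain ⟨j, hj, hxj⟩ := hx {i} (Finset.mem_singleton_self _)
        rw [Finset.mem_singleton.1 hj] at hxj
        exact hxj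
    · exact hL p hp
  | @const L t k b _ ih =>
    intro hk
    obtain ⟨D, C, hD, hDn, hC, hCn, hL⟩ := ih hk
    refine ⟨D, C, hD, hDn, hC, hCn, ?_⟩
    intro p hp
    rcases List.mem_cons.1 hp with rfl | hp
    · cases b with
      | true =>
        refine ⟨∅, {∅}, by simp, by simp, ?_, ?_, fun _ _ _ => rfl, fun _ _ _ => rfl⟩
        · intro x _
          exact Or.inr ⟨∅, Finset.mem_singleton_self _, fun i hi =>
            absurd hi (Finset.notMem_empty i)⟩
        · intro x _
          exact Or.inr fun q hq => absurd hq (Finset.notMem_empty q)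
      | false =>
        refine ⟨{∅}, ∅, by simp, by simp, fun x hx => absurd hx (by simp),
          fun x hx => absurd hx (by simp), ?_, ?_⟩
        · rintro x ⟨m, hm, _⟩ _
          exact absurd hm (Finset.notMem_empty m)
        · intro x hx _
          obtain ⟨i, hi, _⟩ := hx ∅ (Finset.mem_singleton_self _)
          exact absurd hi (Finset.notMem_empty i)
    · exact hL p hp
  | @and L t k f g d e _ hf hg ih =>
    intro hk
    obtain ⟨D, C, hD, hDn, hC, hCn, hL⟩ := ih hk
    obtain ⟨A₁, B₁, h₁⟩ := hL _ hf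
    obtain ⟨A₂, B₂, h₂⟩ := hL _ hg
    have hA : ∀ q ∈ A₁ ∪ A₂, q.card ≤ s := by
      intro q hq
      rcases Finset.mem_union.1 hq with h | h
      · exact h₁.cA q h
      · exact h₂.cA q h
    obtain ⟨B, D', hB, hD', hD'n, hBA, hAB⟩ := switch_CD r s (A₁ ∪ A₂) hA
    refine ⟨D ∪ D', C, ?_, ?_, hC, ?_, ?_⟩
    · intro m hm
      rcases Finset.mem_union.1 hm with h | h
      · exact hD m h
      · exact hD' m h
    · calc (D ∪ D').card ≤ D.card + D'.card := Finset.card_union_le _ _
        _ ≤ t * s ^ (r + 1) + s ^ (r + 1) := Nat.add_le_add hDn hD'n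
        _ = (t + 1) * s ^ (r + 1) := by ring
    · exact hCn.trans (Nat.mul_le_mul_right _ (Nat.le_succ _))
    · intro p hp
      rcases List.mem_cons.1 hp with rfl | hp
      · have key : ∀ x, (f x && g x) = true → evD D x ∨ evC (A₁ ∪ A₂) x := by
          intro x hx
          rw [Bool.and_eq_true] at hx
          rcases h₁.upC x hx.1 with h | h
          · exact Or.inl h
          · rcases h₂.upC x hx.2 with h' | h'
            · exact Or.inl h'
            · refine Or.inr fun q hq => ?_
              rcases Finset.mem_union.1 hq with hq | hq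
              · exact h q hq
              · exact h' q hq
        have key2 : ∀ x, evC (A₁ ∪ A₂) x → evC C x → (f x && g x) = true := by
          intro x hx hc
          rw [Bool.and_eq_true]
          exact ⟨h₁.loC x (fun q hq => hx q (Finset.mem_union_left _ hq)) hc,
            h₂.loC x (fun q hq => hx q (Finset.mem_union_right _ hq)) hc⟩
        refine ⟨A₁ ∪ A₂, B, hA, hB, ?_, ?_, ?_, key2⟩
        · intro x hx
          rcases key x hx with ⟨m, hm, hmx⟩ | h
          · exact Or.inl ⟨m, Finset.mem_union_left _ hm, hmx⟩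
          · rcases hAB x h with h | ⟨m, hm, hmx⟩
            · exact Or.inr h
            · exact Or.inl ⟨m, Finset.mem_union_right _ hm, hmx⟩
        · intro x hx
          rcases key x hx with ⟨m, hm, hmx⟩ | h
          · exact Or.inl ⟨m, Finset.mem_union_left _ hm, hmx⟩
          · exact Or.inr h
        · intro x hx hc
          exact key2 x (hBA x hx) hc
      · obtain ⟨A, B', h'⟩ := hL p hp
        exact ⟨A, B', h'.mono subset_rfl Finset.subset_union_left⟩
  | @or L t k f g d e _ hf hg ih =>
    intro hk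
    obtain ⟨D, C, hD, hDn, hC, hCn, hL⟩ := ih hk
    obtain ⟨A₁, B₁, h₁⟩ := hL _ hf
    obtain ⟨A₂, B₂, h₂⟩ := hL _ hg
    have hB : ∀ q ∈ B₁ ∪ B₂, q.card ≤ r := by
      intro q hq
      rcases Finset.mem_union.1 hq with h | h
      · exact h₁.cB q h
      · exact h₂.cB q h
    obtain ⟨A, C', hA, hC', hC'n, hBA, hAB⟩ := switch_DC r s (B₁ ∪ B₂) hB
    refine ⟨D, C ∪ C', hD, ?_, ?_, ?_, ?_⟩
    · exact hDn.trans (Nat.mul_le_mul_right _ (Nat.le_succ _))
    · intro m hm
      rcases Finset.mem_union.1 hm with h | h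
      · exact hC m h
      · exact hC' m h
    · calc (C ∪ C').card ≤ C.card + C'.card := Finset.card_union_le _ _
        _ ≤ t * r ^ (s + 1) + r ^ (s + 1) := Nat.add_le_add hCn hC'n
        _ = (t + 1) * r ^ (s + 1) := by ring
    · intro p hp
      rcases List.mem_cons.1 hp with rfl | hp
      · have key : ∀ x, (f x || g x) = true → evD D x ∨ evD (B₁ ∪ B₂) x := by
          intro x hx
          rw [Bool.or_eq_true] at hx
          rcases hx with hx | hx
          · rcases h₁.upD x hx with h | ⟨m, hm, hmx⟩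
            · exact Or.inl h
            · exact Or.inr ⟨m, Finset.mem_union_left _ hm, hmx⟩
          · rcases h₂.upD x hx with h | ⟨m, hm, hmx⟩
            · exact Or.inl h
            · exact Or.inr ⟨m, Finset.mem_union_right _ hm, hmx⟩
        have key2 : ∀ x, evD (B₁ ∪ B₂) x → evC C x → (f x || g x) = true := by
          rintro x ⟨m, hm, hmx⟩ hc
          rw [Bool.or_eq_true]
          rcases Finset.mem_union.1 hm with hm | hm
          · exact Or.inl (h₁.loD x ⟨m, hm, hmx⟩ hc)
          · exact Or.inr (h₂.loD x ⟨m, hm, hmx⟩ hc)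
        refine ⟨A, B₁ ∪ B₂, hA, hB, key, ?_, ?_, ?_⟩
        · intro x hx
          rcases key x hx with h | h
          · exact Or.inl h
          · exact Or.inr (hBA x h)
        · intro x hx hc
          exact key2 x hx fun q hq => hc q (Finset.mem_union_left _ hq)
        · intro x hx hc
          exact key2 x (hAB x hx fun q hq => hc q (Finset.mem_union_right _ hq))
            fun q hq => hc q (Finset.mem_union_left _ hq)
      · obtain ⟨A', B', h'⟩ := hL p hp
        exact ⟨A', B', h'.mono Finset.subset_union_left subset_rfl⟩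
  | not _ _ _ =>
    intro hk
    exact absurd hk (Nat.succ_ne_zero _)

theorem criterion {ι : Type} [DecidableEq ι] (r s : ℕ) (hr : 1 ≤ r) (hs : 1 ≤ s)
    {L : List (BF ι × ℕ)} {t : ℕ} (h : SLP L t 0) : ∀ p ∈ L, ∃ D C : Finset (Finset ι),
      (∀ m ∈ D, m.card = r + 1) ∧ D.card ≤ t * s ^ (r + 1) ∧ (∀ q ∈ C, q.card = s + 1) ∧
      C.card ≤ t * r ^ (s + 1) ∧
      ((∀ x, evC C x → p.1 x = true) ∨
        ∃ q : Finset ι, q.card ≤ s ∧ ∀ x, p.1 x = true → evD D x ∨ ∃ i ∈ q, x i = true) := by
  intro p hp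
  obtain ⟨D, C, hD, hDn, hC, hCn, hL⟩ := crit_aux r s hr hs h rfl
  obtain ⟨A, B, hAB⟩ := hL p hp
  refine ⟨D, C, hD, hDn, hC, hCn, ?_⟩
  rcases A.eq_empty_or_nonempty with rfl | ⟨q, hq⟩
  · left
    exact fun x hx => hAB.loC x (fun q hq => absurd hq (Finset.notMem_empty q)) hx
  · right
    exact ⟨q, hAB.cA q hq, fun x hx => (hAB.upC x hx).imp_right fun h => h q hq⟩

end Pool.Agent.FewNeg
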