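import Mathlib
import Pool.Agent.FewNeg.Crit

/-!
# Andreev's function needs large monotone circuits
-/

set_option autoImplicit false

namespace Pool.Agent.FewNeg

/-- the value at `u` of the polynomial with the coefficients `c` -/
private def Andr_val {q k : ℕ} (c : Fin k → Fin q) (u : Fin q) : ℕ :=
  (∑ i : Fin k, (c i).val * u.val ^ (i : ℕ)) % q

/-- the graph of a polynomial as an input -/
private def Andr_x {q k : ℕ} (c : Fin k → Fin q) : Fin q × Fin q → Bool :=
  fun p => decide (p.2.val = Andr_val c p.1)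

private lemma Andr_x_iff {q k : ℕ} (c : Fin k → Fin q) (p : Fin q × Fin q) :
    Andr_x c p = true ↔ p.2.val = Andr_val c p.1 := by
  unfold Andr_x
  exact decide_eq_true_iff

private lemma Andr_f {q k : ℕ} (c : Fin k → Fin q) : andrF q k (Andr_x c) = true := by
  unfold andrF
  rw [decide_eq_true_iff]
  exact ⟨c, fun u v hv => (Andr_x_iff c (u, v)).mpr hv⟩

/-- two polynomials of degree less than `k` which agree at `k` points are equal -/
private lemma Andr_unique {q k : ℕ} (hq : q.Prime) (c c' : Fin k → Fin q)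
    (m : Finset (Fin q × Fin q)) (hm : m.card = k) (h : ∀ p ∈ m, Andr_x c p = true)
    (h' : ∀ p ∈ m, Andr_x c' p = true) : c = c' := by
  haveI : Fact q.Prime := ⟨hq⟩
  have hinj : Set.InjOn (fun p : Fin q × Fin q => ((p.1.val : ℕ) : ZMod q)) m := by
    intro p hp p' hp' hpp
    have h1 : p.1 = p'.1 := by
      apply Fin.ext
      have h2 := (ZMod.natCast_eq_natCast_iff' p.1.val p'.1.val q).mp hpp
      rwa [Nat.mod_eq_of_lt p.1.2, Nat.mod_eq_of_lt p'.1.2] at h2
    refine Prod.ext h1 (Fin.ext ?_)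
    rw [(Andr_x_iff c p).mp (h p hp), (Andr_x_iff c p').mp (h p' hp'), h1]
  set U : Finset (ZMod q) := m.image fun p : Fin q × Fin q => ((p.1.val : ℕ) : ZMod q) with hU
  have hUc : U.card = k := by rw [hU, Finset.card_image_of_injOn hinj, hm]
  have hcast : ∀ (d : Fin k → Fin q) (u : Fin q), ((Andr_val d u : ℕ) : ZMod q) =
      ∑ i : Fin k, ((d i).val : ZMod q) * ((u.val : ℕ) : ZMod q) ^ (i : ℕ) := by
    intro d u
    unfold Andr_val
    rw [ZMod.natCast_mod]
    push_cast
    rfl
  set P : Polynomial (ZMod q) := ∑ i : Fin k,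
    Polynomial.C ((((c i).val : ℕ) : ZMod q) - (((c' i).val : ℕ) : ZMod q)) *
      Polynomial.X ^ (i : ℕ) with hP
  have hP0 : P = 0 := by
    refine Polynomial.eq_zero_of_degree_lt_of_eval_finset_eq_zero (s := U) ?_ ?_
    · rw [hUc]
      exact Polynomial.degree_sum_fin_lt _
    · intro x hx
      obtain ⟨p, hp, rfl⟩ := Finset.mem_image.mp hx
      have h1 := hcast c p.1
      have h2 := hcast c' p.1
      rw [← (Andr_x_iff c p).mp (h p hp)] at h1
      rw [← (Andr_x_iff c' p).mp (h' p hp)] at h2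
      rw [hP, Polynomial.eval_finsetSum]
      simp only [Polynomial.eval_mul, Polynomial.eval_C, Polynomial.eval_pow, Polynomial.eval_X,
        sub_mul, Finset.sum_sub_distrib]
      rw [← h1, ← h2, sub_self]
  funext j
  have h1 : P.coeff (j : ℕ) = (((c j).val : ℕ) : ZMod q) - (((c' j).val : ℕ) : ZMod q) := by
    rw [hP, Polynomial.finsetSum_coeff, Finset.sum_eq_single j]
    · rw [Polynomial.coeff_C_mul, Polynomial.coeff_X_pow, if_pos rfl, mul_one]
    · intro i _ hij
      rw [Polynomial.coeff_C_mul, Polynomial.coeff_X_pow,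
        if_neg fun h2 => hij (Fin.ext h2).symm, mul_zero]
    · intro h2
      exact absurd (Finset.mem_univ j) h2
  rw [hP0, Polynomial.coeff_zero] at h1
  have h2 := (ZMod.natCast_eq_natCast_iff' _ _ q).mp (sub_eq_zero.mp h1.symm)
  rw [Nat.mod_eq_of_lt (c j).2, Nat.mod_eq_of_lt (c' j).2] at h2
  exact Fin.ext h2

open Classical in
/-- few graphs pass through a point -/
private lemma Andr_point {q k : ℕ} (p : Fin q × Fin q) :
    (Finset.univ.filter fun c : Fin (k + 1) → Fin q => Andr_x c p = true).card ≤ q ^ k := by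
  have h1 : (Finset.univ : Finset (Fin k → Fin q)).card = q ^ k := by
    rw [Finset.card_univ, Fintype.card_fun, Fintype.card_fin, Fintype.card_fin]
  rw [← h1]
  refine Finset.card_le_card_of_injOn (fun c => fun i : Fin k => c i.succ)
    (fun c _ => Finset.mem_coe.mpr (Finset.mem_univ _)) ?_
  intro c hc c' hc' hcc
  have hc1 := (Andr_x_iff c p).mp (Finset.mem_filter.mp (Finset.mem_coe.mp hc)).2
  have hc2 := (Andr_x_iff c' p).mp (Finset.mem_filter.mp (Finset.mem_coe.mp hc')).2
  have htail : ∀ i : Fin k, c i.succ = c' i.succ := fun i => congrFun hcc i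
  rw [hc1] at hc2
  unfold Andr_val at hc2
  rw [Fin.sum_univ_succ, Fin.sum_univ_succ] at hc2
  have h2 : ∑ i : Fin k, (c i.succ).val * p.1.val ^ (i.succ : ℕ) =
      ∑ i : Fin k, (c' i.succ).val * p.1.val ^ (i.succ : ℕ) :=
    Finset.sum_congr rfl fun i _ => by rw [htail i]
  rw [h2] at hc2
  have h3 : (c 0).val ≡ (c' 0).val [MOD q] := by
    have h4 := Nat.ModEq.add_right_cancel' _ hc2
    simpa using h4
  have h4 : c 0 = c' 0 := by
    apply Fin.ext
    have h5 : (c 0).val % q = (c' 0).val % q := h3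
    rwa [Nat.mod_eq_of_lt (c 0).2, Nat.mod_eq_of_lt (c' 0).2] at h5
  funext i
  refine Fin.cases h4 htail i

/-- the number of functions with values in `S` at the points of `T` -/
private lemma Andr_count {ι α : Type} [Fintype ι] [Fintype α] [DecidableEq ι] [DecidableEq α]
    (T : Finset ι) (S : Finset α) [DecidablePred fun E : ι → α => ∀ p ∈ T, E p ∈ S] :
    (Finset.univ.filter fun E : ι → α => ∀ p ∈ T, E p ∈ S).card =
      S.card ^ T.card * Fintype.card α ^ (Fintype.card ι - T.card) := by
  have h1 : (Finset.univ.filter fun E : ι → α => ∀ p ∈ T, E p ∈ S) =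
      Fintype.piFinset fun p => if p ∈ T then S else Finset.univ := by
    ext E
    rw [Finset.mem_filter, Fintype.mem_piFinset]
    constructor
    · rintro ⟨-, h⟩ p
      split_ifs with hp
      · exact h p hp
      · exact Finset.mem_univ _
    · intro h
      refine ⟨Finset.mem_univ _, fun p hp => ?_⟩
      have h2 := h p
      rwa [if_pos hp] at h2
  rw [h1, Fintype.card_piFinset]
  have h2 : ∀ p : ι, (if p ∈ T then S else Finset.univ).card =
      if p ∈ T then S.card else Fintype.card α := by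
    intro p
    split_ifs
    · rfl
    · rfl
  rw [Finset.prod_congr rfl fun p _ => h2 p, Finset.prod_ite, Finset.prod_const,
    Finset.prod_const, Finset.filter_mem_eq_inter, Finset.univ_inter]
  congr 2
  have h3 : (Finset.univ.filter fun p => p ∉ T) = Tᶜ := by
    ext p
    simp
  rw [h3, Finset.card_compl]

/-- the graph of a polynomial as a set -/
private def Andr_graph {q k : ℕ} (hq : 0 < q) (c : Fin k → Fin q) : Finset (Fin q × Fin q) :=
  Finset.univ.image fun u : Fin q => (u, (⟨Andr_val c u, Nat.mod_lt _ hq⟩ : Fin q))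

private lemma Andr_graph_card {q k : ℕ} (hq : 0 < q) (c : Fin k → Fin q) :
    (Andr_graph hq c).card = q := by
  unfold Andr_graph
  rw [Finset.card_image_of_injective, Finset.card_univ, Fintype.card_fin]
  intro u u' h
  exact congrArg Prod.fst h

theorem andr_lower (q k s Γ t d : ℕ) (hq : q.Prime) (hk : 2 ≤ k) (hkq : k ≤ q) (hs : 1 ≤ s)
    (h2s : 2 * s ≤ q) (hcount : 2 * q ^ k * (Γ - 1) ^ q ≤ Γ ^ q) (hΓ : 1 ≤ Γ)
    (h : Computes t d 0 (andrF q k)) :
    q ^ k ≤ 2 * t * s ^ k ∨ Γ ^ (s + 1) ≤ 2 * t * (k - 1) ^ (s + 1) := by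
  classical
  obtain ⟨L, s', d', t', hL, hmem, hs', -, ht'⟩ := h
  obtain rfl : t' = 0 := by omega
  obtain ⟨D, C, hD1, hD2, hC1, hC2, hcase⟩ := criterion (k - 1) s (by omega) hs hL _ hmem
  have hk1 : k - 1 + 1 = k := by omega
  rw [hk1] at hD2
  rcases hcase with hcase | ⟨q₀, hq₀, hcase⟩
  · right
    -- counting assignments
    have hq0 : 0 < q := hq.pos
    have hq2 : q ≤ q * q := Nat.le_mul_of_pos_left q hq0
    set xE : (Fin q × Fin q → Fin Γ) → Fin q × Fin q → Bool :=
      fun E p => decide ((E p).val ≠ 0) with hxE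
    have hxE' : ∀ E p, xE E p = true ↔ (E p).val ≠ 0 := fun E p => decide_eq_true_iff
    set NZ : Finset (Fin Γ) := Finset.univ.filter fun a => a.val ≠ 0 with hNZ
    set ZZ : Finset (Fin Γ) := {(⟨0, hΓ⟩ : Fin Γ)} with hZZ
    have hNZc : NZ.card = Γ - 1 := by
      have h1 : NZ = ZZᶜ := by
        ext a
        rw [hNZ, hZZ, Finset.mem_filter, Finset.mem_compl, Finset.mem_singleton]
        constructor
        · rintro ⟨-, h2⟩ h3
          exact h2 (by rw [h3])
        · intro h2
          exact ⟨Finset.mem_univ _, fun h3 => h2 (Fin.ext h3)⟩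
      rw [h1, Finset.card_compl, hZZ, Finset.card_singleton, Fintype.card_fin]
    have hcardP : Fintype.card (Fin q × Fin q) = q * q := by
      rw [Fintype.card_prod, Fintype.card_fin]
    set A : Finset (Fin q × Fin q → Fin Γ) :=
      (Finset.univ : Finset (Fin k → Fin q)).biUnion fun c =>
        Finset.univ.filter fun E => ∀ p ∈ Andr_graph hq0 c, E p ∈ NZ with hA
    set B : Finset (Fin q × Fin q → Fin Γ) :=
      C.biUnion fun q₁ => Finset.univ.filter fun E => ∀ p ∈ q₁, E p ∈ ZZ with hB
    have hAB : ∀ E, E ∈ A ∪ B := by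
      intro E
      rw [Finset.mem_union]
      by_cases hev : evC C (xE E)
      · left
        have h1 := hcase _ hev
        unfold andrF at h1
        simp only [decide_eq_true_eq] at h1
        obtain ⟨c, hc⟩ := h1
        rw [hA, Finset.mem_biUnion]
        refine ⟨c, Finset.mem_univ _, ?_⟩
        rw [Finset.mem_filter]
        refine ⟨Finset.mem_univ _, fun p hp => ?_⟩
        obtain ⟨u, -, rfl⟩ := Finset.mem_image.mp hp
        rw [hNZ, Finset.mem_filter]
        refine ⟨Finset.mem_univ _, (hxE' _ _).mp (hc u _ rfl)⟩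
      · right
        unfold evC at hev
        push Not at hev
        obtain ⟨q₁, hq₁, h1⟩ := hev
        rw [hB, Finset.mem_biUnion]
        refine ⟨q₁, hq₁, ?_⟩
        rw [Finset.mem_filter]
        refine ⟨Finset.mem_univ _, fun p hp => ?_⟩
        have h2 := h1 p hp
        rw [Ne, hxE', not_not] at h2
        rw [hZZ, Finset.mem_singleton]
        exact Fin.ext h2
    have htot : Γ ^ (q * q) ≤ A.card + B.card := by
      have h1 : (Finset.univ : Finset (Fin q × Fin q → Fin Γ)).card = Γ ^ (q * q) := by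
        rw [Finset.card_univ, Fintype.card_fun, hcardP, Fintype.card_fin]
      rw [← h1]
      refine (Finset.card_le_card fun E _ => hAB E).trans (Finset.card_union_le _ _)
    have hAc : A.card ≤ q ^ k * ((Γ - 1) ^ q * Γ ^ (q * q - q)) := by
      refine Finset.card_biUnion_le.trans ?_
      have h1 : ∀ c : Fin k → Fin q,
          (Finset.univ.filter fun E : Fin q × Fin q → Fin Γ =>
            ∀ p ∈ Andr_graph hq0 c, E p ∈ NZ).card = (Γ - 1) ^ q * Γ ^ (q * q - q) := by
        intro c
        rw [Andr_count, hNZc, Andr_graph_card, hcardP, Fintype.card_fin]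
      rw [Finset.sum_congr rfl fun c _ => h1 c, Finset.sum_const, Finset.card_univ,
        Fintype.card_fun, Fintype.card_fin, Fintype.card_fin, smul_eq_mul]
    have hBc : B.card ≤ C.card * Γ ^ (q * q - (s + 1)) := by
      refine Finset.card_biUnion_le.trans ?_
      have h1 : ∀ q₁ ∈ C,
          (Finset.univ.filter fun E : Fin q × Fin q → Fin Γ => ∀ p ∈ q₁, E p ∈ ZZ).card =
            Γ ^ (q * q - (s + 1)) := by
        intro q₁ hq₁
        rw [Andr_count, hZZ, Finset.card_singleton, one_pow, one_mul, hcardP, Fintype.card_fin,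
          hC1 q₁ hq₁]
      rw [Finset.sum_congr rfl h1, Finset.sum_const, smul_eq_mul]
    have hA2 : 2 * A.card ≤ Γ ^ (q * q) := by
      calc 2 * A.card ≤ 2 * (q ^ k * ((Γ - 1) ^ q * Γ ^ (q * q - q))) :=
            Nat.mul_le_mul_left 2 hAc
        _ = (2 * q ^ k * (Γ - 1) ^ q) * Γ ^ (q * q - q) := by ring
        _ ≤ Γ ^ q * Γ ^ (q * q - q) := Nat.mul_le_mul_right _ hcount
        _ = Γ ^ (q * q) := by rw [← pow_add]; congr 1; omega
    have h3 : Γ ^ (q * q) ≤ 2 * (C.card * Γ ^ (q * q - (s + 1))) := by omega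
    have hsq : s + 1 ≤ q * q := by
      have := hq.two_le
      omega
    have h4 : Γ ^ (s + 1) * Γ ^ (q * q - (s + 1)) ≤ (2 * C.card) * Γ ^ (q * q - (s + 1)) := by
      rw [← pow_add, show s + 1 + (q * q - (s + 1)) = q * q by omega]
      refine h3.trans (le_of_eq ?_)
      ring
    have h5 : Γ ^ (s + 1) ≤ 2 * C.card :=
      Nat.le_of_mul_le_mul_right h4 (pow_pos hΓ _)
    refine h5.trans ?_
    rw [mul_assoc]
    refine Nat.mul_le_mul_left 2 (hC2.trans ?_)
    exact Nat.mul_le_mul_right _ hs'
  · left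
    obtain ⟨k', rfl⟩ : ∃ k', k = k' + 1 := ⟨k - 1, by omega⟩
    set F1 : Finset (Fin (k' + 1) → Fin q) :=
      Finset.univ.filter fun c => evD D (Andr_x c) with hF1
    set F2 : Finset (Fin (k' + 1) → Fin q) :=
      q₀.biUnion fun p => Finset.univ.filter fun c => Andr_x c p = true with hF2
    have hcov : ∀ c, c ∈ F1 ∪ F2 := by
      intro c
      rw [Finset.mem_union]
      rcases hcase _ (Andr_f c) with h1 | ⟨p, hp, h1⟩
      · left
        rw [hF1, Finset.mem_filter]
        exact ⟨Finset.mem_univ _, h1⟩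
      · right
        rw [hF2, Finset.mem_biUnion]
        exact ⟨p, hp, Finset.mem_filter.mpr ⟨Finset.mem_univ _, h1⟩⟩
    have hF1c : F1.card ≤ D.card := by
      have hch : ∀ c : Fin (k' + 1) → Fin q, ∃ m : Finset (Fin q × Fin q), c ∈ F1 →
          m ∈ D ∧ ∀ i ∈ m, Andr_x c i = true := by
        intro c
        by_cases hc : c ∈ F1
        · obtain ⟨m, hm, hm2⟩ := (Finset.mem_filter.mp hc).2
          exact ⟨m, fun _ => ⟨hm, hm2⟩⟩
        · exact ⟨∅, fun h1 => absurd h1 hc⟩
      choose M hM using hch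
      refine Finset.card_le_card_of_injOn M (fun c hc => (hM c hc).1) ?_
      intro c hc c' hc' hcc
      refine Andr_unique hq c c' (M c) (hD1 _ (hM c hc).1) (hM c hc).2 ?_
      intro p hp
      rw [hcc] at hp
      exact (hM c' hc').2 p hp
    have hF2c : F2.card ≤ s * q ^ k' := by
      refine Finset.card_biUnion_le.trans ?_
      calc ∑ p ∈ q₀, (Finset.univ.filter fun c : Fin (k' + 1) → Fin q =>
            Andr_x c p = true).card ≤ ∑ _p ∈ q₀, q ^ k' :=
            Finset.sum_le_sum fun p _ => Andr_point p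
        _ = q₀.card * q ^ k' := by rw [Finset.sum_const, smul_eq_mul]
        _ ≤ s * q ^ k' := Nat.mul_le_mul_right _ hq₀
    have htot : q ^ (k' + 1) ≤ F1.card + F2.card := by
      have h1 : (Finset.univ : Finset (Fin (k' + 1) → Fin q)).card = q ^ (k' + 1) := by
        rw [Finset.card_univ, Fintype.card_fun, Fintype.card_fin, Fintype.card_fin]
      rw [← h1]
      exact (Finset.card_le_card fun c _ => hcov c).trans (Finset.card_union_le _ _)
    have h6 : D.card ≤ t * s ^ (k' + 1) := hD2.trans (Nat.mul_le_mul_right _ hs')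
    have h7 : 2 * (s * q ^ k') ≤ q ^ (k' + 1) := by
      calc 2 * (s * q ^ k') = (2 * s) * q ^ k' := by ring
        _ ≤ q * q ^ k' := Nat.mul_le_mul_right _ h2s
        _ = q ^ (k' + 1) := by ring
    have h8 : 2 * t * s ^ (k' + 1) = 2 * (t * s ^ (k' + 1)) := by ring
    rw [h8]
    omega

end Pool.Agent.FewNeg
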