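import Mathlib
import Pool.Agent.FewNeg.Andr

/-!
# Andreev's function needs monotone circuits of exponential size
-/

set_option autoImplicit false

namespace Pool.Agent.FewNeg

private theorem an_bern (x : ℕ) : ∀ n : ℕ, x ^ n * (x + n) ≤ (x + 1) ^ n * x := by
  intro n
  induction n with
  | zero => simp
  | succ n ih =>
    have h1 : x ^ n ≤ (x + 1) ^ n := Nat.pow_le_pow_left (Nat.le_succ x) n
    calc x ^ (n + 1) * (x + (n + 1)) = x * (x ^ n * (x + n)) + x ^ n * x := by ring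
      _ ≤ x * ((x + 1) ^ n * x) + (x + 1) ^ n * x := by gcongr
      _ = (x + 1) ^ (n + 1) * x := by ring

private theorem an_two (m : ℕ) (hm : 2 ≤ m) : 2 * (m - 1) ^ m ≤ m ^ m := by
  obtain ⟨x, rfl⟩ : ∃ x, m = x + 1 := ⟨m - 1, by omega⟩
  have hx : 0 < x := by omega
  have h := an_bern x (x + 1)
  rw [Nat.add_sub_cancel]
  have h2 : 2 * x ^ (x + 1) * x ≤ (x + 1) ^ (x + 1) * x := by
    refine le_trans ?_ h
    calc 2 * x ^ (x + 1) * x = x ^ (x + 1) * (x + x) := by ring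
      _ ≤ x ^ (x + 1) * (x + (x + 1)) := by gcongr; omega
  exact Nat.le_of_mul_le_mul_right h2 hx

private theorem an_pow (m j : ℕ) (hm : 2 ≤ m) : 2 ^ j * (m - 1) ^ (m * j) ≤ m ^ (m * j) := by
  rw [pow_mul, pow_mul, ← mul_pow]
  exact Nat.pow_le_pow_left (an_two m hm) j

private theorem an_four (a : ℕ) (ha : 4 ≤ a) : a ^ 4 ≤ 4 ^ a := by
  induction a, ha using Nat.le_induction with
  | base => norm_num
  | succ a ha ih =>
    have h1 : (a + 1) ^ 4 ≤ 4 * a ^ 4 := by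
      have h2 : 3 * (a + 1) ≤ 4 * a := by omega
      have h3 : (3 * (a + 1)) ^ 4 ≤ (4 * a) ^ 4 := Nat.pow_le_pow_left h2 4
      have h4 : 81 * (a + 1) ^ 4 ≤ 256 * a ^ 4 := by
        have e1 : (3 * (a + 1)) ^ 4 = 81 * (a + 1) ^ 4 := by ring
        have e2 : (4 * a) ^ 4 = 256 * a ^ 4 := by ring
        rw [e1, e2] at h3
        exact h3
      omega
    calc (a + 1) ^ 4 ≤ 4 * a ^ 4 := h1
      _ ≤ 4 * 4 ^ a := by gcongr
      _ = 4 ^ (a + 1) := by ring

theorem andr_size (a q t d : ℕ) (ha : 5 ≤ a) (hq : q.Prime) (h1 : a ^ 4 < q)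
    (h2 : q ≤ 2 * a ^ 4) (h : Computes t d 0 (andrF q a)) : 2 ^ a ≤ t := by
  have ha2 : a ^ 2 ≤ a ^ 4 := Nat.pow_le_pow_right (by omega) (by norm_num)
  have ha3 : 25 * a ^ 2 ≤ a ^ 4 := by
    have : 5 * 5 ≤ a * a := Nat.mul_le_mul ha ha
    calc 25 * a ^ 2 ≤ (a * a) * a ^ 2 := by gcongr
      _ = a ^ 4 := by ring
  have ha4 : a ≤ a ^ 2 := by nlinarith
  have hcount : 2 * q ^ a * (2 * a - 1) ^ q ≤ (2 * a) ^ q := by
    have hj : 1 + 2 * a ^ 2 + a ≤ q / (2 * a) := by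
      rw [Nat.le_div_iff_mul_le (by omega)]
      have e1 : (1 + 2 * a ^ 2 + a) * (2 * a) = 2 * a + 4 * a ^ 3 + 2 * a ^ 2 := by ring
      rw [e1]
      have e2 : 5 * a ^ 3 ≤ a ^ 4 := by
        calc 5 * a ^ 3 ≤ a * a ^ 3 := by gcongr
          _ = a ^ 4 := by ring
      have e3 : 5 * a ^ 2 ≤ a ^ 3 := by
        calc 5 * a ^ 2 ≤ a * a ^ 2 := by gcongr
          _ = a ^ 3 := by ring
      omega
    have hb : 2 * q ^ a ≤ 2 ^ (q / (2 * a)) := by
      have e1 : q ≤ 2 ^ (2 * a + 1) := by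
        have e2 := an_four a (by omega)
        calc q ≤ 2 * a ^ 4 := h2
          _ ≤ 2 * 4 ^ a := by gcongr
          _ = 2 ^ (2 * a + 1) := by
            rw [pow_succ, pow_mul]
            norm_num
            ring
      calc 2 * q ^ a ≤ 2 * (2 ^ (2 * a + 1)) ^ a := by gcongr
        _ = 2 ^ (1 + 2 * a ^ 2 + a) := by
          rw [← pow_mul, ← pow_succ']
          congr 1
          ring
        _ ≤ 2 ^ (q / (2 * a)) := Nat.pow_le_pow_right (by norm_num) hj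
    have e3 : q = 2 * a * (q / (2 * a)) + q % (2 * a) := (Nat.div_add_mod q (2 * a)).symm
    obtain ⟨j, hjd⟩ : ∃ j, j = q / (2 * a) := ⟨_, rfl⟩
    obtain ⟨r, hrd⟩ : ∃ r, r = q % (2 * a) := ⟨_, rfl⟩
    rw [← hjd] at hb
    rw [← hjd, ← hrd] at e3
    have e4 := an_pow (2 * a) j (by omega)
    have e5 : (2 * a - 1) ^ r ≤ (2 * a) ^ r := Nat.pow_le_pow_left (by omega) r
    calc 2 * q ^ a * (2 * a - 1) ^ q ≤ 2 ^ j * (2 * a - 1) ^ q := by gcongr
      _ = (2 ^ j * (2 * a - 1) ^ (2 * a * j)) * (2 * a - 1) ^ r := by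
        conv_lhs => rw [e3, pow_add]
        ring
      _ ≤ (2 * a) ^ (2 * a * j) * (2 * a) ^ r := Nat.mul_le_mul e4 e5
      _ = (2 * a) ^ q := by rw [← pow_add, ← e3]
  rcases andr_lower q a (a ^ 2) (2 * a) t d hq (by omega) (by omega)
    (Nat.one_le_pow _ _ (by omega)) (by omega) hcount (by omega) h with h3 | h3
  · have e1 : (a ^ 4) ^ a ≤ 2 * t * (a ^ 2) ^ a := (Nat.pow_le_pow_left h1.le a).trans h3
    have e2 : (a ^ 4) ^ a = (a ^ 2) ^ a * (a ^ 2) ^ a := by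
      rw [← mul_pow]
      congr 1
      ring
    rw [e2] at e1
    have e3 : 0 < (a ^ 2) ^ a := by positivity
    have e4 := Nat.le_of_mul_le_mul_right e1 e3
    have e5 : 2 * 2 ^ a ≤ (a ^ 2) ^ a := by
      calc 2 * 2 ^ a ≤ 2 ^ a * 2 ^ a := by
            gcongr
            calc 2 = 2 ^ 1 := rfl
              _ ≤ 2 ^ a := Nat.pow_le_pow_right (by norm_num) (by omega)
        _ = 4 ^ a := by
          rw [← mul_pow]
          norm_num
        _ ≤ (a ^ 2) ^ a := by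
          apply Nat.pow_le_pow_left
          nlinarith
    omega
  · have e1 : 2 ^ (a ^ 2 + 1) * (a - 1) ^ (a ^ 2 + 1) ≤ 2 * t * (a - 1) ^ (a ^ 2 + 1) := by
      refine le_trans ?_ h3
      rw [← mul_pow]
      exact Nat.pow_le_pow_left (by omega) _
    have e3 : 0 < (a - 1) ^ (a ^ 2 + 1) := Nat.pow_pos (by omega)
    have e4 := Nat.le_of_mul_le_mul_right e1 e3
    have e5 : 2 * 2 ^ a ≤ 2 ^ (a ^ 2 + 1) := by
      rw [← pow_succ']
      exact Nat.pow_le_pow_right (by norm_num) (by omega)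
    omega

end Pool.Agent.FewNeg
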