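import Mathlib
import Pool.Agent.FewNeg.LDefs

/-!
# Elementary facts on projections, monotone formulas and the query game
-/

set_option autoImplicit false

namespace Pool.Agent.FewNeg

theorem MD.mono {ι : Type} {d e : ℕ} {f : BF ι} (h : MD d f) (hde : d ≤ e) : MD e f := by
  induction hde with
  | refl => exact h
  | step _ ih => exact MD.succ ih

/-- The gates of a circuit without NOT gates are computed by monotone formulas of the same
depth. -/
theorem SLP.md {ι : Type} {L : List (BF ι × ℕ)} {s t : ℕ} (h : SLP L s t) (ht : t = 0) :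
    ∀ p ∈ L, MD p.2 p.1 := by
  induction h with
  | nil => simp
  | var i _ ih =>
    intro p hp
    rcases List.mem_cons.1 hp with rfl | hp
    · exact MD.var i
    · exact ih ht p hp
  | const b _ ih =>
    intro p hp
    rcases List.mem_cons.1 hp with rfl | hp
    · exact MD.const b
    · exact ih ht p hp
  | and _ hf hg ih =>
    intro p hp
    rcases List.mem_cons.1 hp with rfl | hp
    · exact MD.and ((ih ht _ hf).mono (le_max_left _ _)) ((ih ht _ hg).mono (le_max_right _ _))
    · exact ih ht p hp
  | or _ hf hg ih =>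
    intro p hp
    rcases List.mem_cons.1 hp with rfl | hp
    · exact MD.or ((ih ht _ hf).mono (le_max_left _ _)) ((ih ht _ hg).mono (le_max_right _ _))
    · exact ih ht p hp
  | not _ hf ih => omega

theorem Computes.md {ι : Type} {s d : ℕ} {f : BF ι} (h : Computes s d 0 f) : MD d f := by
  obtain ⟨L, s', d', t', h1, h2, h3, h4, h5⟩ := h
  exact (h1.md (by omega) _ h2).mono h4

section pr

variable {V α : Type} [DecidableEq V]

theorem pr_eq_iff {I : Finset V} {a b : V → α} : pr I a = pr I b ↔ ∀ v ∈ I, a v = b v := by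
  constructor
  · intro h v hv
    have := congrFun h v
    simpa [pr, hv] using this
  · intro h
    funext v
    unfold pr
    split_ifs with hv
    · rw [h v hv]
    · rfl

theorem pr_erase_eq_iff {I : Finset V} {i : V} (hi : i ∈ I) {a b : V → α} :
    pr I a = pr I b ↔ pr (I.erase i) a = pr (I.erase i) b ∧ a i = b i := by
  rw [pr_eq_iff, pr_eq_iff]
  constructor
  · intro h
    exact ⟨fun v hv => h v (Finset.mem_of_mem_erase hv), h i hi⟩
  · rintro ⟨h1, h2⟩ v hv
    by_cases hvi : v = i
    · rw [hvi]; exact h2
    · exact h1 v (Finset.mem_erase.2 ⟨hvi, hv⟩)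

theorem pr_mono {I J : Finset V} (hJI : J ⊆ I) {a b : V → α} (h : pr I a = pr I b) :
    pr J a = pr J b := by
  rw [pr_eq_iff] at h ⊢
  exact fun v hv => h v (hJI hv)

variable [Fintype V] [DecidableEq α]

theorem card_image_pr_le [Fintype α] (I : Finset V) (A : Finset (V → α)) :
    (A.image (pr I)).card ≤ Fintype.card α ^ I.card := by
  have h1 : Fintype.card (↥I → α) = Fintype.card α ^ I.card := by simp
  rw [← h1]
  have h2 : (A.image (pr I)).card ≤ (A.image (fun a => fun v : I => a v.1)).card := by
    classical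
    refine Finset.card_le_card_of_surjOn (fun g => fun v => if hv : v ∈ I then some (g ⟨v, hv⟩)
      else none) ?_
    intro x hx
    rw [Finset.mem_coe, Finset.mem_image] at hx
    obtain ⟨a, ha, rfl⟩ := hx
    refine ⟨fun v : I => a v.1, ?_, ?_⟩
    · rw [Finset.mem_coe, Finset.mem_image]; exact ⟨a, ha, rfl⟩
    · funext v; unfold pr; simp
  exact h2.trans (Finset.card_le_univ _)

theorem card_image_pr_erase_le (I : Finset V) (i : V) (A : Finset (V → α)) :
    (A.image (pr (I.erase i))).card ≤ (A.image (pr I)).card := by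
  classical
  refine Finset.card_le_card_of_surjOn (fun x => fun v => if v = i then none else x v) ?_
  intro x hx
  rw [Finset.mem_coe, Finset.mem_image] at hx
  obtain ⟨a, ha, rfl⟩ := hx
  refine ⟨pr I a, ?_, ?_⟩
  · rw [Finset.mem_coe, Finset.mem_image]; exact ⟨a, ha, rfl⟩
  · funext v
    unfold pr
    by_cases hv : v = i <;> simp [hv]

end pr

section Surv

variable {V : Type} [DecidableEq V] {Bad : (V → Option Bool) → Prop}

theorem Surv.not_bad {r : ℕ} {ρ : V → Option Bool} (h : Surv Bad r ρ) : ¬ Bad ρ := by
  cases r with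
  | zero => exact h
  | succ r => exact h.1

theorem Surv.succ {r : ℕ} : ∀ {ρ : V → Option Bool}, Surv Bad (r + 1) ρ → Surv Bad r ρ := by
  induction r with
  | zero => intro ρ h; exact h.1
  | succ r ih =>
    intro ρ h
    refine ⟨h.1, fun v hv => ?_⟩
    obtain ⟨b, hb⟩ := h.2 v hv
    exact ⟨b, ih hb⟩

theorem Surv.mono {r r' : ℕ} {ρ : V → Option Bool} (h : Surv Bad r ρ) (hr : r' ≤ r) :
    Surv Bad r' ρ := by
  induction hr with
  | refl => exact h
  | step _ ih => exact ih h.succ

end Surv

end Pool.Agent.FewNeg
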