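import Mathlib
import Pool.Agent.FewNeg.LBasic

/-!
# The adversary on the pyramid
-/

set_option autoImplicit false

namespace Pool.Agent.FewNeg

open Pool.Agent.Thrift

/-- the nodes answered true -/
private noncomputable def TS {h : ℕ} (ρ : Nd h → Option Bool) : Finset (Nd h) :=
  Finset.univ.filter (fun v => ρ v = some true)

private theorem mem_TS {h : ℕ} {ρ : Nd h → Option Bool} {v : Nd h} :
    v ∈ TS ρ ↔ ρ v = some true := by
  simp [TS]

private theorem can_of_bad {h : ℕ} {ρ : Nd h → Option Bool} (hb : PBad ρ) :
    ρ (root h) = some true ∨ ∃ c, (c = root h ∨ ρ c = some false) ∧ Can 0 (TS ρ) c := by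
  rcases hb with ⟨v, h1, h2⟩ | ⟨v, _, h2, h3, h4⟩ | h1
  · refine Or.inr ⟨v, Or.inr h2, Can.base _ _ _ fun u hu => ?_⟩
    exact absurd h1 (mem_ch.1 hu).1
  · refine Or.inr ⟨v, Or.inr h2, Can.base _ _ _ fun u hu => ?_⟩
    rcases (mem_ch.1 hu).2 with rfl | rfl
    · exact mem_TS.2 h3
    · exact mem_TS.2 h4
  · exact Or.inl h1

private theorem can_of_not_surv {h : ℕ} : ∀ (r : ℕ) (ρ : Nd h → Option Bool),
    ¬ Surv (V := Nd h) PBad r ρ →
    ρ (root h) = some true ∨ ∃ c, (c = root h ∨ ρ c = some false) ∧ Can r (TS ρ) c := by
  intro r
  induction r with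
  | zero =>
    intro ρ hs
    exact can_of_bad (not_not.1 hs)
  | succ r ih =>
    intro ρ hs
    by_cases hb : PBad ρ
    · rcases can_of_bad hb with h1 | ⟨c, h1, h2⟩
      · exact Or.inl h1
      · exact Or.inr ⟨c, h1, h2.mono (Nat.zero_le _) (Finset.Subset.refl _)⟩
    · have h1 : ∃ v, ρ v = none ∧ ∀ b : Bool, ¬ Surv PBad r (Function.update ρ v (some b)) := by
        by_contra hcon
        push Not at hcon
        exact hs ⟨hb, hcon⟩
      obtain ⟨v, hv, hv2⟩ := h1
      have hT0 : TS (Function.update ρ v (some false)) = TS ρ := by
        ext x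
        rw [mem_TS, mem_TS]
        by_cases hx : x = v
        · rw [hx, Function.update_self, hv]
          simp
        · rw [Function.update_of_ne hx]
      have hT1 : TS (Function.update ρ v (some true)) = insert v (TS ρ) := by
        ext x
        rw [Finset.mem_insert, mem_TS, mem_TS]
        by_cases hx : x = v
        · rw [hx, Function.update_self]
          simp
        · rw [Function.update_of_ne hx]
          simp [hx]
      -- the answer false
      rcases ih _ (hv2 false) with g1 | ⟨c, g1, g2⟩
      · by_cases hx : root h = v
        · rw [hx, Function.update_self] at g1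
          simp at g1
        · rw [Function.update_of_ne hx] at g1
          exact Or.inl g1
      rw [hT0] at g2
      by_cases hc : c = root h ∨ ρ c = some false
      · exact Or.inr ⟨c, hc, g2.mono (Nat.le_succ _) (Finset.Subset.refl _)⟩
      have hcv : c = v := by
        by_contra hne
        rw [Function.update_of_ne hne] at g1
        exact hc g1
      subst hcv
      -- the answer true
      rcases ih _ (hv2 true) with k1 | ⟨c', k1, k2⟩
      · by_cases hx : root h = c
        · exact absurd (Or.inl hx.symm) hc
        · rw [Function.update_of_ne hx] at k1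
          exact Or.inl k1
      rw [hT1] at k2
      refine Or.inr ⟨c', ?_, Can.step _ _ c _ g2 k2⟩
      rcases k1 with k1 | k1
      · exact Or.inl k1
      · by_cases hx : c' = c
        · rw [hx, Function.update_self] at k1
          simp at k1
        · rw [Function.update_of_ne hx] at k1
          exact Or.inr k1

/-- On the pyramid of height `h` an adversary survives `h - 1` queries. -/
theorem surv_pyramid {h d : ℕ} (hd : d < h) : Surv (V := Nd h) PBad d (fun _ => none) := by
  by_contra hs
  rcases can_of_not_surv d _ hs with h1 | ⟨c, h1, h2⟩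
  · simp at h1
  · have hT : TS (fun _ : Nd h => (none : Option Bool)) = ∅ := by
      ext x
      simp [mem_TS]
    rw [hT] at h2
    rcases h1 with rfl | h1
    · have := can_root h2
      omega
    · simp at h1

end Pool.Agent.FewNeg
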