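import Mathlib
import Pool.Agent.FewNeg.LBasic

/-!
# A random short sequence of positions: a dense set of words contains a word which is constant on it
-/

set_option autoImplicit false

namespace Pool.Agent.FewNeg

/-- The number of missed sequences of length `K + 1` as a sum over the first position. -/
private theorem card_succ {M K : ℕ} (c : Bool) (E : Finset (Fin M → Bool)) :
    (Finset.univ.filter (fun u : Fin (K + 1) → Fin M => ∀ v ∈ E, ∃ j, v (u j) ≠ c)).card =
      ∑ a : Fin M, (Finset.univ.filter (fun u : Fin K → Fin M =>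
        ∀ v ∈ E.filter (fun v => v a = c), ∃ j, v (u j) ≠ c)).card := by
  classical
  rw [Finset.card_filter, ← (Fin.consEquiv (fun _ => Fin M)).sum_comp, Fintype.sum_prod_type]
  refine Finset.sum_congr rfl fun a _ => ?_
  rw [Finset.card_filter]
  refine Finset.sum_congr rfl fun u _ => ?_
  refine if_congr ?_ rfl rfl
  constructor
  · intro h v hv
    rw [Finset.mem_filter] at hv
    obtain ⟨j, hj⟩ := h v hv.1
    induction j using Fin.cases with
    | zero => exact absurd hv.2 hj
    | succ j => exact ⟨j, hj⟩
  · intro h v hv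
    by_cases h1 : v a = c
    · obtain ⟨j, hj⟩ := h v (Finset.mem_filter.2 ⟨hv, h1⟩)
      exact ⟨j.succ, hj⟩
    · exact ⟨0, h1⟩

/-- The number of words which avoid `c` on `R`. -/
private theorem card_avoid {M : ℕ} (c : Bool) (R : Finset (Fin M)) (E : Finset (Fin M → Bool))
    (h : ∀ v ∈ E, ∀ a ∈ R, v a ≠ c) : E.card * 2 ^ R.card ≤ 2 ^ M := by
  classical
  have h1 : E.card ≤ Fintype.card ({a : Fin M // ¬ a ∈ R} → Bool) := by
    rw [← Finset.card_univ]
    refine Finset.card_le_card_of_injOn (fun v a => v a.1) (fun v _ => Finset.mem_univ _) ?_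
    intro v hv w hw hvw
    funext a
    by_cases ha : a ∈ R
    · have h2 := h v hv a ha
      have h3 := h w hw a ha
      revert h2 h3
      cases v a <;> cases w a <;> cases c <;> simp
    · exact congrFun hvw ⟨a, ha⟩
  have h2 : R.card ≤ M := by simpa using R.card_le_univ
  rw [Fintype.card_fun, Fintype.card_bool, Fintype.card_subtype_compl, Fintype.card_coe,
    Fintype.card_fin] at h1
  calc E.card * 2 ^ R.card ≤ 2 ^ (M - R.card) * 2 ^ R.card := Nat.mul_le_mul_right _ h1
    _ = 2 ^ M := by rw [← pow_add, Nat.sub_add_cancel h2]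

/-- There are few positions at which few words have the value `c`. -/
private theorem card_rare {M : ℕ} (c : Bool) (D : ℕ) (E : Finset (Fin M → Bool))
    (hE : 2 ^ M ≤ E.card * 2 ^ D) :
    (Finset.univ.filter (fun a : Fin M =>
      (E.filter (fun v => v a = c)).card * (2 * M) < E.card)).card ≤ D := by
  classical
  set R := Finset.univ.filter (fun a : Fin M =>
    (E.filter (fun v => v a = c)).card * (2 * M) < E.card) with hR
  rcases R.eq_empty_or_nonempty with h0 | h0
  · rw [h0, Finset.card_empty]
    exact Nat.zero_le _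
  set E1 := E.filter (fun v => ∃ a ∈ R, v a = c) with hE1
  set E2 := E.filter (fun v => ¬ ∃ a ∈ R, v a = c) with hE2
  have hsum : E1.card + E2.card = E.card := Finset.card_filter_add_card_filter_not _
  have h1 : E1.card ≤ ∑ a ∈ R, (E.filter (fun v => v a = c)).card := by
    have h2 : E1 ⊆ R.biUnion fun a => E.filter (fun v => v a = c) := by
      intro v hv
      obtain ⟨hv1, a, ha, hva⟩ := Finset.mem_filter.1 hv
      exact Finset.mem_biUnion.2 ⟨a, ha, Finset.mem_filter.2 ⟨hv1, hva⟩⟩
    exact (Finset.card_le_card h2).trans Finset.card_biUnion_le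
  have h2 : (∑ a ∈ R, (E.filter (fun v => v a = c)).card) * (2 * M) < R.card * E.card := by
    rw [Finset.sum_mul, ← smul_eq_mul (R.card), ← Finset.sum_const]
    exact Finset.sum_lt_sum_of_nonempty h0 fun a ha => (Finset.mem_filter.1 ha).2
  have hRM : R.card ≤ M := by simpa using R.card_le_univ
  have h3 : E1.card * 2 < E.card := by
    have h4 : E1.card * (2 * M) < M * E.card :=
      lt_of_le_of_lt (Nat.mul_le_mul_right _ h1) (lt_of_lt_of_le h2 (Nat.mul_le_mul_right _ hRM))
    nlinarith
  have h5 : E2.card * 2 ^ R.card ≤ 2 ^ M := by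
    refine card_avoid c R E2 fun v hv a ha hva => ?_
    exact (Finset.mem_filter.1 hv).2 ⟨a, ha, hva⟩
  have h6 : E.card < 2 * E2.card := by omega
  by_contra hcon
  push Not at hcon
  have h7 : 2 ^ (D + 1) ≤ 2 ^ R.card := Nat.pow_le_pow_right (by norm_num) hcon
  have h8 : E2.card * 2 ^ (D + 1) ≤ 2 ^ M := (Nat.mul_le_mul_left _ h7).trans h5
  rw [pow_succ] at h8
  have h9 : 0 < 2 ^ D := by positivity
  nlinarith

/-- If `E` has density at least `2 ^ (-Δ)` then for all but a small fraction of the sequences `u`
of positions, some `v` in `E` has the value `c` at all positions of `u`. -/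
theorem hit (M μ : ℕ) (hM : 1 ≤ M) (hμ : M ≤ 2 ^ μ) (c : Bool) :
    ∀ (K Δ : ℕ) (E : Finset (Fin M → Bool)), 2 ^ M ≤ E.card * 2 ^ Δ →
      M * (Finset.univ.filter (fun u : Fin K → Fin M => ∀ v ∈ E, ∃ j, v (u j) ≠ c)).card ≤
        M ^ K * (K * (Δ + 1 + K * (1 + μ))) := by
  classical
  intro K
  induction K with
  | zero =>
    intro D E hE
    have h1 : E.Nonempty := by
      rw [← Finset.card_pos]
      by_contra hcon
      have h2 : E.card = 0 := by omega
      rw [h2, zero_mul] at hE
      have h3 : 0 < 2 ^ M := by positivity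
      omega
    obtain ⟨v, hv⟩ := h1
    have h2 : (Finset.univ.filter (fun u : Fin 0 → Fin M => ∀ v ∈ E, ∃ j, v (u j) ≠ c)) = ∅ := by
      rw [Finset.filter_eq_empty_iff]
      intro u _ h
      obtain ⟨j, _⟩ := h v hv
      exact j.elim0
    rw [h2]
    simp
  | succ K ih =>
    intro D E hE
    rw [card_succ, Finset.mul_sum]
    set R := Finset.univ.filter (fun a : Fin M =>
      (E.filter (fun v => v a = c)).card * (2 * M) < E.card) with hR
    have hRD : R.card ≤ D := card_rare c D E hE
    have h1 : ∀ a : Fin M, M * (Finset.univ.filter (fun u : Fin K → Fin M =>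
        ∀ v ∈ E.filter (fun v => v a = c), ∃ j, v (u j) ≠ c)).card ≤
        (if a ∈ R then M ^ (K + 1) else 0) + M ^ K * (K * (D + 1 + μ + 1 + K * (1 + μ))) := by
      intro a
      by_cases ha : a ∈ R
      · rw [if_pos ha]
        have h2 : (Finset.univ.filter (fun u : Fin K → Fin M =>
            ∀ v ∈ E.filter (fun v => v a = c), ∃ j, v (u j) ≠ c)).card ≤ M ^ K := by
          refine (Finset.card_le_univ _).trans ?_
          rw [Fintype.card_fun, Fintype.card_fin, Fintype.card_fin]
        calc M * (Finset.univ.filter (fun u : Fin K → Fin M =>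
            ∀ v ∈ E.filter (fun v => v a = c), ∃ j, v (u j) ≠ c)).card
            ≤ M * M ^ K := Nat.mul_le_mul_left _ h2
          _ = M ^ (K + 1) := (pow_succ' M K).symm
          _ ≤ _ := Nat.le_add_right _ _
      · rw [if_neg ha, zero_add]
        have h2 : E.card ≤ (E.filter (fun v => v a = c)).card * (2 * M) := by
          by_contra hcon
          push Not at hcon
          exact ha (Finset.mem_filter.2 ⟨Finset.mem_univ a, hcon⟩)
        have h3 := ih (D + 1 + μ) (E.filter (fun v => v a = c)) (by
          calc 2 ^ M ≤ E.card * 2 ^ D := hE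
            _ ≤ ((E.filter (fun v => v a = c)).card * (2 * M)) * 2 ^ D :=
                Nat.mul_le_mul_right _ h2
            _ ≤ ((E.filter (fun v => v a = c)).card * (2 * 2 ^ μ)) * 2 ^ D :=
                Nat.mul_le_mul_right _ (Nat.mul_le_mul_left _ (Nat.mul_le_mul_left _ hμ))
            _ = (E.filter (fun v => v a = c)).card * 2 ^ (D + 1 + μ) := by ring)
        exact h3
    refine (Finset.sum_le_sum fun a _ => h1 a).trans ?_
    rw [Finset.sum_add_distrib, Finset.sum_ite_mem, Finset.univ_inter, Finset.sum_const,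
      Finset.sum_const, Finset.card_univ, Fintype.card_fin, smul_eq_mul, smul_eq_mul]
    have h4 : M ^ (K + 1) = M * M ^ K := pow_succ' M K
    calc R.card * M ^ (K + 1) + M * (M ^ K * (K * (D + 1 + μ + 1 + K * (1 + μ))))
        = M ^ (K + 1) * (R.card + K * (D + 1 + μ + 1 + K * (1 + μ))) := by
          rw [h4]
          ring
      _ ≤ M ^ (K + 1) * ((K + 1) * (D + 1 + (K + 1) * (1 + μ))) := by
          refine Nat.mul_le_mul_left _ ?_
          nlinarith

end Pool.Agent.FewNeg
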