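import Mathlib
import Pool.Agent.FewNeg.LHit

/-!
# The projection lemma
-/

set_option autoImplicit false

namespace Pool.Agent.FewNeg

variable {V : Type} [DecidableEq V] [Fintype V] {M D K μ : ℕ}

/-- the values of coordinate `i` over `x` -/
private def lval {α : Type} [DecidableEq α] (I : Finset V) (i : V) (A : Finset (V → α))
    (x : V → Option α) : Finset α :=
  (A.filter (fun a => pr (I.erase i) a = x)).image (fun a => a i)

omit [Fintype V] in
private theorem mem_lval [Fintype V] {α : Type} [DecidableEq α] {I : Finset V} {i : V}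
    {A : Finset (V → α)} {x : V → Option α} {s : α} :
    s ∈ lval I i A x ↔ ∃ a ∈ A, pr (I.erase i) a = x ∧ a i = s := by
  unfold lval
  simp only [Finset.mem_image, Finset.mem_filter]
  constructor
  · rintro ⟨a, ⟨h1, h2⟩, h3⟩
    exact ⟨a, h1, h2, h3⟩
  · rintro ⟨a, h1, h2, h3⟩
    exact ⟨a, ⟨h1, h2⟩, h3⟩

private theorem pr_ext {α : Type} {I : Finset V} {i : V} (hi : i ∈ I) (a : V → α) :
    pr I a = fun v => if v = i then some (a i) else pr (I.erase i) a v := by
  funext v
  by_cases hv : v = i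
  · subst hv
    simp [pr, hi]
  · simp [pr, hv]

private theorem card_fiber {α : Type} [DecidableEq α] {I : Finset V} {i : V} (hi : i ∈ I)
    (A : Finset (V → α)) (x : V → Option α) :
    ((A.filter (fun a => pr (I.erase i) a = x)).image (pr I)).card ≤ (lval I i A x).card := by
  have h : (A.filter (fun a => pr (I.erase i) a = x)).image (pr I) ⊆
      (lval I i A x).image (fun s => fun v => if v = i then some s else x v) := by
    intro y hy
    obtain ⟨a, ha, rfl⟩ := Finset.mem_image.1 hy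
    rw [Finset.mem_filter] at ha
    refine Finset.mem_image.2 ⟨a i, mem_lval.2 ⟨a, ha.1, ha.2, rfl⟩, ?_⟩
    rw [pr_ext hi a, ha.2]
  exact (Finset.card_le_card h).trans Finset.card_image_le

private theorem card_sum {α : Type} [DecidableEq α] {I : Finset V} {i : V} (hi : i ∈ I)
    (B : Finset (V → α)) :
    (B.image (pr I)).card ≤ ∑ y ∈ B.image (pr (I.erase i)), (lval I i B y).card := by
  have h : B.image (pr I) ⊆ (B.image (pr (I.erase i))).biUnion (fun y =>
      (lval I i B y).image (fun s => fun v => if v = i then some s else y v)) := by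
    intro y hy
    obtain ⟨b, hb, rfl⟩ := Finset.mem_image.1 hy
    refine Finset.mem_biUnion.2 ⟨pr (I.erase i) b, Finset.mem_image_of_mem _ hb, ?_⟩
    refine Finset.mem_image.2 ⟨b i, mem_lval.2 ⟨b, hb, rfl, rfl⟩, ?_⟩
    rw [pr_ext hi b]
  refine (Finset.card_le_card h).trans (Finset.card_biUnion_le.trans ?_)
  exact Finset.sum_le_sum fun y _ => Finset.card_image_le

/-- the sequences which avoid a set -/
private theorem card_avoid (F : Finset (Fin M)) :
    (Finset.univ.filter (fun u : Fin K → Fin M => ∀ j, u j ∉ F)).card = (M - F.card) ^ K := by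
  have h : (Finset.univ.filter (fun u : Fin K → Fin M => ∀ j, u j ∉ F)) =
      Fintype.piFinset (fun _ : Fin K => Fᶜ) := by
    ext u
    simp [Fintype.mem_piFinset]
  rw [h, Fintype.card_piFinset]
  simp [Finset.card_compl]

private theorem partA (P : Params (Fintype.card V) M D K μ) (I : Finset V) (i : V) (hi : i ∈ I)
    (A : Finset (V → Fin M)) (hA : Thick I A) :
    4 * (Finset.univ.filter (fun u : Fin K → Fin M => ∃ x ∈ A.image (pr (I.erase i)),
      ∀ j, u j ∉ lval I i A x)).card ≤ M ^ K := by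
  set n := Fintype.card V with hn
  have hn1 := P.n_pos
  have hone : ∀ x ∈ A.image (pr (I.erase i)), (32 * n) ^ K *
      (Finset.univ.filter (fun u : Fin K → Fin M => ∀ j, u j ∉ lval I i A x)).card ≤
      ((32 * n - 1) * M) ^ K := by
    intro x hx
    obtain ⟨a, ha, rfl⟩ := Finset.mem_image.1 hx
    rw [card_avoid, ← mul_pow]
    apply Nat.pow_le_pow_left
    have h1 := hA i hi a ha
    have h2 := card_fiber hi A (pr (I.erase i) a)
    have h3 : M ≤ 32 * n * (lval I i A (pr (I.erase i) a)).card :=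
      h1.trans (Nat.mul_le_mul_left _ h2)
    rw [Nat.mul_sub, Nat.sub_mul, one_mul]
    exact Nat.sub_le_sub_left h3 _
  have hsum : (32 * n) ^ K * (Finset.univ.filter (fun u : Fin K → Fin M =>
      ∃ x ∈ A.image (pr (I.erase i)), ∀ j, u j ∉ lval I i A x)).card ≤
      M ^ n * ((32 * n - 1) * M) ^ K := by
    have h1 : (Finset.univ.filter (fun u : Fin K → Fin M =>
        ∃ x ∈ A.image (pr (I.erase i)), ∀ j, u j ∉ lval I i A x)) ⊆
        (A.image (pr (I.erase i))).biUnion (fun x =>
          Finset.univ.filter (fun u : Fin K → Fin M => ∀ j, u j ∉ lval I i A x)) := by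
      intro u hu
      obtain ⟨x, hx, h⟩ := (Finset.mem_filter.1 hu).2
      exact Finset.mem_biUnion.2 ⟨x, hx, Finset.mem_filter.2 ⟨Finset.mem_univ _, h⟩⟩
    have h2 := (Finset.card_le_card h1).trans Finset.card_biUnion_le
    calc _ ≤ (32 * n) ^ K * ∑ x ∈ A.image (pr (I.erase i)),
          (Finset.univ.filter (fun u : Fin K → Fin M => ∀ j, u j ∉ lval I i A x)).card :=
            Nat.mul_le_mul_left _ h2
      _ = ∑ x ∈ A.image (pr (I.erase i)), (32 * n) ^ K *
          (Finset.univ.filter (fun u : Fin K → Fin M => ∀ j, u j ∉ lval I i A x)).card :=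
            Finset.mul_sum _ _ _
      _ ≤ ∑ _x ∈ A.image (pr (I.erase i)), ((32 * n - 1) * M) ^ K := Finset.sum_le_sum hone
      _ = (A.image (pr (I.erase i))).card * ((32 * n - 1) * M) ^ K := by
            rw [Finset.sum_const, smul_eq_mul]
      _ ≤ M ^ n * ((32 * n - 1) * M) ^ K := by
            apply Nat.mul_le_mul_right
            have h3 := card_image_pr_le (I.erase i) A
            rw [Fintype.card_fin] at h3
            refine h3.trans (Nat.pow_le_pow_right (by have := P.M_gt; omega) ?_)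
            exact Finset.card_le_univ _
  have hpos : 0 < (32 * n) ^ K := pow_pos (by omega) K
  refine le_of_mul_le_mul_left ?_ hpos
  calc (32 * n) ^ K * (4 * (Finset.univ.filter (fun u : Fin K → Fin M =>
        ∃ x ∈ A.image (pr (I.erase i)), ∀ j, u j ∉ lval I i A x)).card)
      = 4 * ((32 * n) ^ K * (Finset.univ.filter (fun u : Fin K → Fin M =>
        ∃ x ∈ A.image (pr (I.erase i)), ∀ j, u j ∉ lval I i A x)).card) := by ring
    _ ≤ 4 * (M ^ n * ((32 * n - 1) * M) ^ K) := Nat.mul_le_mul_left _ hsum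
    _ = (4 * M ^ n * (32 * n - 1) ^ K) * M ^ K := by rw [mul_pow]; ring
    _ ≤ (32 * n) ^ K * M ^ K := Nat.mul_le_mul_right _ P.hitA

private theorem partB (P : Params (Fintype.card V) M D K μ) (I : Finset V) (i : V) (hi : i ∈ I)
    (B : Finset (V → Fin M → Bool)) (Δ : ℕ) (hΔ : Δ ≤ 3 * D)
    (hB : 2 ^ (M * I.card) ≤ (B.image (pr I)).card * 2 ^ Δ) (c : Bool) :
    2 * (Finset.univ.filter (fun u : Fin K → Fin M => ¬ (2 ^ (M * (I.card - 1)) ≤
      ((B.filter (fun b => ∀ j, b i (u j) = c)).image (pr (I.erase i))).card *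
        2 ^ (Δ + 2)))).card ≤ M ^ K := by
  classical
  set Y := B.image (pr (I.erase i)) with hY
  set G := Y.filter (fun y => 2 ^ M ≤ (lval I i B y).card * 2 ^ (Δ + 1)) with hG
  have hIc : I.card = (I.card - 1) + 1 := by
    have : 0 < I.card := Finset.card_pos.2 ⟨i, hi⟩
    omega
  have hIe : (I.erase i).card = I.card - 1 := Finset.card_erase_of_mem hi
  have hcardW : Fintype.card (Fin M → Bool) = 2 ^ M := by simp
  -- the set `G` is large
  have hGbig : 2 ^ (M * (I.card - 1)) ≤ G.card * 2 ^ (Δ + 1) := by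
    have h1 : (B.image (pr I)).card ≤ G.card * 2 ^ M +
        ∑ y ∈ Y.filter (fun y => ¬ 2 ^ M ≤ (lval I i B y).card * 2 ^ (Δ + 1)),
          (lval I i B y).card := by
      refine (card_sum hi B).trans ?_
      rw [← hY, ← Finset.sum_filter_add_sum_filter_not Y
        (fun y => 2 ^ M ≤ (lval I i B y).card * 2 ^ (Δ + 1))]
      apply Nat.add_le_add_right
      calc ∑ y ∈ G, (lval I i B y).card ≤ ∑ _y ∈ G, 2 ^ M := by
            refine Finset.sum_le_sum fun y _ => ?_
            rw [← hcardW]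
            exact Finset.card_le_univ _
        _ = G.card * 2 ^ M := by rw [Finset.sum_const, smul_eq_mul]
    have h2 : (∑ y ∈ Y.filter (fun y => ¬ 2 ^ M ≤ (lval I i B y).card * 2 ^ (Δ + 1)),
        (lval I i B y).card) * 2 ^ (Δ + 1) ≤ 2 ^ (M * (I.card - 1)) * 2 ^ M := by
      rw [Finset.sum_mul]
      calc _ ≤ ∑ _y ∈ Y.filter (fun y => ¬ 2 ^ M ≤ (lval I i B y).card * 2 ^ (Δ + 1)),
            2 ^ M := by
            refine Finset.sum_le_sum fun y hy => ?_
            exact (not_le.1 (Finset.mem_filter.1 hy).2).le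
        _ = (Y.filter (fun y => ¬ 2 ^ M ≤ (lval I i B y).card * 2 ^ (Δ + 1))).card * 2 ^ M := by
            rw [Finset.sum_const, smul_eq_mul]
        _ ≤ 2 ^ (M * (I.card - 1)) * 2 ^ M := by
            apply Nat.mul_le_mul_right
            refine (Finset.card_filter_le _ _).trans ?_
            have h3 := card_image_pr_le (I.erase i) B
            rw [hcardW, hIe, ← pow_mul] at h3
            exact h3
    have h3 : 2 ^ (M * I.card) = 2 ^ (M * (I.card - 1)) * 2 ^ M := by
      conv_lhs => rw [hIc]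
      rw [← pow_add]
      congr 1
    have h4 : 2 * 2 ^ (M * I.card) ≤ (B.image (pr I)).card * 2 ^ (Δ + 1) := by
      rw [pow_succ]
      calc 2 * 2 ^ (M * I.card) ≤ 2 * ((B.image (pr I)).card * 2 ^ Δ) :=
            Nat.mul_le_mul_left _ hB
        _ = _ := by ring
    have h5 : (B.image (pr I)).card * 2 ^ (Δ + 1) ≤ (G.card * 2 ^ (Δ + 1)) * 2 ^ M +
        2 ^ (M * (I.card - 1)) * 2 ^ M := by
      calc _ ≤ (G.card * 2 ^ M + ∑ y ∈ Y.filter (fun y => ¬ 2 ^ M ≤
            (lval I i B y).card * 2 ^ (Δ + 1)), (lval I i B y).card) * 2 ^ (Δ + 1) :=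
            Nat.mul_le_mul_right _ h1
        _ = (G.card * 2 ^ (Δ + 1)) * 2 ^ M + (∑ y ∈ Y.filter (fun y => ¬ 2 ^ M ≤
            (lval I i B y).card * 2 ^ (Δ + 1)), (lval I i B y).card) * 2 ^ (Δ + 1) := by ring
        _ ≤ _ := Nat.add_le_add_left h2 _
    have h6 : 2 ^ (M * (I.card - 1)) * 2 ^ M ≤ (G.card * 2 ^ (Δ + 1)) * 2 ^ M := by
      rw [h3] at h4
      have := h4.trans h5
      omega
    exact le_of_mul_le_mul_right h6 (pow_pos two_pos M)
  have hG0 : 0 < G.card := by
    by_contra h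
    have h0 : G.card = 0 := by omega
    rw [h0, zero_mul] at hGbig
    exact absurd hGbig (not_le.2 (pow_pos two_pos _))
  -- every element of `G` is missed by few sequences
  have hmiss : ∀ y ∈ G, 4 * (Finset.univ.filter (fun u : Fin K → Fin M =>
      ∀ v ∈ lval I i B y, ∃ j, v (u j) ≠ c)).card ≤ M ^ K := by
    intro y hy
    have hM := P.M_gt
    have h1 := hit M μ (by omega) P.M_le c K (Δ + 1) (lval I i B y) (Finset.mem_filter.1 hy).2
    have h2 : 4 * (K * (Δ + 1 + 1 + K * (1 + μ))) ≤ M := by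
      refine le_trans ?_ P.hitB
      apply Nat.mul_le_mul_left
      apply Nat.mul_le_mul_left
      omega
    refine le_of_mul_le_mul_left ?_ (show 0 < M by omega)
    calc M * (4 * (Finset.univ.filter (fun u : Fin K → Fin M =>
          ∀ v ∈ lval I i B y, ∃ j, v (u j) ≠ c)).card)
        = 4 * (M * (Finset.univ.filter (fun u : Fin K → Fin M =>
          ∀ v ∈ lval I i B y, ∃ j, v (u j) ≠ c)).card) := by ring
      _ ≤ 4 * (M ^ K * (K * (Δ + 1 + 1 + K * (1 + μ)))) := Nat.mul_le_mul_left _ h1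
      _ = M ^ K * (4 * (K * (Δ + 1 + 1 + K * (1 + μ)))) := by ring
      _ ≤ M ^ K * M := Nat.mul_le_mul_left _ h2
      _ = M * M ^ K := mul_comm _ _
  -- double counting
  have hdc : 4 * ∑ u : Fin K → Fin M, (G.filter (fun y =>
      ∀ v ∈ lval I i B y, ∃ j, v (u j) ≠ c)).card ≤ G.card * M ^ K := by
    have h1 : ∑ u : Fin K → Fin M, (G.filter (fun y =>
        ∀ v ∈ lval I i B y, ∃ j, v (u j) ≠ c)).card =
        ∑ y ∈ G, (Finset.univ.filter (fun u : Fin K → Fin M =>
          ∀ v ∈ lval I i B y, ∃ j, v (u j) ≠ c)).card := by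
      simp only [Finset.card_filter]
      exact Finset.sum_comm
    rw [h1, Finset.mul_sum]
    calc _ ≤ ∑ _y ∈ G, M ^ K := Finset.sum_le_sum hmiss
      _ = G.card * M ^ K := by rw [Finset.sum_const, smul_eq_mul]
  -- the bad sequences miss more than half of `G`
  have hbad : ∀ u : Fin K → Fin M, ¬ (2 ^ (M * (I.card - 1)) ≤
      ((B.filter (fun b => ∀ j, b i (u j) = c)).image (pr (I.erase i))).card * 2 ^ (Δ + 2)) →
      G.card ≤ 2 * (G.filter (fun y => ∀ v ∈ lval I i B y, ∃ j, v (u j) ≠ c)).card := by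
    intro u hu
    by_contra hcon
    apply hu
    have h1 : (G.filter (fun y => ¬ ∀ v ∈ lval I i B y, ∃ j, v (u j) ≠ c)) ⊆
        (B.filter (fun b => ∀ j, b i (u j) = c)).image (pr (I.erase i)) := by
      intro y hy
      have h2 := (Finset.mem_filter.1 hy).2
      push Not at h2
      obtain ⟨v, hv, hvc⟩ := h2
      obtain ⟨b, hb, h3, h4⟩ := mem_lval.1 hv
      refine Finset.mem_image.2 ⟨b, Finset.mem_filter.2 ⟨hb, fun j => ?_⟩, h3⟩
      rw [h4]
      exact hvc j
    have h2 := Finset.card_le_card h1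
    have h3 := Finset.card_filter_add_card_filter_not (s := G)
      (fun y => ∀ v ∈ lval I i B y, ∃ j, v (u j) ≠ c)
    have h4 : G.card ≤ 2 * ((B.filter (fun b => ∀ j, b i (u j) = c)).image
        (pr (I.erase i))).card := by omega
    calc 2 ^ (M * (I.card - 1)) ≤ G.card * 2 ^ (Δ + 1) := hGbig
      _ ≤ (2 * ((B.filter (fun b => ∀ j, b i (u j) = c)).image (pr (I.erase i))).card) *
          2 ^ (Δ + 1) := Nat.mul_le_mul_right _ h4
      _ = _ := by rw [pow_succ 2 (Δ + 1)]; ring
  set Bd := Finset.univ.filter (fun u : Fin K → Fin M => ¬ (2 ^ (M * (I.card - 1)) ≤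
      ((B.filter (fun b => ∀ j, b i (u j) = c)).image (pr (I.erase i))).card *
        2 ^ (Δ + 2))) with hBd
  have h1 : Bd.card * G.card ≤ 2 * ∑ u : Fin K → Fin M, (G.filter (fun y =>
      ∀ v ∈ lval I i B y, ∃ j, v (u j) ≠ c)).card := by
    calc Bd.card * G.card = ∑ _u ∈ Bd, G.card := by rw [Finset.sum_const, smul_eq_mul]
      _ ≤ ∑ u ∈ Bd, 2 * (G.filter (fun y => ∀ v ∈ lval I i B y, ∃ j, v (u j) ≠ c)).card :=
          Finset.sum_le_sum fun u hu => hbad u (Finset.mem_filter.1 hu).2
      _ ≤ ∑ u : Fin K → Fin M, 2 * (G.filter (fun y =>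
            ∀ v ∈ lval I i B y, ∃ j, v (u j) ≠ c)).card :=
          Finset.sum_le_sum_of_subset (Finset.subset_univ _)
      _ = _ := by rw [← Finset.mul_sum]
  have h2 : (2 * Bd.card) * G.card ≤ M ^ K * G.card := by
    calc (2 * Bd.card) * G.card = 2 * (Bd.card * G.card) := by ring
      _ ≤ 2 * (2 * ∑ u : Fin K → Fin M, (G.filter (fun y =>
            ∀ v ∈ lval I i B y, ∃ j, v (u j) ≠ c)).card) := Nat.mul_le_mul_left _ h1
      _ = 4 * ∑ u : Fin K → Fin M, (G.filter (fun y =>
            ∀ v ∈ lval I i B y, ∃ j, v (u j) ≠ c)).card := by ring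
      _ ≤ G.card * M ^ K := hdc
      _ = M ^ K * G.card := mul_comm _ _
  exact le_of_mul_le_mul_right h2 hG0

/-- The projection lemma: the value of coordinate `i` can be fixed to be `c`. -/
theorem proj_step (P : Params (Fintype.card V) M D K μ) (I : Finset V) (i : V) (hi : i ∈ I)
    (A : Finset (V → Fin M)) (B : Finset (V → Fin M → Bool)) (hA : Thick I A) (Δ : ℕ)
    (hΔ : Δ ≤ 3 * D) (hB : 2 ^ (M * I.card) ≤ (B.image (pr I)).card * 2 ^ Δ) (c : Bool) :
    ∃ u : Fin K → Fin M,
      (A.filter (fun a => ∃ j, a i = u j)).image (pr (I.erase i)) = A.image (pr (I.erase i)) ∧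
      2 ^ (M * (I.card - 1)) ≤
        ((B.filter (fun b => ∀ j, b i (u j) = c)).image (pr (I.erase i))).card * 2 ^ (Δ + 2) := by
  classical
  have h1 := partA P I i hi A hA
  have h2 := partB P I i hi B Δ hΔ hB c
  set SA := Finset.univ.filter (fun u : Fin K → Fin M => ∃ x ∈ A.image (pr (I.erase i)),
      ∀ j, u j ∉ lval I i A x) with hSA
  set SB := Finset.univ.filter (fun u : Fin K → Fin M => ¬ (2 ^ (M * (I.card - 1)) ≤
      ((B.filter (fun b => ∀ j, b i (u j) = c)).image (pr (I.erase i))).card *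
        2 ^ (Δ + 2))) with hSB
  have hMK : 0 < M ^ K := pow_pos (by have := P.M_gt; omega) K
  have hcard : (SA ∪ SB).card < (Finset.univ : Finset (Fin K → Fin M)).card := by
    have h3 := Finset.card_union_le SA SB
    rw [Finset.card_univ, Fintype.card_fun, Fintype.card_fin, Fintype.card_fin]
    omega
  obtain ⟨u, -, hu⟩ := Finset.exists_mem_notMem_of_card_lt_card hcard
  rw [Finset.mem_union, not_or] at hu
  refine ⟨u, ?_, ?_⟩
  · apply Finset.Subset.antisymm
    · exact Finset.image_subset_image (Finset.filter_subset _ _)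
    · intro x hx
      have h3 : ¬ ∃ x ∈ A.image (pr (I.erase i)), ∀ j, u j ∉ lval I i A x := fun h =>
        hu.1 (Finset.mem_filter.2 ⟨Finset.mem_univ _, h⟩)
      push Not at h3
      obtain ⟨j, hj⟩ := h3 x hx
      obtain ⟨a, ha, h4, h5⟩ := mem_lval.1 hj
      exact Finset.mem_image.2 ⟨a, Finset.mem_filter.2 ⟨ha, j, h5⟩, h4⟩
  · by_contra h3
    exact hu.2 (Finset.mem_filter.2 ⟨Finset.mem_univ _, h3⟩)

/-- Thickness is inherited by the projection. -/
theorem Thick.proj {I : Finset V} {i : V} (hi : i ∈ I) {A A' : Finset (V → Fin M)}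
    (hA : Thick I A) (hAA : A' ⊆ A)
    (he : A'.image (pr (I.erase i)) = A.image (pr (I.erase i))) : Thick (I.erase i) A' := by
  intro j hj a ha
  obtain ⟨hji, hjI⟩ := Finset.mem_erase.1 hj
  refine (hA j hjI a (hAA ha)).trans (Nat.mul_le_mul_left _ ?_)
  refine Finset.card_le_card_of_injOn (fun x => fun v => if v = i then none else x v) ?_ ?_
  · intro x hx
    rw [Finset.mem_coe] at hx ⊢
    obtain ⟨a1, ha1, rfl⟩ := Finset.mem_image.1 hx
    rw [Finset.mem_filter] at ha1
    have h1 : pr (I.erase i) a1 ∈ A'.image (pr (I.erase i)) := by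
      rw [he]
      exact Finset.mem_image_of_mem _ ha1.1
    obtain ⟨a2, ha2, h2⟩ := Finset.mem_image.1 h1
    have h3 : (fun v => if v = i then none else pr I a1 v) = pr (I.erase i) a1 := by
      funext v
      unfold pr
      by_cases hv : v = i <;> simp [hv]
    refine Finset.mem_image.2 ⟨a2, Finset.mem_filter.2 ⟨ha2, ?_⟩, h2.trans h3.symm⟩
    have h4 : pr ((I.erase i).erase j) a2 = pr ((I.erase i).erase j) a1 :=
      pr_mono (Finset.erase_subset _ _) h2
    have h5 : pr ((I.erase i).erase j) a1 = pr ((I.erase i).erase j) a :=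
      pr_mono (Finset.erase_subset_erase _ (Finset.erase_subset _ _)) ha1.2
    exact h4.trans h5
  · intro x hx y hy hxy
    rw [Finset.mem_coe] at hx hy
    obtain ⟨a1, ha1, rfl⟩ := Finset.mem_image.1 hx
    obtain ⟨a2, ha2, rfl⟩ := Finset.mem_image.1 hy
    rw [Finset.mem_filter] at ha1 ha2
    have hie : i ∈ I.erase j := Finset.mem_erase.2 ⟨Ne.symm hji, hi⟩
    have h1 := pr_eq_iff.1 ha1.2 i hie
    have h2 := pr_eq_iff.1 ha2.2 i hie
    refine (pr_erase_eq_iff hi).2 ⟨?_, h1.trans h2.symm⟩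
    rw [pr_eq_iff]
    intro v hv
    obtain ⟨hvi, hvI⟩ := Finset.mem_erase.1 hv
    have h3 := congrFun hxy v
    simpa [pr, hvi, hvI] using h3

end Pool.Agent.FewNeg
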