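import Mathlib
import Pool.Agent.FewNeg.LProj

/-!
# The states of the lifting argument, and the queries
-/

set_option autoImplicit false

namespace Pool.Agent.FewNeg

variable {V : Type} [DecidableEq V] [Fintype V] {M : ℕ}

/-- The state: `I` is the set of free coordinates, `ρ` are the answers for the others, `A × B` is
the present rectangle; `q` queries, `e` OR gates and `g` AND gates have been passed. -/
structure St (D : ℕ) (Bad : (V → Option Bool) → Prop) (I : Finset V) (ρ : V → Option Bool)
    (A : Finset (V → Fin M)) (B : Finset (V → Fin M → Bool)) (q e g : ℕ) : Prop where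
  free : ∀ v, v ∈ I ↔ ρ v = none
  out : ∀ v c, ρ v = some c → ∀ a ∈ A, ∀ b ∈ B, b v (a v) = c
  sizeA : M ^ I.card * 8 ^ q ≤ (A.image (pr I)).card * 4 ^ e
  sizeB : 2 ^ (M * I.card) ≤ (B.image (pr I)).card * 2 ^ (g + 2 * q)
  surv : Surv Bad (D - q) ρ
  le : e + g ≤ D

private theorem loop_aux {D K μ : ℕ} (P : Params (Fintype.card V) M D K μ)
    {Bad : (V → Option Bool) → Prop} : ∀ (n : ℕ)
    (I : Finset V) (ρ : V → Option Bool) (A : Finset (V → Fin M))
    (B : Finset (V → Fin M → Bool)) (q e g : ℕ), I.card = n → St D Bad I ρ A B q e g →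
    Thick I A → ∃ (I' : Finset V) (ρ' : V → Option Bool) (A' : Finset (V → Fin M))
      (B' : Finset (V → Fin M → Bool)) (q' : ℕ), A' ⊆ A ∧ B' ⊆ B ∧
        St D Bad I' ρ' A' B' q' e g ∧ Avg I' A' := by
  intro n
  induction n with
  | zero =>
    intro I ρ A B q e g hn hS hT
    refine ⟨I, ρ, A, B, q, Finset.Subset.refl _, Finset.Subset.refl _, hS, ?_⟩
    intro i hi
    rw [Finset.card_eq_zero.1 hn] at hi
    simp at hi
  | succ n ih =>
    intro I ρ A B q e g hn hS hT
    by_cases hAvg : Avg I A
    · exact ⟨I, ρ, A, B, q, Finset.Subset.refl _, Finset.Subset.refl _, hS, hAvg⟩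
    unfold Avg at hAvg
    push Not at hAvg
    obtain ⟨i, hi, hlt⟩ := hAvg
    have hcard : (I.erase i).card = n := by
      rw [Finset.card_erase_of_mem hi, hn]
      rfl
    have hle := card_image_pr_le (I.erase i) A
    rw [Fintype.card_fin, hcard] at hle
    have hM : 0 < M := by
      have := P.M_gt
      omega
    have hsA := hS.sizeA
    rw [hn] at hsA
    -- the new bound for the size of `A`
    have h1 : M ^ n * 8 ^ (q + 1) < (A.image (pr (I.erase i))).card * 4 ^ e := by
      have h2 : M * (M ^ n * 8 ^ (q + 1)) < M * ((A.image (pr (I.erase i))).card * 4 ^ e) := by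
        calc M * (M ^ n * 8 ^ (q + 1)) = 8 * (M ^ (n + 1) * 8 ^ q) := by ring
          _ ≤ 8 * ((A.image (pr I)).card * 4 ^ e) := Nat.mul_le_mul_left _ hsA
          _ = (8 * (A.image (pr I)).card) * 4 ^ e := by ring
          _ < (M * (A.image (pr (I.erase i))).card) * 4 ^ e :=
              Nat.mul_lt_mul_of_pos_right hlt (by positivity)
          _ = M * ((A.image (pr (I.erase i))).card * 4 ^ e) := by ring
      exact lt_of_mul_lt_mul_left h2 (Nat.zero_le _)
    have h8 : 8 ^ (q + 1) < 4 ^ e := by
      have h2 : M ^ n * 8 ^ (q + 1) < M ^ n * 4 ^ e :=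
        lt_of_lt_of_le h1 (Nat.mul_le_mul_right _ hle)
      exact lt_of_mul_lt_mul_left h2 (Nat.zero_le _)
    have hq : q + 1 < e := by
      have h2 : 4 ^ (q + 1) ≤ 8 ^ (q + 1) := Nat.pow_le_pow_left (by norm_num) _
      exact (Nat.pow_lt_pow_iff_right (by norm_num : 1 < 4)).1 (lt_of_le_of_lt h2 h8)
    have hD := hS.le
    -- the answer
    have hsurv := hS.surv
    obtain ⟨r, hr⟩ : ∃ r, D - q = r + 1 := ⟨D - q - 1, by omega⟩
    rw [hr] at hsurv
    obtain ⟨c, hc⟩ := hsurv.2 i ((hS.free i).1 hi)
    obtain ⟨u, hu1, hu2⟩ := proj_step P I i hi A B hT (g + 2 * q) (by omega) hS.sizeB c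
    have hnew : St D Bad (I.erase i) (Function.update ρ i (some c))
        (A.filter (fun a => ∃ j, a i = u j)) (B.filter (fun b => ∀ j, b i (u j) = c))
        (q + 1) e g := by
      refine ⟨?_, ?_, ?_, ?_, ?_, hD⟩
      · intro v
        rw [Finset.mem_erase]
        by_cases hv : v = i
        · rw [hv, Function.update_self]
          simp
        · rw [Function.update_of_ne hv, hS.free v]
          simp [hv]
      · intro v c' hv a ha b hb
        rw [Finset.mem_filter] at ha hb
        by_cases hvi : v = i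
        · subst hvi
          rw [Function.update_self] at hv
          obtain ⟨j, hj⟩ := ha.2
          rw [hj, hb.2 j]
          exact Option.some_injective _ hv
        · rw [Function.update_of_ne hvi] at hv
          exact hS.out v c' hv a ha.1 b hb.1
      · rw [hu1, hcard]
        exact h1.le
      · rw [hn, Nat.add_sub_cancel] at hu2
        rw [hcard]
        exact hu2
      · have : D - (q + 1) = r := by omega
        rw [this]
        exact hc
    obtain ⟨I', ρ', A', B', q', k1, k2, k3, k4⟩ := ih (I.erase i) _ _ _ (q + 1) e g hcard hnew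
      (hT.proj hi (Finset.filter_subset _ _) hu1)
    exact ⟨I', ρ', A', B', q', k1.trans (Finset.filter_subset _ _),
      k2.trans (Finset.filter_subset _ _), k3, k4⟩

theorem loop {D K μ : ℕ} (P : Params (Fintype.card V) M D K μ) {Bad : (V → Option Bool) → Prop}
    (I : Finset V) (ρ : V → Option Bool) (A : Finset (V → Fin M))
    (B : Finset (V → Fin M → Bool)) (q e g : ℕ) (hS : St D Bad I ρ A B q e g) (hT : Thick I A) :
    ∃ (I' : Finset V) (ρ' : V → Option Bool) (A' : Finset (V → Fin M))
      (B' : Finset (V → Fin M → Bool)) (q' : ℕ), A' ⊆ A ∧ B' ⊆ B ∧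
        St D Bad I' ρ' A' B' q' e g ∧ Avg I' A' :=
  loop_aux P I.card I ρ A B q e g rfl hS hT

end Pool.Agent.FewNeg
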