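import Mathlib
import Pool.Agent.FewNeg.LBasic

/-!
# Large average fibers give a large subset with large fibers
-/

set_option autoImplicit false

namespace Pool.Agent.FewNeg

private theorem thick_aux {S V : Type} [DecidableEq V] (I : Finset V) (n M : ℕ) (hn : 0 < n)
    (hIn : I.card ≤ n) (c : Finset V → Finset S → ℕ) (A : Finset S)
    (hmono : ∀ J (B B' : Finset S), B ⊆ B' → c J B ≤ c J B')
    (h : ∀ i ∈ I, M * c (I.erase i) A ≤ 16 * c I A) :
    ∃ A' ⊆ A, c I A ≤ 2 * c I A' ∧ ∀ i ∈ I, ∀ B ⊆ A', ∀ f : ℕ,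
      c I A' ≤ c I B + f → c (I.erase i) B + 1 ≤ c (I.erase i) A' → M ≤ 32 * n * f := by
  let Φ : Finset S → ℤ := fun B =>
    32 * n * (c I B : ℤ) - M * ∑ i ∈ I, (c (I.erase i) B : ℤ)
  have hΦ : ∀ B, Φ B = 32 * n * (c I B : ℤ) - M * ∑ i ∈ I, (c (I.erase i) B : ℤ) := fun _ => rfl
  obtain ⟨A', hA', hmax⟩ := Finset.exists_max_image A.powerset Φ ⟨A, Finset.mem_powerset_self A⟩
  rw [Finset.mem_powerset] at hA'
  clear_value Φ
  refine ⟨A', hA', ?_, ?_⟩
  · have h1 := hmax A (Finset.mem_powerset_self A)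
    have h2 : (M : ℤ) * ∑ i ∈ I, (c (I.erase i) A : ℤ) ≤ 16 * n * (c I A : ℤ) := by
      rw [Finset.mul_sum]
      calc ∑ i ∈ I, (M : ℤ) * (c (I.erase i) A : ℤ)
          ≤ ∑ _i ∈ I, 16 * (c I A : ℤ) := by
            refine Finset.sum_le_sum fun i hi => ?_
            exact_mod_cast h i hi
        _ = I.card * (16 * (c I A : ℤ)) := by
            rw [Finset.sum_const, nsmul_eq_mul]
        _ ≤ n * (16 * (c I A : ℤ)) := by
            refine mul_le_mul_of_nonneg_right ?_ (by positivity)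
            exact_mod_cast hIn
        _ = 16 * n * (c I A : ℤ) := by ring
    have h3 : (0 : ℤ) ≤ M * ∑ i ∈ I, (c (I.erase i) A' : ℤ) := by positivity
    have h5 : 16 * (n : ℤ) * (c I A : ℤ) ≤ 16 * (n : ℤ) * (2 * (c I A' : ℤ)) := by
      rw [hΦ, hΦ] at h1
      linarith
    have h6 : (0 : ℤ) < 16 * (n : ℤ) := by positivity
    have h7 := le_of_mul_le_mul_left h5 h6
    exact_mod_cast h7
  · intro i hi B hBA f hf h3
    by_contra hlt
    have hlt : 32 * n * f < M := not_le.1 hlt
    have h1 := hmax B (Finset.mem_powerset.2 (hBA.trans hA'))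
    have h4 : (∑ j ∈ I, (c (I.erase j) B : ℤ)) + 1 ≤ ∑ j ∈ I, (c (I.erase j) A' : ℤ) := by
      rw [← Finset.add_sum_erase I _ hi, ← Finset.add_sum_erase I _ hi]
      have h5 : ∑ j ∈ I.erase i, (c (I.erase j) B : ℤ) ≤
          ∑ j ∈ I.erase i, (c (I.erase j) A' : ℤ) := by
        refine Finset.sum_le_sum fun j _ => ?_
        exact_mod_cast hmono _ _ _ hBA
      have h6 : (c (I.erase i) B : ℤ) + 1 ≤ (c (I.erase i) A' : ℤ) := by exact_mod_cast h3
      linarith
    have h6 : (32 * n : ℤ) * (c I A' : ℤ) ≤ 32 * n * ((c I B : ℤ) + (f : ℤ)) := by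
      refine mul_le_mul_of_nonneg_left ?_ (by positivity)
      exact_mod_cast hf
    have h7 : (M : ℤ) * ((∑ j ∈ I, (c (I.erase j) B : ℤ)) + 1) ≤
        M * ∑ j ∈ I, (c (I.erase j) A' : ℤ) :=
      mul_le_mul_of_nonneg_left h4 (by positivity)
    have h8 : (32 * n : ℤ) * (f : ℤ) < M := by exact_mod_cast hlt
    rw [hΦ, hΦ] at h1
    linarith

theorem exists_thick {V : Type} [DecidableEq V] [Fintype V] {M : ℕ} (I : Finset V)
    (A : Finset (V → Fin M))
    (h : ∀ i ∈ I, M * (A.image (pr (I.erase i))).card ≤ 16 * (A.image (pr I)).card) :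
    ∃ A' ⊆ A, (A.image (pr I)).card ≤ 2 * (A'.image (pr I)).card ∧ Thick I A' := by
  rcases Finset.eq_empty_or_nonempty I with hI | hI
  · refine ⟨A, Finset.Subset.refl A, by omega, ?_⟩
    intro i hi
    rw [hI] at hi
    exact absurd hi (Finset.notMem_empty i)
  have hn : 0 < Fintype.card V := Fintype.card_pos_iff.2 ⟨hI.choose⟩
  obtain ⟨A', hA', h1, h2⟩ := thick_aux I (Fintype.card V) M hn (Finset.card_le_univ I)
    (fun J B => (B.image (pr J)).card) A
    (fun J B B' hB => Finset.card_le_card (Finset.image_subset_image hB)) h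
  refine ⟨A', hA', h1, ?_⟩
  intro i hi a ha
  refine h2 i hi (A'.filter (fun a' => ¬ pr (I.erase i) a' = pr (I.erase i) a))
    (Finset.filter_subset _ _) _ ?_ ?_
  · have e : A'.image (pr I) =
        (A'.filter (fun a' => ¬ pr (I.erase i) a' = pr (I.erase i) a)).image (pr I) ∪
        (A'.filter (fun a' => pr (I.erase i) a' = pr (I.erase i) a)).image (pr I) := by
      rw [← Finset.image_union, Finset.union_comm, Finset.filter_union_filter_not_eq]
    calc (A'.image (pr I)).card = _ := congrArg Finset.card e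
      _ ≤ _ := Finset.card_union_le _ _
  · have h5 : pr (I.erase i) a ∈ A'.image (pr (I.erase i)) := Finset.mem_image_of_mem _ ha
    have hs : (A'.filter (fun a' => ¬ pr (I.erase i) a' = pr (I.erase i) a)).image
        (pr (I.erase i)) ⊆ (A'.image (pr (I.erase i))).erase (pr (I.erase i) a) := by
      intro x hx
      rw [Finset.mem_image] at hx
      obtain ⟨b, hb, rfl⟩ := hx
      rw [Finset.mem_filter] at hb
      exact Finset.mem_erase.2 ⟨hb.2, Finset.mem_image_of_mem _ hb.1⟩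
    have h4 := Finset.card_le_card hs
    rw [Finset.card_erase_of_mem h5] at h4
    have h6 : 0 < (A'.image (pr (I.erase i))).card := Finset.card_pos.2 ⟨_, h5⟩
    exact (Nat.succ_le_succ h4).trans (le_of_eq (Nat.sub_add_cancel h6))

end Pool.Agent.FewNeg
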