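import Mathlib
import Pool.Agent.FewNeg.LThick
import Pool.Agent.FewNeg.LLoop

/-!
# The lifting theorem
-/

set_option autoImplicit false

namespace Pool.Agent.FewNeg

section Main

variable {V W : Type} [DecidableEq V] [Fintype V] {M D K μ : ℕ}

private theorem image_pr_pos {α : Type} [DecidableEq α] {I : Finset V} {A : Finset (V → α)} {x y z : ℕ}
    (hx : 0 < x) (h : x ≤ (A.image (pr I)).card * y) (_hz : z = z) : A.Nonempty := by
  rw [Finset.nonempty_iff_ne_empty]
  rintro rfl
  simp at h
  omega

private theorem card_image_split {α : Type} [DecidableEq α] {I : Finset V} {A : Finset (V → α)}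
    (p q : (V → α) → Prop) [DecidablePred p] [DecidablePred q] (h : ∀ a ∈ A, p a ∨ q a) :
    (A.image (pr I)).card ≤ ((A.filter p).image (pr I)).card + ((A.filter q).image (pr I)).card := by
  rw [show A.image (pr I) = (A.filter p).image (pr I) ∪ (A.filter q).image (pr I) from ?_]
  · exact Finset.card_union_le _ _
  · rw [← Finset.image_union]
    congr 1
    ext a
    rw [Finset.mem_union, Finset.mem_filter, Finset.mem_filter]
    constructor
    · intro ha
      rcases h a ha with h1 | h1
      · exact Or.inl ⟨ha, h1⟩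
      · exact Or.inr ⟨ha, h1⟩
    · rintro (h1 | h1)
      · exact h1.1
      · exact h1.1

/-- The step for OR gates. -/
private theorem or_step (P : Params (Fintype.card V) M D K μ) {Bad : (V → Option Bool) → Prop}
    {I : Finset V} {ρ : V → Option Bool} {A A₁ : Finset (V → Fin M)}
    {B : Finset (V → Fin M → Bool)} {q e g : ℕ} (hS : St D Bad I ρ A B q e g) (hA : Avg I A)
    (hA1 : A₁ ⊆ A) (hc : (A.image (pr I)).card ≤ 2 * (A₁.image (pr I)).card)
    (hle : e + 1 + g ≤ D) :
    ∃ (I' : Finset V) (ρ' : V → Option Bool) (A' : Finset (V → Fin M))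
      (B' : Finset (V → Fin M → Bool)) (q' : ℕ), A' ⊆ A₁ ∧ B' ⊆ B ∧
        St D Bad I' ρ' A' B' q' (e + 1) g ∧ Avg I' A' := by
  obtain ⟨A₂, h1, h2, h3⟩ := exists_thick I A₁ (by
    intro i hi
    calc M * (A₁.image (pr (I.erase i))).card ≤ M * (A.image (pr (I.erase i))).card :=
          Nat.mul_le_mul_left _ (Finset.card_le_card (Finset.image_subset_image hA1))
      _ ≤ 8 * (A.image (pr I)).card := hA i hi
      _ ≤ 8 * (2 * (A₁.image (pr I)).card) := Nat.mul_le_mul_left _ hc
      _ = 16 * (A₁.image (pr I)).card := by ring)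
  have hnew : St D Bad I ρ A₂ B q (e + 1) g := by
    refine ⟨hS.free, fun v c hv a ha b hb => hS.out v c hv a (hA1 (h1 ha)) b hb, ?_, hS.sizeB,
      hS.surv, hle⟩
    calc M ^ I.card * 8 ^ q ≤ (A.image (pr I)).card * 4 ^ e := hS.sizeA
      _ ≤ (2 * (2 * (A₂.image (pr I)).card)) * 4 ^ e :=
          Nat.mul_le_mul_right _ (hc.trans (Nat.mul_le_mul_left _ h2))
      _ = (A₂.image (pr I)).card * 4 ^ (e + 1) := by ring
  obtain ⟨I', ρ', A', B', q', k1, k2, k3, k4⟩ := loop P I ρ A₂ B q (e + 1) g hnew h3
  exact ⟨I', ρ', A', B', q', k1.trans h1, k2, k3, k4⟩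

private theorem lift_aux (P : Params (Fintype.card V) M D K μ) (Bad : (V → Option Bool) → Prop)
    (X : (V → Fin M) → W → Bool) (Y : (V → Fin M → Bool) → W → Bool)
    (hloc : ∀ w a₀, X a₀ w = true → ∃ cl : Finset V,
      (∀ a, X a w = true → ∀ v ∈ cl, a v = a₀ v) ∧
      ∀ a b ρ, X a w = true → Y b w = false → (∀ v ∈ cl, ρ v = some (b v (a v))) → Bad ρ)
    {d : ℕ} {f : BF W} (hf : MD d f) : ∀ (I : Finset V) (ρ : V → Option Bool)
    (A : Finset (V → Fin M)) (B : Finset (V → Fin M → Bool)) (q e g : ℕ),
    St D Bad I ρ A B q e g → e + g + d ≤ D → Avg I A → (∀ a ∈ A, f (X a) = true) →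
    (∀ b ∈ B, f (Y b) = false) → False := by
  have hM : 0 < M := by
    have := P.M_gt
    omega
  have hneA : ∀ {I : Finset V} {ρ : V → Option Bool} {A : Finset (V → Fin M)}
      {B : Finset (V → Fin M → Bool)} {q e g : ℕ}, St D Bad I ρ A B q e g → A.Nonempty := by
    intro I ρ A B q e g hS
    exact image_pr_pos (z := 0) (by positivity) hS.sizeA rfl
  have hneB : ∀ {I : Finset V} {ρ : V → Option Bool} {A : Finset (V → Fin M)}
      {B : Finset (V → Fin M → Bool)} {q e g : ℕ}, St D Bad I ρ A B q e g → B.Nonempty := by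
    intro I ρ A B q e g hS
    exact image_pr_pos (z := 0) (by positivity) hS.sizeB rfl
  induction hf with
  | var w =>
    intro I ρ A B q e g hS _ hAvg h1 h0
    obtain ⟨a₀, ha₀⟩ := hneA hS
    obtain ⟨b₀, hb₀⟩ := hneB hS
    obtain ⟨cl, hcl1, hcl2⟩ := hloc w a₀ (h1 a₀ ha₀)
    refine hS.surv.not_bad (hcl2 a₀ b₀ ρ (h1 a₀ ha₀) (h0 b₀ hb₀) fun v hv => ?_)
    have hvI : v ∉ I := by
      intro hvI
      have hcard : (A.image (pr I)).card ≤ (A.image (pr (I.erase v))).card := by
        refine le_trans (Finset.card_le_card ?_)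
          (Finset.card_image_le (f := fun x : V → Option (Fin M) =>
            Function.update x v (some (a₀ v))))
        intro x hx
        rw [Finset.mem_image] at hx
        obtain ⟨a, ha, rfl⟩ := hx
        rw [Finset.mem_image]
        refine ⟨pr (I.erase v) a, Finset.mem_image_of_mem _ ha, ?_⟩
        funext w'
        by_cases hw : w' = v
        · rw [hw, Function.update_self]
          unfold pr
          rw [if_pos hvI, hcl1 a (h1 a ha) v hv]
        · rw [Function.update_of_ne hw]
          unfold pr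
          simp [hw]
      have hpos : 0 < (A.image (pr (I.erase v))).card :=
        Finset.card_pos.2 (Finset.Nonempty.image ⟨a₀, ha₀⟩ _)
      have h2 := hAvg v hvI
      have h3 : M * (A.image (pr (I.erase v))).card ≤ 8 * (A.image (pr (I.erase v))).card :=
        h2.trans (Nat.mul_le_mul_left _ hcard)
      have h4 := Nat.le_of_mul_le_mul_right h3 hpos
      have h5 := P.M_gt
      omega
    have hρ : ρ v ≠ none := fun h => hvI ((hS.free v).2 h)
    obtain ⟨c, hc⟩ := Option.ne_none_iff_exists'.1 hρ
    rw [hc, hS.out v c hc a₀ ha₀ b₀ hb₀]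
  | const b =>
    intro I ρ A B q e g hS _ hAvg h1 h0
    obtain ⟨a₀, ha₀⟩ := hneA hS
    obtain ⟨b₀, hb₀⟩ := hneB hS
    have k1 := h1 a₀ ha₀
    have k0 := h0 b₀ hb₀
    rw [k1] at k0
    simp at k0
  | and _ _ ih1 ih2 =>
    rename_i d f₁ f₂ _ _
    intro I ρ A B q e g hS hle hAvg h1 h0
    have hsplit := card_image_split (I := I) (A := B) (fun b => f₁ (Y b) = false)
      (fun b => f₂ (Y b) = false) (by
        intro b hb
        exact Bool.and_eq_false_iff.1 (h0 b hb))
    have key : ∀ B₁ : Finset (V → Fin M → Bool), B₁ ⊆ B →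
        (B.image (pr I)).card ≤ 2 * (B₁.image (pr I)).card → St D Bad I ρ A B₁ q e (g + 1) := by
      intro B₁ hB1 hc
      refine ⟨hS.free, fun v c hv a ha b hb => hS.out v c hv a ha b (hB1 hb), hS.sizeA, ?_,
        hS.surv, by omega⟩
      calc 2 ^ (M * I.card) ≤ (B.image (pr I)).card * 2 ^ (g + 2 * q) := hS.sizeB
        _ ≤ (2 * (B₁.image (pr I)).card) * 2 ^ (g + 2 * q) := Nat.mul_le_mul_right _ hc
        _ = (B₁.image (pr I)).card * 2 ^ (g + 1 + 2 * q) := by
            rw [show g + 1 + 2 * q = (g + 2 * q) + 1 by ring, pow_succ]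
            ring
    have h1' : ∀ a ∈ A, f₁ (X a) = true ∧ f₂ (X a) = true := by
      intro a ha
      have := h1 a ha
      simpa using this
    by_cases hcase : (B.image (pr I)).card ≤
        2 * ((B.filter (fun b => f₁ (Y b) = false)).image (pr I)).card
    · exact ih1 I ρ A _ q e (g + 1) (key _ (Finset.filter_subset _ _) hcase) (by omega) hAvg
        (fun a ha => (h1' a ha).1) (fun b hb => (Finset.mem_filter.1 hb).2)
    · exact ih2 I ρ A _ q e (g + 1) (key _ (Finset.filter_subset _ _) (by omega)) (by omega) hAvg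
        (fun a ha => (h1' a ha).2) (fun b hb => (Finset.mem_filter.1 hb).2)
  | or _ _ ih1 ih2 =>
    rename_i d f₁ f₂ _ _
    intro I ρ A B q e g hS hle hAvg h1 h0
    have hsplit := card_image_split (I := I) (A := A) (fun a => f₁ (X a) = true)
      (fun a => f₂ (X a) = true) (by
        intro a ha
        have := h1 a ha
        simpa using this)
    have h0' : ∀ b ∈ B, f₁ (Y b) = false ∧ f₂ (Y b) = false := by
      intro b hb
      have := h0 b hb
      simpa using this
    by_cases hcase : (A.image (pr I)).card ≤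
        2 * ((A.filter (fun a => f₁ (X a) = true)).image (pr I)).card
    · obtain ⟨I', ρ', A', B', q', k1, k2, k3, k4⟩ := or_step P hS hAvg
        (Finset.filter_subset _ _) hcase (by omega)
      exact ih1 I' ρ' A' B' q' (e + 1) g k3 (by omega) k4
        (fun a ha => (Finset.mem_filter.1 (k1 ha)).2) (fun b hb => (h0' b (k2 hb)).1)
    · obtain ⟨I', ρ', A', B', q', k1, k2, k3, k4⟩ := or_step P hS hAvg
        (A₁ := A.filter (fun a => f₂ (X a) = true))
        (Finset.filter_subset _ _) (by omega) (by omega)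
      exact ih2 I' ρ' A' B' q' (e + 1) g k3 (by omega) k4
        (fun a ha => (Finset.mem_filter.1 (k1 ha)).2) (fun b hb => (h0' b (k2 hb)).2)
  | succ _ ih =>
    intro I ρ A B q e g hS hle hAvg h1 h0
    exact ih I ρ A B q e g hS (by omega) hAvg h1 h0

end Main

/-- **Lifting** (Raz-McKenzie, Göös-Pitassi-Watson) for monotone formulas: if an adversary survives
`D` queries in the search problem `Bad` then its composition with the index gadget, given by the
inputs `X a` (to be accepted) and `Y b` (to be rejected), is not solved by a monotone formula of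
depth `D`. -/
theorem lift {V W : Type} [DecidableEq V] [Fintype V] {M D K μ : ℕ}
    (P : Params (Fintype.card V) M D K μ) (Bad : (V → Option Bool) → Prop)
    (X : (V → Fin M) → W → Bool) (Y : (V → Fin M → Bool) → W → Bool)
    (hloc : ∀ w a₀, X a₀ w = true → ∃ cl : Finset V,
      (∀ a, X a w = true → ∀ v ∈ cl, a v = a₀ v) ∧
      ∀ a b ρ, X a w = true → Y b w = false → (∀ v ∈ cl, ρ v = some (b v (a v))) → Bad ρ)
    (hsurv : Surv Bad D (fun _ => none)) (f : BF W) (hf : MD D f) (h1 : ∀ a, f (X a) = true)
    (h0 : ∀ b, f (Y b) = false) : False := by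
  have hinj : ∀ {α : Type}, Function.Injective (pr (α := α) (Finset.univ : Finset V)) := by
    intro α a b hab
    rw [pr_eq_iff] at hab
    exact funext fun v => hab v (Finset.mem_univ v)
  have hcA : ((Finset.univ : Finset (V → Fin M)).image (pr Finset.univ)).card =
      M ^ Fintype.card V := by
    rw [Finset.card_image_of_injective _ hinj, Finset.card_univ, Fintype.card_fun,
      Fintype.card_fin]
  have hcB : ((Finset.univ : Finset (V → Fin M → Bool)).image (pr Finset.univ)).card =
      2 ^ (M * Fintype.card V) := by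
    rw [Finset.card_image_of_injective _ hinj, Finset.card_univ, Fintype.card_fun,
      Fintype.card_fun, Fintype.card_fin, Fintype.card_bool, pow_mul]
  refine lift_aux P Bad X Y hloc hf Finset.univ (fun _ => none) Finset.univ Finset.univ 0 0 0
    ⟨?_, ?_, ?_, ?_, ?_, ?_⟩ (by omega) ?_ (fun a _ => h1 a) (fun b _ => h0 b)
  · intro v
    simp
  · intro v c hv
    simp at hv
  · rw [hcA, Finset.card_univ]
    simp
  · rw [hcB, Finset.card_univ]
    simp
  · exact hsurv
  · omega
  · intro i hi
    have hle := card_image_pr_le (Finset.univ.erase i) (Finset.univ : Finset (V → Fin M))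
    rw [Fintype.card_fin, Finset.card_erase_of_mem hi, Finset.card_univ] at hle
    have hpos : 0 < Fintype.card V := Fintype.card_pos_iff.2 ⟨i⟩
    rw [hcA]
    calc M * _ ≤ M * M ^ (Fintype.card V - 1) := Nat.mul_le_mul_left _ hle
      _ = M ^ Fintype.card V := by
          rw [← pow_succ']
          congr 1
          omega
      _ ≤ 8 * M ^ Fintype.card V := by omega

end Pool.Agent.FewNeg
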