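import Mathlib
import Pool.Agent.FewNeg.LLift
import Pool.Agent.FewNeg.LAdv

/-!
# GEN has large monotone depth, with parameters
-/

set_option autoImplicit false

namespace Pool.Agent.FewNeg

open Pool.Agent.Thrift

section LGen

variable {h M k : ℕ}

/-- the inputs which are accepted -/
private def lgXP (el : Nd h × Fin M → Fin k) (s0 s1 : Fin k) (a : Nd h → Fin M)
    (w : Fin k × Fin k × Fin k) : Prop :=
  (∃ v : Nd h, v.i = 0 ∧ w.1 = s0 ∧ w.2.1 = s0 ∧ w.2.2 = el (v, a v)) ∨
  (∃ v : Nd h, v.i ≠ 0 ∧ w.1 = el (v.l, a v.l) ∧ w.2.1 = el (v.r, a v.r) ∧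
    w.2.2 = el (v, a v)) ∨
  (w.1 = el (root h, a (root h)) ∧ w.2.1 = el (root h, a (root h)) ∧ w.2.2 = s1)

/-- the elements which are allowed to be generated -/
private def lgT (el : Nd h × Fin M → Fin k) (s0 : Fin k) (b : Nd h → Fin M → Bool)
    (x : Fin k) : Prop :=
  x = s0 ∨ ∃ v al, x = el (v, al) ∧ b v al = true

open Classical in
private noncomputable def lgX (el : Nd h × Fin M → Fin k) (s0 s1 : Fin k) (a : Nd h → Fin M)
    (w : Fin k × Fin k × Fin k) : Bool := decide (lgXP el s0 s1 a w)

open Classical in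
private noncomputable def lgY (el : Nd h × Fin M → Fin k) (s0 : Fin k)
    (b : Nd h → Fin M → Bool) (w : Fin k × Fin k × Fin k) : Bool :=
  decide (¬ (lgT el s0 b w.1 ∧ lgT el s0 b w.2.1 ∧ ¬ lgT el s0 b w.2.2))

private theorem lgX_iff {el : Nd h × Fin M → Fin k} {s0 s1 : Fin k} {a : Nd h → Fin M}
    {w : Fin k × Fin k × Fin k} : lgX el s0 s1 a w = true ↔ lgXP el s0 s1 a w := by
  unfold lgX
  simp only [decide_eq_true_eq]

private theorem lgY_iff {el : Nd h × Fin M → Fin k} {s0 : Fin k} {b : Nd h → Fin M → Bool}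
    {w : Fin k × Fin k × Fin k} : lgY el s0 b w = true ↔
      ¬ (lgT el s0 b w.1 ∧ lgT el s0 b w.2.1 ∧ ¬ lgT el s0 b w.2.2) := by
  unfold lgY
  simp only [decide_eq_true_eq]

private theorem lgY_iff' {el : Nd h × Fin M → Fin k} {s0 : Fin k} {b : Nd h → Fin M → Bool}
    {w : Fin k × Fin k × Fin k} : lgY el s0 b w = false ↔
      (lgT el s0 b w.1 ∧ lgT el s0 b w.2.1 ∧ ¬ lgT el s0 b w.2.2) := by
  rw [← Bool.not_eq_true, lgY_iff, not_not]

private theorem lgT_el {el : Nd h × Fin M → Fin k} (hel : Function.Injective el)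
    {s0 : Fin k} (h0 : ∀ p, el p ≠ s0) (b : Nd h → Fin M → Bool) (v : Nd h) (al : Fin M) :
    lgT el s0 b (el (v, al)) ↔ b v al = true := by
  constructor
  · rintro (h1 | ⟨v', al', h1, h2⟩)
    · exact absurd h1 (h0 _)
    · have h3 := hel h1
      rw [Prod.mk.injEq] at h3
      rw [h3.1, h3.2]
      exact h2
  · intro h1
    exact Or.inr ⟨v, al, rfl, h1⟩

end LGen

theorem gen_not_md {h M D K μ k : ℕ} (P : Params (Fintype.card (Nd h)) M D K μ) (hD : D < h)
    (hk : 2 + Fintype.card (Nd h) * M ≤ k) : ¬ MD D (genF k) := by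
  intro hf
  have hcard : Fintype.card (Nd h × Fin M) = Fintype.card (Nd h) * M := by
    rw [Fintype.card_prod, Fintype.card_fin]
  obtain ⟨el, hel, h2⟩ : ∃ el : Nd h × Fin M → Fin k, Function.Injective el ∧
      ∀ p, 2 ≤ (el p).val := by
    refine ⟨fun p => ⟨(Fintype.equivFin _ p).val + 2, ?_⟩, ?_, ?_⟩
    · have := (Fintype.equivFin (Nd h × Fin M) p).isLt
      omega
    · intro p p' hp
      simp only [Fin.mk.injEq, Nat.add_right_cancel_iff] at hp
      exact (Fintype.equivFin _).injective (Fin.ext hp)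
    · intro p
      simp
  obtain ⟨s0, hs0⟩ : ∃ s0 : Fin k, s0.val = 0 := ⟨⟨0, by omega⟩, rfl⟩
  obtain ⟨s1, hs1⟩ : ∃ s1 : Fin k, s1.val = 1 := ⟨⟨1, by omega⟩, rfl⟩
  have e0 : ∀ p, el p ≠ s0 := by
    intro p hp
    have := h2 p
    rw [hp] at this
    omega
  have e1 : ∀ p, el p ≠ s1 := by
    intro p hp
    have := h2 p
    rw [hp] at this
    omega
  refine lift P PBad (lgX el s0 s1) (lgY el s0) ?_ (surv_pyramid hD) (genF k) hf ?_ ?_
  · rintro ⟨x, y, z⟩ a0 hX
    rw [lgX_iff] at hX
    rcases hX with ⟨v, hv, hx, hy, hz⟩ | ⟨v, hv, hx, hy, hz⟩ | ⟨hx, hy, hz⟩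
    · simp only at hx hy hz
      subst hx
      subst hz
      refine ⟨{v}, ?_, ?_⟩
      · intro a ha u hu
        rw [Finset.mem_singleton] at hu
        subst hu
        rw [lgX_iff] at ha
        rcases ha with ⟨v', hv', hx', hy', hz'⟩ | ⟨v', hv', hx', hy', hz'⟩ | ⟨hx', hy', hz'⟩
        · have h3 := hel hz'
          rw [Prod.mk.injEq] at h3
          rw [h3.2, h3.1]
        · exact absurd hx'.symm (e0 _)
        · exact absurd hx'.symm (e0 _)
      · intro a b ρ ha hb hρ
        have h4 : a v = a0 v := by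
          rw [lgX_iff] at ha
          rcases ha with ⟨v', hv', hx', hy', hz'⟩ | ⟨v', hv', hx', hy', hz'⟩ | ⟨hx', hy', hz'⟩
          · have h3 := hel hz'
            rw [Prod.mk.injEq] at h3
            rw [h3.2, h3.1]
          · exact absurd hx'.symm (e0 _)
          · exact absurd hx'.symm (e0 _)
        rw [lgY_iff'] at hb
        have h5 := hb.2.2
        simp only at h5
        rw [lgT_el hel e0] at h5
        left
        refine ⟨v, hv, ?_⟩
        rw [hρ v (Finset.mem_singleton_self v), h4]
        rw [Bool.not_eq_true] at h5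
        rw [h5]
    · simp only at hx hy hz
      subst hx
      subst hy
      subst hz
      have hkey : ∀ a, lgX el s0 s1 a (el (v.l, a0 v.l), el (v.r, a0 v.r), el (v, a0 v)) = true →
          a v.l = a0 v.l ∧ a v.r = a0 v.r ∧ a v = a0 v := by
        intro a ha
        rw [lgX_iff] at ha
        rcases ha with ⟨v', hv', hx', hy', hz'⟩ | ⟨v', hv', hx', hy', hz'⟩ | ⟨hx', hy', hz'⟩
        · exact absurd hx' (e0 _)
        · have h3 := hel hz'
          rw [Prod.mk.injEq] at h3
          obtain ⟨h4, h5⟩ := h3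
          subst h4
          have h6 := hel hx'
          have h7 := hel hy'
          rw [Prod.mk.injEq] at h6 h7
          exact ⟨h6.2.symm, h7.2.symm, h5.symm⟩
        · exact absurd hz' (e1 _)
      refine ⟨{v.l, v.r, v}, ?_, ?_⟩
      · intro a ha u hu
        obtain ⟨h3, h4, h5⟩ := hkey a ha
        rw [Finset.mem_insert, Finset.mem_insert, Finset.mem_singleton] at hu
        rcases hu with rfl | rfl | rfl
        · exact h3
        · exact h4
        · exact h5
      · intro a b ρ ha hb hρ
        obtain ⟨h3, h4, h5⟩ := hkey a ha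
        rw [lgY_iff'] at hb
        obtain ⟨h6, h7, h8⟩ := hb
        simp only at h6 h7 h8
        rw [lgT_el hel e0] at h6 h7 h8
        rw [Bool.not_eq_true] at h8
        right
        left
        refine ⟨v, hv, ?_, ?_, ?_⟩
        · rw [hρ v (by simp), h5, h8]
        · rw [hρ v.l (by simp), h3, h6]
        · rw [hρ v.r (by simp), h4, h7]
    · simp only at hx hy hz
      subst hx
      subst hy
      have hkey : ∀ a, lgX el s0 s1 a (el (root h, a0 (root h)), el (root h, a0 (root h)), z) =
          true → a (root h) = a0 (root h) := by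
        intro a ha
        rw [lgX_iff] at ha
        rcases ha with ⟨v', hv', hx', hy', hz'⟩ | ⟨v', hv', hx', hy', hz'⟩ | ⟨hx', hy', hz'⟩
        · exact absurd hx' (e0 _)
        · exact absurd (hz'.symm.trans hz) (e1 _)
        · have h3 := hel hx'
          rw [Prod.mk.injEq] at h3
          exact h3.2.symm
      refine ⟨{root h}, ?_, ?_⟩
      · intro a ha u hu
        rw [Finset.mem_singleton] at hu
        subst hu
        exact hkey a ha
      · intro a b ρ ha hb hρ
        rw [lgY_iff'] at hb
        have h6 := hb.1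
        simp only at h6
        rw [lgT_el hel e0] at h6
        right
        right
        rw [hρ _ (Finset.mem_singleton_self _), hkey a ha, h6]
  · intro a
    unfold genF
    simp only [decide_eq_true_eq]
    refine ⟨s0, s1, hs0, hs1, ?_⟩
    have hstep : ∀ n, ∀ v : Nd h, v.i = n →
        Gen (fun x y z => lgX el s0 s1 a (x, y, z)) s0 (el (v, a v)) := by
      intro n
      induction n using Nat.strong_induction_on with
      | _ n ih =>
        intro v hv
        by_cases hv0 : v.i = 0
        · refine Gen.step Gen.src Gen.src ?_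
          rw [lgX_iff]
          exact Or.inl ⟨v, hv0, rfl, rfl, rfl⟩
        · have hl : v.l.i < n := by
            simp only [Nd.l]
            omega
          have hr : v.r.i < n := by
            simp only [Nd.r]
            omega
          refine Gen.step (ih _ hl v.l rfl) (ih _ hr v.r rfl) ?_
          rw [lgX_iff]
          exact Or.inr (Or.inl ⟨v, hv0, rfl, rfl, rfl⟩)
    refine Gen.step (hstep _ (root h) rfl) (hstep _ (root h) rfl) ?_
    rw [lgX_iff]
    exact Or.inr (Or.inr ⟨rfl, rfl, rfl⟩)
  · intro b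
    unfold genF
    simp only [decide_eq_false_iff_not]
    rintro ⟨s, t, hs, ht, hgen⟩
    have hs' : s = s0 := Fin.ext (hs.trans hs0.symm)
    have ht' : t = s1 := Fin.ext (ht.trans hs1.symm)
    subst hs'
    have hT : ∀ u, Gen (fun x y z => lgY el s b (x, y, z)) s u → lgT el s b u := by
      intro u hu
      induction hu with
      | src => exact Or.inl rfl
      | step _ _ hR ih1 ih2 =>
        rw [lgY_iff] at hR
        by_contra hz
        exact hR ⟨ih1, ih2, hz⟩
    rcases hT t hgen with h3 | ⟨v, al, h3, _⟩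
    · rw [h3] at ht
      omega
    · exact e1 (v, al) (h3.symm.trans ht')

end Pool.Agent.FewNeg
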