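import Mathlib
import Pool.Agent.FewNeg.LGen

/-!
# GEN has large monotone depth
-/

set_option autoImplicit false

namespace Pool.Agent.FewNeg

open Pool.Agent.Thrift

private theorem ld_bern (x : ℕ) : ∀ n : ℕ, x ^ n * (x + n) ≤ (x + 1) ^ n * x := by
  intro n
  induction n with
  | zero => simp
  | succ n ih =>
    have h1 : x ^ n ≤ (x + 1) ^ n := Nat.pow_le_pow_left (Nat.le_succ x) n
    calc x ^ (n + 1) * (x + (n + 1)) = x * (x ^ n * (x + n)) + x ^ n * x := by ring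
      _ ≤ x * ((x + 1) ^ n * x) + (x + 1) ^ n * x := by gcongr
      _ = (x + 1) ^ (n + 1) * x := by ring

private theorem ld_two (m : ℕ) (hm : 2 ≤ m) : 2 * (m - 1) ^ m ≤ m ^ m := by
  obtain ⟨x, rfl⟩ : ∃ x, m = x + 1 := ⟨m - 1, by omega⟩
  have hx : 0 < x := by omega
  have h := ld_bern x (x + 1)
  rw [Nat.add_sub_cancel]
  have h2 : 2 * x ^ (x + 1) * x ≤ (x + 1) ^ (x + 1) * x := by
    refine le_trans ?_ h
    calc 2 * x ^ (x + 1) * x = x ^ (x + 1) * (x + x) := by ring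
      _ ≤ x ^ (x + 1) * (x + (x + 1)) := by gcongr; omega
  exact Nat.le_of_mul_le_mul_right h2 hx

private theorem ld_pow (m j : ℕ) (hm : 2 ≤ m) : 2 ^ j * (m - 1) ^ (m * j) ≤ m ^ (m * j) := by
  rw [pow_mul, pow_mul, ← mul_pow]
  exact Nat.pow_le_pow_left (ld_two m hm) j

private theorem ld_cube (l : ℕ) : (9 * l + 42) ^ 3 ≤ 2 ^ (l + 28) := by
  induction l with
  | zero => norm_num
  | succ l ih =>
    have h1 : (9 * (l + 1) + 42) ^ 3 ≤ 2 * (9 * l + 42) ^ 3 := by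
      have e : 2 * (9 * l + 42) ^ 3 = (9 * (l + 1) + 42) ^ 3 +
          (729 * l ^ 3 + 8019 * l ^ 2 + 25029 * l + 15525) := by ring
      omega
    calc (9 * (l + 1) + 42) ^ 3 ≤ 2 * (9 * l + 42) ^ 3 := h1
      _ ≤ 2 * 2 ^ (l + 28) := by gcongr
      _ = 2 ^ (l + 1 + 28) := by ring

/-- **GEN on `k` elements has monotone depth `k ^ (1 / 11 - o(1))`** (Raz-McKenzie). -/
theorem gen_depth (lam D k : ℕ) (hD : D + 1 < 2 ^ lam) (hk : 2 ^ (11 * lam + 41) ≤ k) :
    ¬ MD D (genF k) := by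
  obtain ⟨h, hh⟩ : ∃ h, h = 2 ^ lam - 1 := ⟨_, rfl⟩
  have hh1 : h + 1 = 2 ^ lam := by
    have : 0 < 2 ^ lam := by positivity
    omega
  obtain ⟨n, hn⟩ : ∃ n, n = Fintype.card (Nd h) := ⟨_, rfl⟩
  have hn1 : 1 ≤ n := by
    rw [hn]
    exact Fintype.card_pos_iff.mpr ⟨root h⟩
  have hn2 : n ≤ 4 ^ lam := by
    have h1 := card_Nd (h := h)
    rw [hh1, ← pow_mul, mul_comm lam 2, pow_mul] at h1
    rw [hn]
    exact h1
  obtain ⟨μ, hμ⟩ : ∃ μ, μ = 9 * lam + 40 := ⟨_, rfl⟩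
  have hP : Params (Fintype.card (Nd h)) (2 ^ μ) D (32 * n * (n * μ + 2)) μ := by
    rw [← hn]
    refine ⟨hn1, ?_, le_rfl, ?_, ?_⟩
    · calc 8 < 2 ^ 40 := by norm_num
        _ ≤ 2 ^ μ := Nat.pow_le_pow_right (by norm_num) (by omega)
    · have e1 : 4 * (2 ^ μ) ^ n = 2 ^ (n * μ + 2) := by
        rw [← pow_mul, mul_comm μ n, pow_add]
        ring
      rw [e1]
      exact ld_pow (32 * n) (n * μ + 2) (by omega)
    · have hK : 32 * n * (n * μ + 2) ≤ 32 * 16 ^ lam * (μ + 2) := by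
        calc 32 * n * (n * μ + 2) ≤ 32 * 4 ^ lam * (4 ^ lam * μ + 4 ^ lam * 2) := by
              gcongr
              have : 0 < 4 ^ lam := by positivity
              omega
          _ = 32 * (4 ^ lam * 4 ^ lam) * (μ + 2) := by ring
          _ = 32 * 16 ^ lam * (μ + 2) := by
            rw [← mul_pow]
            norm_num
      obtain ⟨Km, hKm⟩ : ∃ Km, Km = 32 * 16 ^ lam * (μ + 2) := ⟨_, rfl⟩
      rw [← hKm] at hK
      have hD2 : 3 * D + 2 ≤ Km := by
        have h2 : 2 ^ lam ≤ 16 ^ lam := Nat.pow_le_pow_left (by norm_num) lam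
        have h3 : 32 * 16 ^ lam * 1 ≤ 32 * 16 ^ lam * (μ + 2) := by gcongr; omega
        rw [hKm]
        omega
      calc 4 * (32 * n * (n * μ + 2) * (3 * D + 2 + 32 * n * (n * μ + 2) * (1 + μ)))
          ≤ 4 * (Km * (Km + Km * (1 + μ))) := by gcongr
        _ = 2 ^ 12 * (16 ^ lam * 16 ^ lam) * (μ + 2) ^ 3 := by
          rw [hKm]
          ring
        _ ≤ 2 ^ 12 * (16 ^ lam * 16 ^ lam) * 2 ^ (lam + 28) := by
          have h4 := ld_cube lam
          have h5 : μ + 2 = 9 * lam + 42 := by omega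
          rw [h5]
          gcongr
        _ = 2 ^ μ := by
          rw [← mul_pow]
          have h6 : (16 * 16 : ℕ) = 2 ^ 8 := by norm_num
          rw [h6, ← pow_mul, ← pow_add, ← pow_add]
          congr 1
          omega
  refine gen_not_md hP (by omega) ?_
  rw [← hn]
  refine le_trans ?_ hk
  calc 2 + n * 2 ^ μ ≤ 2 + 4 ^ lam * 2 ^ μ := by gcongr
    _ = 2 + 2 ^ (11 * lam + 40) := by
      have h6 : (4 : ℕ) = 2 ^ 2 := by norm_num
      rw [h6, ← pow_mul, ← pow_add]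
      congr 2
      omega
    _ ≤ 2 ^ (11 * lam + 40) + 2 ^ (11 * lam + 40) := by
      gcongr
      calc 2 = 2 ^ 1 := rfl
        _ ≤ 2 ^ (11 * lam + 40) := Nat.pow_le_pow_right (by norm_num) (by omega)
    _ = 2 ^ (11 * lam + 41) := by ring

end Pool.Agent.FewNeg
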