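import Mathlib
import Pool.Agent.FewNeg.LDepth
import Pool.Agent.FewNeg.LangADefs

/-!
# A monotone language in P which needs many NOT gates in small depth: the lower bound
-/

set_option autoImplicit false

namespace Pool.Agent.FewNeg

open Filter

theorem ll_tendsto (l₀ : ℕ) : ∀ᶠ n in atTop, l₀ ≤ ll n := by
  filter_upwards [eventually_ge_atTop (2 ^ 2 ^ l₀)] with n hn
  unfold ll
  have h1 : 2 ^ l₀ ≤ Nat.log 2 n := by
    have := Nat.log_mono_right (b := 2) hn
    rwa [Nat.log_pow (by norm_num)] at this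
  have := Nat.log_mono_right (b := 2) h1
  rwa [Nat.log_pow (by norm_num)] at this

theorem LA_monotone (n : ℕ) : Monotone (slice LA n) :=
  slice_monotone (posA_lt (kA n)) (genF_monotone _) LA_iff

theorem LA_lower (c : ℕ) : ∀ᶠ n in atTop, ∀ s d t : ℕ, Computes s d t (slice LA n) →
    d ≤ Nat.log 2 n ^ c → Nat.log 2 n ≤ t + 3 * Nat.log 2 (Nat.log 2 n) ^ 2 := by
  filter_upwards [ll_tendsto (22 * (c + 1) + 60)] with n hn s d t h hd
  by_contra hcon
  push Not at hcon
  have hl : Nat.log 2 (Nat.log 2 n) = ll n := rfl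
  rw [hl] at hcon
  have hLlt : Nat.log 2 n < 2 ^ (ll n + 1) := Nat.lt_pow_succ_log_self (by norm_num) _
  set l := ll n with hldef
  set L := Nat.log 2 n with hLdef
  have hn0 : n ≠ 0 := by
    rintro rfl
    simp [hLdef] at hcon
  have hk : kA n ^ 3 = 2 ^ (3 * l ^ 2) := by
    unfold kA
    rw [← hldef, ← pow_mul, mul_comm]
  have h1 : 2 ^ t * kA n ^ 3 ≤ n := by
    rw [hk, ← pow_add]
    exact (Nat.pow_le_pow_right (by norm_num) hcon.le).trans (Nat.pow_log_le_self 2 hn0)
  have h2 := slice_lower (posA_inj (kA n)) (posA_lt (kA n)) (genF_zero _)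
    (Nat.pow_pos (kA_pos n)) LA_iff h1 h
  refine gen_depth ((l + 1) * (c + 1) + 1) (d + t) (kA n) ?_ ?_ h2.md
  · have h3 : L ^ c ≤ 2 ^ ((l + 1) * (c + 1)) := by
      calc L ^ c ≤ (2 ^ (l + 1)) ^ c := Nat.pow_le_pow_left hLlt.le c
        _ = 2 ^ ((l + 1) * c) := by rw [← pow_mul]
        _ ≤ _ := Nat.pow_le_pow_right (by norm_num) (Nat.mul_le_mul_left _ (by omega))
    have h4 : L < 2 ^ ((l + 1) * (c + 1)) := hLlt.trans_le
      (Nat.pow_le_pow_right (by norm_num) (Nat.le_mul_of_pos_right _ (by omega)))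
    rw [pow_succ]
    omega
  · unfold kA
    rw [← hldef]
    refine Nat.pow_le_pow_right (by norm_num) ?_
    nlinarith

end Pool.Agent.FewNeg
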