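import Mathlib
import Pool.Agent.FewNeg.AndrNum
import Pool.Agent.FewNeg.LangBDefs

/-!
# A monotone language in POLYLOGSPACE which needs many NOT gates in small size: the lower bound
-/

set_option autoImplicit false

namespace Pool.Agent.FewNeg

open Filter

theorem LB_monotone (c n : ℕ) : Monotone (slice (LB c) n) :=
  slice_monotone (posB_lt (qB c n)) (andrF_monotone _ _) LB_iff

theorem LB_lower (c : ℕ) : ∃ C : ℕ, ∀ᶠ n in atTop, ∀ s d t : ℕ,
    Computes s d t (slice (LB c) n) → s ≤ 2 ^ Nat.log 2 n ^ c →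
      Nat.log 2 n ≤ t + C * Nat.log 2 (Nat.log 2 n) := by
  refine ⟨24 * (c + 1) + 26, ?_⟩
  filter_upwards [eventually_ge_atTop 4] with n hn s d t h hs
  by_contra hcon
  push Not at hcon
  have hn0 : n ≠ 0 := by omega
  have hL2 : 2 ≤ Nat.log 2 n := by
    have := Nat.log_mono_right (b := 2) hn
    have h4 : Nat.log 2 4 = 2 := by
      rw [show (4 : ℕ) = 2 ^ 2 by norm_num, Nat.log_pow (by norm_num)]
    omega
  have hl1 : 1 ≤ Nat.log 2 (Nat.log 2 n) := by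
    have := Nat.log_mono_right (b := 2) hL2
    have h4 : Nat.log 2 2 = 1 := by
      have := Nat.log_pow (b := 2) (by norm_num) 1
      simpa using this
    omega
  have hLlt : Nat.log 2 n < 2 ^ (Nat.log 2 (Nat.log 2 n) + 1) :=
    Nat.lt_pow_succ_log_self (by norm_num) _
  have ha : aB c n = (Nat.log 2 n + 2) ^ (c + 1) + 5 := rfl
  have hpn := Nat.pow_log_le_self 2 hn0
  set L := Nat.log 2 n with hLdef
  set l := Nat.log 2 L with hldef
  set a := aB c n with hadef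
  set q := qB c n with hqdef
  have h1 : L + 2 ≤ 2 ^ (l + 2) := by
    have : 2 ^ (l + 2) = 2 * 2 ^ (l + 1) := by rw [pow_succ 2 (l + 1)]; ring
    have h2 : 2 ≤ 2 ^ (l + 1) := by
      calc 2 = 2 ^ 1 := by norm_num
        _ ≤ _ := Nat.pow_le_pow_right (by norm_num) (by omega)
    omega
  have h2 : a ≤ 2 ^ ((l + 2) * (c + 1) + 3) := by
    have h3 : (L + 2) ^ (c + 1) ≤ 2 ^ ((l + 2) * (c + 1)) := by
      rw [pow_mul]
      exact Nat.pow_le_pow_left h1 _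
    have h4 : 1 ≤ 2 ^ ((l + 2) * (c + 1)) := Nat.one_le_two_pow
    have h5 : 2 ^ ((l + 2) * (c + 1) + 3) = 2 ^ ((l + 2) * (c + 1)) * 8 := by
      rw [pow_add]; norm_num
    rw [ha, h5]
    omega
  have h3 : q ≤ 2 ^ (4 * ((l + 2) * (c + 1) + 3) + 1) := by
    calc q ≤ 2 * a ^ 4 := qB_le c n
      _ ≤ 2 * (2 ^ ((l + 2) * (c + 1) + 3)) ^ 4 :=
        Nat.mul_le_mul_left _ (Nat.pow_le_pow_left h2 4)
      _ = _ := by rw [← pow_mul, pow_succ, mul_comm 2, mul_comm 4]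
  have h4 : q ^ 2 ≤ 2 ^ (8 * ((l + 2) * (c + 1) + 3) + 2) := by
    calc q ^ 2 ≤ (2 ^ (4 * ((l + 2) * (c + 1) + 3) + 1)) ^ 2 := Nat.pow_le_pow_left h3 2
      _ = _ := by rw [← pow_mul]; congr 1; ring
  have h5 : t + (8 * ((l + 2) * (c + 1) + 3) + 2) ≤ L := by
    have h6 : 8 * ((l + 2) * (c + 1) + 3) + 2 ≤ (24 * (c + 1) + 26) * l := by
      nlinarith [Nat.mul_le_mul_right (c + 1) hl1]
    omega
  have h6 : 2 ^ t * q ^ 2 ≤ n := by
    calc 2 ^ t * q ^ 2 ≤ 2 ^ t * 2 ^ (8 * ((l + 2) * (c + 1) + 3) + 2) :=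
        Nat.mul_le_mul_left _ h4
      _ = 2 ^ (t + (8 * ((l + 2) * (c + 1) + 3) + 2)) := by rw [← pow_add]
      _ ≤ 2 ^ L := Nat.pow_le_pow_right (by norm_num) h5
      _ ≤ n := hpn
  have hq : q.Prime := qB_prime c n
  have h7 := slice_lower (posB_inj q) (posB_lt q) (andrF_zero hq.pos) (Nat.pow_pos hq.pos)
    LB_iff h6 h
  have h8 := andr_size a q (s + t) (d + t) (by omega) hq (lt_qB c n) (qB_le c n) h7
  have h9 : L ^ c + (L + 1) ≤ a := by
    have h10 : L ^ c ≤ (L + 2) ^ c := Nat.pow_le_pow_left (by omega) c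
    have h11 : 1 ≤ (L + 2) ^ c := Nat.one_le_pow _ _ (by omega)
    have h12 : (L + 2) ^ (c + 1) = (L + 2) ^ c * (L + 1) + (L + 2) ^ c := by ring
    have h13 : L + 1 ≤ (L + 2) ^ c * (L + 1) := Nat.le_mul_of_pos_left _ h11
    omega
  have h10 : 2 ^ (L ^ c) * 2 ^ (L + 1) ≤ 2 ^ a := by
    rw [← pow_add]
    exact Nat.pow_le_pow_right (by norm_num) h9
  have h11 : L + 1 < 2 ^ (L + 1) := Nat.lt_two_pow_self
  have h12 : 1 ≤ 2 ^ (L ^ c) := Nat.one_le_two_pow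
  have h13 : t ≤ L := by omega
  nlinarith [Nat.mul_le_mul_left (2 ^ (L ^ c)) h11.le]

end Pool.Agent.FewNeg
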