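import Mathlib
import Pool.Agent.FewNeg.LangADefs
import Pool.Agent.Book19.Defs
import Pool.Agent.B7219d.PTIter
import Pool.Agent.BookPL.Log2

/-!
# The language of the words with a block in GEN is in P
-/

set_option autoImplicit false

namespace Pool.Agent.FewNeg

open Pool.Agent.PT

/-- `kA n`, except if it is greater than `n`. -/
private def laK (n : ℕ) : ℕ := if ll n ^ 2 ≤ Nat.log 2 n then kA n else n + 1

private theorem laK_pos (n : ℕ) : 0 < laK n := by
  unfold laK
  split_ifs
  · exact kA_pos n
  · omega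

private theorem laK_cases (n : ℕ) :
    laK n = kA n ∨ (n / laK n ^ 3 = 0 ∧ n / kA n ^ 3 = 0) := by
  have key : ∀ k, n < k → n / k ^ 3 = 0 := by
    intro k hk
    refine Nat.div_eq_of_lt (hk.trans_le ?_)
    exact Nat.le_self_pow (by norm_num) k
  by_cases h : ll n ^ 2 ≤ Nat.log 2 n
  · left
    rw [laK, if_pos h]
  · right
    have h1 : n < kA n := Nat.lt_pow_of_log_lt (by norm_num) (by omega)
    rw [laK, if_neg h]
    exact ⟨key _ (by omega), key _ h1⟩

private theorem la_pow (f n : ℕ) (h : f ≤ Nat.log 2 n) :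
    (if f = 0 then 1 else ∑ i ∈ Finset.range (n + 1), if Nat.log 2 i < f then 1 else 0) =
      2 ^ f := by
  split_ifs with h0
  · rw [h0, pow_zero]
  · have hn : n ≠ 0 := by
      rintro rfl
      rw [Nat.log_zero_right] at h
      omega
    have h1 : 2 ^ f ≤ n := (Nat.pow_le_pow_right (by norm_num) h).trans (Nat.pow_log_le_self 2 hn)
    rw [Finset.sum_boole]
    have h2 : (Finset.range (n + 1)).filter (fun i => Nat.log 2 i < f) = Finset.range (2 ^ f) := by
      ext i
      rw [Finset.mem_filter, Finset.mem_range, Finset.mem_range]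
      have h3 : i < 2 ^ f ↔ Nat.log 2 i < f := by
        rcases Nat.eq_zero_or_pos i with h4 | h4
        · subst h4
          rw [Nat.log_zero_right]
          exact ⟨fun _ => by omega, fun _ => by positivity⟩
        · exact (Nat.log_lt_iff_lt_pow (by norm_num) (by omega)).symm
      rw [← h3]
      omega
    rw [h2, Finset.card_range]
    rfl

private theorem uf_laK {Γ : Type} : UF (fun (_ : List Γ) e => laK (e 0)) := by
  classical
  have hll : ∀ i, UF (fun (_ : List Γ) e => ll (e i) ^ 2) := fun i =>
    (BookPL.UF.log2 (BookPL.UF.log2 (UF.var i))).pow 2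
  have hlog : ∀ i, UF (fun (_ : List Γ) e => Nat.log 2 (e i)) := fun i =>
    BookPL.UF.log2 (UF.var i)
  have hsum : UF (fun (_ : List Γ) e => ∑ i ∈ Finset.range (e 0 + 1),
      if Nat.log 2 i < ll (e 0) ^ 2 then 1 else 0) := by
    refine UF.sum (f := fun _ e i => if Nat.log 2 i < ll (e 0) ^ 2 then 1 else 0)
      ((UF.var 0).add (UF.const 1)) ?_
    exact UF.ite (UP.lt (hlog 0) (hll 1)) (UF.const 1) (UF.const 0)
  refine (UF.ite (inst := fun _ _ => inferInstance) (UP.le (hll 0) (hlog 0))
    (UF.ite (inst := fun _ _ => inferInstance) (UP.eq (hll 0) (UF.const 0)) (UF.const 1) hsum)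
    ((UF.var 0).add (UF.const 1))).congr fun x e => ?_
  rw [laK]
  by_cases h : ll (e 0) ^ 2 ≤ Nat.log 2 (e 0)
  · rw [if_pos h, if_pos h, kA]
    exact la_pow _ _ h
  · rw [if_neg h, if_neg h]

private theorem uf_len {Γ : Type} : UF (fun (x : List Γ) _ => laK x.length) :=
  UF.comp₁ (f := fun _ a => laK a) uf_laK UF.len

/-- The letter at position `p`. -/
private def bt (w : List (Bool × Bool)) (p : ℕ) : Bool := (w.getD p (false, false)).1

/-- The mark at position `p`. -/
private def mk (w : List (Bool × Bool)) (p : ℕ) : Bool := (w.getD p (false, false)).2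

/-- The position `p` gets a mark. -/
private def NM (k : ℕ) (w : List (Bool × Bool)) (p : ℕ) : Prop :=
  p / k ^ 3 < w.length / k ^ 3 ∧ p % k ^ 3 < k ∧ (mk w p = true ∨ p % k ^ 3 = 0 ∨
    ∃ x, x < k ∧ ∃ y, y < k ∧ (mk w (p / k ^ 3 * k ^ 3 + x) = true ∧
      mk w (p / k ^ 3 * k ^ 3 + y) = true ∧
      bt w (p / k ^ 3 * k ^ 3 + ((x * k + y) * k + p % k ^ 3)) = true))

private theorem up_bt {f : List (Bool × Bool) → (ℕ → ℕ) → ℕ} (hf : UF f) :
    UP (fun w e => bt w (f w e) = true) := by
  refine ((UP.sym (true, true) hf).or (UP.sym (true, false) hf)).congr fun w e => ?_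
  rw [bt, List.getD_eq_getElem?_getD]
  cases w[f w e]? with
  | none => simp
  | some b =>
    obtain ⟨b1, b2⟩ := b
    cases b1 <;> cases b2 <;> simp

private theorem up_mk {f : List (Bool × Bool) → (ℕ → ℕ) → ℕ} (hf : UF f) :
    UP (fun w e => mk w (f w e) = true) := by
  refine ((UP.sym (true, true) hf).or (UP.sym (false, true) hf)).congr fun w e => ?_
  rw [mk, List.getD_eq_getElem?_getD]
  cases w[f w e]? with
  | none => simp
  | some b =>
    obtain ⟨b1, b2⟩ := b
    cases b1 <;> cases b2 <;> simp

private theorem up_NM {f : List (Bool × Bool) → (ℕ → ℕ) → ℕ} (hf : UF f) :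
    UP (fun w e => NM (laK w.length) w (f w e)) := by
  have hk := uf_len (Γ := Bool × Bool)
  have hk3 := hk.pow 3
  refine UP.comp₁ (P := fun w p => NM (laK w.length) w p) ?_ hf
  have hq : ∀ i, UF (fun (w : List (Bool × Bool)) e => e i / laK w.length ^ 3 *
      laK w.length ^ 3) := fun i => ((UF.var i).div hk3).mul hk3
  refine (UP.lt ((UF.var 0).div hk3) (UF.len.div hk3)).and
    ((UP.lt ((UF.var 0).mod hk3) hk).and ((up_mk (UF.var 0)).or
    ((UP.eq ((UF.var 0).mod hk3) (UF.const 0)).or ?_)))
  refine UP.bex (P := fun w e x => ∃ y, y < laK w.length ∧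
    (mk w (e 0 / laK w.length ^ 3 * laK w.length ^ 3 + x) = true ∧
      mk w (e 0 / laK w.length ^ 3 * laK w.length ^ 3 + y) = true ∧
      bt w (e 0 / laK w.length ^ 3 * laK w.length ^ 3 + ((x * laK w.length + y) *
        laK w.length + e 0 % laK w.length ^ 3)) = true)) hk ?_
  refine UP.bex (P := fun w e y =>
    (mk w (e 1 / laK w.length ^ 3 * laK w.length ^ 3 + e 0) = true ∧
      mk w (e 1 / laK w.length ^ 3 * laK w.length ^ 3 + y) = true ∧
      bt w (e 1 / laK w.length ^ 3 * laK w.length ^ 3 + ((e 0 * laK w.length + y) *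
        laK w.length + e 1 % laK w.length ^ 3)) = true)) hk ?_
  exact (up_mk ((hq 2).add (UF.var 1))).and ((up_mk ((hq 2).add (UF.var 0))).and
    (up_bt ((hq 2).add (((((UF.var 1).mul hk).add (UF.var 0)).mul hk).add
      ((UF.var 2).mod hk3)))))

/-- The initial letters. -/
private def G0 (x : List Bool) (p : ℕ) : Bool × Bool := (x.getD p false, false)

open Classical in
/-- The letters after one round. -/
private noncomputable def G1 (w : List (Bool × Bool)) (p : ℕ) : Bool × Bool :=
  (bt w p, decide (NM (laK w.length) w p))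

private def F0 (x : List Bool) : List (Bool × Bool) := (List.range x.length).map (G0 x)

private noncomputable def F1 (w : List (Bool × Bool)) : List (Bool × Bool) :=
  (List.range w.length).map (G1 w)

/-- There is a new mark. -/
private def QQ (w : List (Bool × Bool)) : Prop :=
  ∃ p, p < w.length ∧ (NM (laK w.length) w p ∧ ¬ mk w p = true)

/-- The element `1` of some block is marked. -/
private def RR (w : List (Bool × Bool)) : Prop :=
  ∃ j, j < w.length / laK w.length ^ 3 ∧ (1 < laK w.length ∧
    mk w (j * laK w.length ^ 3 + 1) = true)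

private theorem up_G0 (a : Bool × Bool) : UP (fun x e => G0 x (e 0) = a) := by
  obtain ⟨a1, a2⟩ := a
  have h : UP (fun x e => List.getD x (e 0) false = true) := by
    refine (UP.sym true (UF.var 0)).congr fun w e => ?_
    rw [List.getD_eq_getElem?_getD]
    cases w[e 0]? with
    | none => simp
    | some b => simp
  cases a1
  · refine (h.not.and (UP.const (false = a2))).congr fun x e => ?_
    rw [G0, Prod.mk.injEq, Bool.not_eq_true]
  · refine (h.and (UP.const (false = a2))).congr fun x e => ?_
    rw [G0, Prod.mk.injEq]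

private theorem up_G1 (a : Bool × Bool) : UP (fun w e => G1 w (e 0) = a) := by
  classical
  obtain ⟨a1, a2⟩ := a
  have h1 := up_bt (UF.var 0)
  have h2 := up_NM (UF.var 0)
  have h3 : UP (fun w e => bt w (e 0) = a1) := by
    cases a1
    · exact h1.not.congr fun x e => by rw [Bool.not_eq_true]
    · exact h1
  have h4 : UP (fun w e => decide (NM (laK w.length) w (e 0)) = a2) := by
    cases a2
    · exact h2.not.congr fun x e => by rw [decide_eq_false_iff_not]
    · exact h2.congr fun x e => by rw [decide_eq_true_iff]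
  refine (h3.and h4).congr fun x e => ?_
  rw [G1, Prod.mk.injEq]

private theorem up_QQ : UP (fun w _ => QQ w) := by
  refine UP.bex (P := fun w _ p => (NM (laK w.length) w p ∧ ¬ mk w p = true)) UF.len ?_
  exact (up_NM (UF.var 0)).and (up_mk (UF.var 0)).not

private theorem up_RR : UP (fun w _ => RR w) := by
  have hk := uf_len (Γ := Bool × Bool)
  refine UP.bex (P := fun w _ j => (1 < laK w.length ∧
    mk w (j * laK w.length ^ 3 + 1) = true)) (UF.len.div (hk.pow 3)) ?_
  exact (UP.lt (UF.const 1) hk).and (up_mk (((UF.var 0).mul (hk.pow 3)).add (UF.const 1)))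

private theorem getD_map_range {β : Type} (n : ℕ) (f : ℕ → β) (p : ℕ) (d : β) :
    ((List.range n).map f).getD p d = if p < n then f p else d := by
  rw [List.getD_eq_getElem?_getD, List.getElem?_map]
  split_ifs with h
  · rw [List.getElem?_range h]
    rfl
  · rw [List.getElem?_eq_none (by simpa using h)]
    rfl

private theorem length_F1 (w : List (Bool × Bool)) : (F1 w).length = w.length := by simp [F1]

private theorem bt_F1 (w : List (Bool × Bool)) (p : ℕ) : bt (F1 w) p = bt w p := by
  rw [bt, F1, getD_map_range]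
  split_ifs with h
  · rfl
  · rw [bt, List.getD_eq_default _ _ (by omega)]

private theorem mk_F1 (w : List (Bool × Bool)) (p : ℕ) :
    mk (F1 w) p = true ↔ p < w.length ∧ NM (laK w.length) w p := by
  rw [mk, F1, getD_map_range]
  split_ifs with h
  · simp [G1, h]
  · simp [h]

private theorem inv (x : List Bool) (i : ℕ) : (F1^[i] (F0 x)).length = x.length ∧
    (∀ p, bt (F1^[i] (F0 x)) p = x.getD p false) ∧
    ∀ p, mk (F1^[i] (F0 x)) p = true → p < x.length ∧
      p / laK x.length ^ 3 < x.length / laK x.length ^ 3 ∧ p % laK x.length ^ 3 < laK x.length := by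
  induction i with
  | zero =>
    refine ⟨by simp [F0], fun p => ?_, fun p hp => ?_⟩
    · change bt (F0 x) p = _
      rw [bt, F0, getD_map_range]
      split_ifs with h
      · rfl
      · rw [List.getD_eq_default _ _ (by omega)]
    · change mk (F0 x) p = true at hp
      rw [mk, F0, getD_map_range] at hp
      split_ifs at hp with h
      exact absurd hp (by simp [G0])
  | succ i ih =>
    obtain ⟨h1, h2, h3⟩ := ih
    rw [Function.iterate_succ_apply']
    refine ⟨by rw [length_F1, h1], fun p => by rw [bt_F1, h2], fun p hp => ?_⟩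
    rw [mk_F1, h1] at hp
    refine ⟨hp.1, ?_⟩
    have h4 := hp.2
    rw [NM, h1] at h4
    exact ⟨h4.1, h4.2.1⟩

private theorem mk_mono (x : List Bool) (i p : ℕ) (h : mk (F1^[i] (F0 x)) p = true) :
    mk (F1^[i + 1] (F0 x)) p = true := by
  obtain ⟨h1, h2, h3⟩ := inv x i
  rw [Function.iterate_succ_apply', mk_F1, h1]
  obtain ⟨h4, h5, h6⟩ := h3 p h
  exact ⟨h4, by rw [h1]; exact h5, h6, Or.inl h⟩

private theorem exists_stop (x : List Bool) : ∃ s ≤ x.length + 1,
    (∀ i < s, QQ (F1^[i] (F0 x))) ∧ ¬ QQ (F1^[s] (F0 x)) := by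
  classical
  set c : ℕ → ℕ := fun i => ((Finset.range x.length).filter
    (fun p => mk (F1^[i] (F0 x)) p = true)).card with hc
  have hle : ∀ i, c i ≤ x.length := fun i => by
    have := Finset.card_filter_le (Finset.range x.length) (fun p => mk (F1^[i] (F0 x)) p = true)
    rwa [Finset.card_range] at this
  have hlt : ∀ i, QQ (F1^[i] (F0 x)) → c i < c (i + 1) := by
    rintro i ⟨p, hp, hp1, hp2⟩
    have h1 := (inv x i).1
    refine Finset.card_lt_card ⟨fun q hq => ?_, fun hsub => ?_⟩
    · rw [Finset.mem_filter] at hq ⊢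
      exact ⟨hq.1, mk_mono x i q hq.2⟩
    · apply hp2
      have h2 : p ∈ (Finset.range x.length).filter
          (fun p => mk (F1^[i + 1] (F0 x)) p = true) := by
        rw [Finset.mem_filter, Finset.mem_range]
        refine ⟨by rwa [h1] at hp, ?_⟩
        rw [Function.iterate_succ_apply', mk_F1]
        exact ⟨hp, hp1⟩
      exact (Finset.mem_filter.1 (hsub h2)).2
  have hex : ∃ s, ¬ QQ (F1^[s] (F0 x)) := by
    by_contra hcon
    push Not at hcon
    have h1 : ∀ i, i ≤ c i := by
      intro i
      induction i with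
      | zero => exact Nat.zero_le _
      | succ i ih =>
        have := hlt i (hcon i)
        omega
    have h2 := h1 (x.length + 1)
    have h3 := hle (x.length + 1)
    omega
  refine ⟨Nat.find hex, ?_, fun i hi => by_contra fun h => Nat.find_min hex hi h,
    Nat.find_spec hex⟩
  have h1 : ∀ i, i ≤ Nat.find hex → i ≤ c i := by
    intro i
    induction i with
    | zero => exact fun _ => Nat.zero_le _
    | succ i ih =>
      intro hi
      have h2 : QQ (F1^[i] (F0 x)) := by_contra fun h => Nat.find_min hex (by omega) h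
      have := hlt i h2
      have := ih (by omega)
      omega
  have h2 := h1 _ le_rfl
  have h3 := hle (Nat.find hex)
  omega

/-- The triples of the block `j`. -/
private def blk (x : List Bool) (k j : ℕ) (p : Fin k × Fin k × Fin k) : Bool :=
  x.getD (j * k ^ 3 + posA k p) false

private theorem div_mod (k j z : ℕ) (hz : z < k) :
    (j * k ^ 3 + z) / k ^ 3 = j ∧ (j * k ^ 3 + z) % k ^ 3 = z := by
  have hk : k ≤ k ^ 3 := Nat.le_self_pow (by norm_num) k
  have h0 : 0 < k ^ 3 := by omega
  constructor
  · rw [mul_comm, Nat.mul_add_div h0, Nat.div_eq_of_lt (by omega), add_zero]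
  · rw [mul_comm, Nat.mul_add_mod, Nat.mod_eq_of_lt (by omega)]

private theorem sound (x : List Bool) (i : ℕ) (j : ℕ) (s : Fin (laK x.length)) (hs : s.val = 0) :
    ∀ z : Fin (laK x.length), mk (F1^[i] (F0 x)) (j * laK x.length ^ 3 + z.val) = true →
      Gen (fun a b c => blk x (laK x.length) j (a, b, c)) s z := by
  induction i with
  | zero =>
    intro z hz
    change mk (F0 x) _ = true at hz
    rw [mk, F0, getD_map_range] at hz
    split_ifs at hz with h
    exact absurd hz (by simp [G0])
  | succ i ih =>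
    intro z hz
    obtain ⟨h1, h2, h3⟩ := inv x i
    rw [Function.iterate_succ_apply', mk_F1, h1] at hz
    obtain ⟨-, -, -, hz⟩ := hz
    obtain ⟨e1, e2⟩ := div_mod (laK x.length) j z.val z.2
    rw [e1, e2] at hz
    rcases hz with hz | hz | ⟨a, ha, b, hb, h4, h5, h6⟩
    · exact ih z hz
    · have hsz : z = s := Fin.ext (by rw [hs, hz])
      rw [hsz]
      exact Gen.src
    · refine Gen.step (ih ⟨a, ha⟩ h4) (ih ⟨b, hb⟩ h5) ?_
      rw [h2] at h6
      exact h6

private theorem complete (x : List Bool) (i : ℕ) (hQ : ¬ QQ (F1^[i] (F0 x))) (j : ℕ)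
    (hj : j < x.length / laK x.length ^ 3) (s : Fin (laK x.length)) (hs : s.val = 0)
    (z : Fin (laK x.length)) (hz : Gen (fun a b c => blk x (laK x.length) j (a, b, c)) s z) :
    mk (F1^[i] (F0 x)) (j * laK x.length ^ 3 + z.val) = true := by
  obtain ⟨h1, h2, h3⟩ := inv x i
  have hlt : ∀ z : Fin (laK x.length), j * laK x.length ^ 3 + z.val < x.length := by
    intro z
    have hk : laK x.length ≤ laK x.length ^ 3 := Nat.le_self_pow (by norm_num) _
    have h0 : 0 < laK x.length ^ 3 := Nat.pos_of_ne_zero (pow_ne_zero _ (laK_pos _).ne')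
    have h4 : (j + 1) * laK x.length ^ 3 ≤ x.length := (Nat.le_div_iff_mul_le h0).1 hj
    have h5 := z.2
    rw [add_mul, one_mul] at h4
    omega
  have key : ∀ z : Fin (laK x.length),
      NM (laK x.length) (F1^[i] (F0 x)) (j * laK x.length ^ 3 + z.val) →
      mk (F1^[i] (F0 x)) (j * laK x.length ^ 3 + z.val) = true := by
    intro z hz
    by_contra hcon
    exact hQ ⟨_, by rw [h1]; exact hlt z, by rw [h1]; exact hz, hcon⟩
  induction hz with
  | src =>
    refine key s ?_
    obtain ⟨e1, e2⟩ := div_mod (laK x.length) j s.val s.2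
    refine ⟨?_, ?_, Or.inr (Or.inl ?_)⟩
    · rw [e1, h1]
      exact hj
    · rw [e2]
      exact s.2
    · rw [e2, hs]
  | @step a b c _ _ hr ih1 ih2 =>
    refine key c ?_
    obtain ⟨e1, e2⟩ := div_mod (laK x.length) j c.val c.2
    refine ⟨?_, ?_, Or.inr (Or.inr ⟨a.val, a.2, b.val, b.2, ?_⟩)⟩
    · rw [e1, h1]
      exact hj
    · rw [e2]
      exact c.2
    · rw [e1, e2]
      refine ⟨ih1, ih2, ?_⟩
      rw [h2]
      exact hr

private theorem mem_iff (x : List Bool) : x ∈ LA ↔ ∃ j, j < x.length / laK x.length ^ 3 ∧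
    genF (laK x.length) (blk x (laK x.length) j) = true := by
  rw [LA_iff x rfl]
  rcases laK_cases x.length with h | ⟨h1, h2⟩
  · rw [h]
    rfl
  · rw [h1, h2]
    simp

private theorem final (x : List Bool) (i : ℕ) (hQ : ¬ QQ (F1^[i] (F0 x))) :
    x ∈ LA ↔ RR (F1^[i] (F0 x)) := by
  rw [mem_iff, RR, (inv x i).1]
  refine exists_congr fun j => and_congr_right fun hj => ?_
  rw [genF_eq_true]
  constructor
  · rintro ⟨s, t, hs, ht, hg⟩
    have h1 := complete x i hQ j hj s hs t hg
    rw [ht] at h1
    exact ⟨by have := t.2; omega, h1⟩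
  · rintro ⟨hk, h1⟩
    exact ⟨⟨0, by omega⟩, ⟨1, hk⟩, rfl, rfl, sound x i j _ rfl ⟨1, hk⟩ h1⟩

theorem inP_LA : Book19.InP Bool LA := by
  classical
  refine ⟨fun x => decide (x ∈ LA), ?_, fun x => by simp⟩
  refine B7219d.polyTime_iterate (Γ := Bool × Bool) _ (M₀ := fun x => x.length) (G₀ := G0)
    UF.len up_G0 (M₁ := fun w => w.length) (G₁ := G1) UF.len up_G1 up_QQ up_RR _ F0
    (fun _ => rfl) F1 (fun _ => rfl) (fun N => N + 1) (fun N => N) (PB.id.add (PB.const 1))
    PB.id fun x => ?_
  have e : (Computability.encodingList Bool).encode x = x := rfl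
  rw [e]
  obtain ⟨s, h1, h2, h3⟩ := exists_stop x
  refine ⟨s, h1, h2, h3, fun i _ => (inv x i).1.le, ?_⟩
  rw [decide_eq_true_iff]
  exact final x s h3

end Pool.Agent.FewNeg
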