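import Mathlib
import Pool.Agent.FewNeg.MS
import Pool.Agent.FewNeg.LevElim

/-!
# Block languages and circuits with NOT gates on several levels
-/

set_option autoImplicit false

namespace Pool.Agent.FewNeg

private theorem getD_ofFn3 {n : ℕ} (x : Fin n → Bool) (p : ℕ) (hp : p < n) :
    (List.ofFn x).getD p false = x ⟨p, hp⟩ := by
  rw [List.getD_eq_getElem _ _ (by simpa using hp)]
  simp

/-- **Few NOT gates on every level do not help for block languages.** -/
theorem slice_lower_lev {ι : Type} {L : Set (List Bool)} {n m o N : ℕ} {F : BF ι} {pos : ι → ℕ}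
    (hinj : Function.Injective pos) (hlt : ∀ i, pos i < m) (hF0 : F (fun _ => false) = false)
    (hm : 0 < m) (S : Finset (Fin n)) {s d P : ℕ} (hN : P + S.card ≤ N) (ht : o + N * m ≤ n)
    (hL : ∀ x : List Bool, x.length = n →
      (∀ p, x.getD p false = true → o ≤ p ∧ p < o + N * m) →
        (x ∈ L ↔ ∃ j, j < N ∧ F (fun i => x.getD (o + j * m + pos i) false) = true))
    (h : ComputesL S s d P (slice L n)) :
    Computes (s + P) (d + (Nat.log 2 P + 1)) 0 F := by
  classical
  set B : Finset (Fin N) := Finset.univ.filter (fun j => ∀ p ∈ S, ¬ (o ≤ p.val ∧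
    (p.val - o) / m = j.val)) with hB
  have hcard : P ≤ B.card := by
    have h1 : (Finset.univ \ B).card ≤ S.card := by
      have h2 : ∀ j ∈ Finset.univ \ B, ∃ p ∈ S, o ≤ p.val ∧ (p.val - o) / m = j.val := by
        intro j hj
        rw [hB, Finset.mem_sdiff, Finset.mem_filter] at hj
        by_contra hcon
        push Not at hcon
        exact hj.2 ⟨Finset.mem_univ _, fun p hp hc => hcon p hp hc.1 hc.2⟩
      have h3 : (Finset.univ \ B).image (fun j : Fin N => j.val) ⊆
          S.image (fun p => (p.val - o) / m) := by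
        intro v hv
        obtain ⟨j, hj, rfl⟩ := Finset.mem_image.1 hv
        obtain ⟨p, hp, -, hpj⟩ := h2 j hj
        exact Finset.mem_image.2 ⟨p, hp, hpj⟩
      have h4 := Finset.card_le_card h3
      rw [Finset.card_image_of_injective _ Fin.val_injective] at h4
      exact h4.trans Finset.card_image_le
    have h3 : (Finset.univ \ B).card = N - B.card := by
      rw [Finset.card_sdiff_of_subset (Finset.subset_univ _), Finset.card_univ, Fintype.card_fin]
    have h4 : B.card ≤ N := by simpa using Finset.card_le_univ B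
    omega
  refine h.mono_of_copies hF0 B hcard (fun p : Fin n => if hp : o ≤ p.val ∧ (∃ hj : (p.val - o) / m < N,
    (⟨(p.val - o) / m, hj⟩ : Fin N) ∈ B) ∧ ∃ i, pos i = (p.val - o) % m then
    Sum.inl (⟨(p.val - o) / m, hp.2.1.1⟩, hp.2.2.choose) else Sum.inr false) ?_ fun y => ?_
  · intro p hp
    refine ⟨false, dif_neg ?_⟩
    rintro ⟨h1, ⟨hj, hjB⟩, -⟩
    rw [hB, Finset.mem_filter] at hjB
    exact hjB.2 p hp ⟨h1, rfl⟩
  set x : Fin n → Bool := fun p : Fin n => Sum.elim y id (if hp : o ≤ p.val ∧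
    (∃ hj : (p.val - o) / m < N, (⟨(p.val - o) / m, hj⟩ : Fin N) ∈ B) ∧
      ∃ i, pos i = (p.val - o) % m then
    Sum.inl ((⟨(p.val - o) / m, hp.2.1.1⟩ : Fin N), hp.2.2.choose) else Sum.inr false) with hx
  have hzero : ∀ p, (List.ofFn x).getD p false = true → o ≤ p ∧ p < o + N * m := by
    intro p hp
    by_cases hpn : p < n
    · rw [getD_ofFn3 _ _ hpn] at hp
      simp only [hx] at hp
      by_cases hc : o ≤ p ∧ (∃ hj : (p - o) / m < N, (⟨(p - o) / m, hj⟩ : Fin N) ∈ B) ∧
          ∃ i, pos i = (p - o) % m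
      · refine ⟨hc.1, ?_⟩
        have := (Nat.div_lt_iff_lt_mul hm).1 hc.2.1.1
        omega
      · rw [dif_neg hc] at hp
        exact Bool.noConfusion hp
    · rw [List.getD_eq_default _ _ (by simpa using hpn)] at hp
      exact Bool.noConfusion hp
  rw [Bool.eq_iff_iff, slice_eq_true, hL _ (by simp) hzero]
  have key : ∀ j, (hj : j < N) → ∀ i, (List.ofFn x).getD (o + j * m + pos i) false =
      if (⟨j, hj⟩ : Fin N) ∈ B then y (⟨j, hj⟩, i) else false := by
    intro j hj i
    have hi := hlt i
    have h2 : (j + 1) * m ≤ N * m := Nat.mul_le_mul_right _ hj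
    have h3 : o + j * m + pos i < n := by
      rw [Nat.add_mul, one_mul] at h2
      omega
    have h0 : o + j * m + pos i - o = j * m + pos i := by omega
    have h4 : (j * m + pos i) / m = j := by
      rw [mul_comm, Nat.mul_add_div hm, Nat.div_eq_of_lt hi, add_zero]
    have h5 : (j * m + pos i) % m = pos i := by
      rw [mul_comm, Nat.mul_add_mod, Nat.mod_eq_of_lt hi]
    have h6 : (o + j * m + pos i - o) / m = j := by rw [h0, h4]
    have h7 : (o + j * m + pos i - o) % m = pos i := by rw [h0, h5]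
    rw [getD_ofFn3 _ _ h3]
    simp only [hx]
    by_cases hjB : (⟨j, hj⟩ : Fin N) ∈ B
    · have h8 : o ≤ o + j * m + pos i ∧ (∃ hj : (o + j * m + pos i - o) / m < N,
          (⟨(o + j * m + pos i - o) / m, hj⟩ : Fin N) ∈ B) ∧
          ∃ i', pos i' = (o + j * m + pos i - o) % m := by
        refine ⟨by omega, ⟨by rw [h6]; exact hj, ?_⟩, i, h7.symm⟩
        have : (⟨(o + j * m + pos i - o) / m, by rw [h6]; exact hj⟩ : Fin N) = ⟨j, hj⟩ :=
          Fin.ext h6
        rw [this]
        exact hjB
      rw [dif_pos h8, if_pos hjB]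
      simp only [Sum.elim_inl]
      have h9 : h8.2.2.choose = i := hinj (h8.2.2.choose_spec.trans h7)
      rw [h9]
      congr 2
      exact Fin.ext h6
    · rw [if_neg hjB, dif_neg]
      · rfl
      · rintro ⟨-, ⟨hj', hjB'⟩, -⟩
        have : (⟨(o + j * m + pos i - o) / m, hj'⟩ : Fin N) = ⟨j, hj⟩ := Fin.ext h6
        rw [this] at hjB'
        exact hjB hjB'
  have e : (orC B F y = true) ↔ ∃ a ∈ B, F (fun i => y (a, i)) = true := by
    simp [orC]
  rw [e]
  constructor
  · rintro ⟨j, hjB, hj⟩
    refine ⟨j.val, j.2, ?_⟩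
    have e2 : (fun i => (List.ofFn x).getD (o + j.val * m + pos i) false) = fun i => y (j, i) := by
      funext i
      rw [key j.val j.2 i, if_pos hjB]
    rw [e2]
    exact hj
  · rintro ⟨j, hj, hj'⟩
    by_cases hjB : (⟨j, hj⟩ : Fin N) ∈ B
    · refine ⟨⟨j, hj⟩, hjB, ?_⟩
      have e2 : (fun i => (List.ofFn x).getD (o + j * m + pos i) false) =
          fun i => y (⟨j, hj⟩, i) := by
        funext i
        rw [key j hj i, if_pos hjB]
      rw [e2] at hj'
      exact hj'
    · have e2 : (fun i => (List.ofFn x).getD (o + j * m + pos i) false) = fun _ => false := by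
        funext i
        rw [key j hj i, if_neg hjB]
      rw [e2, hF0] at hj'
      exact Bool.noConfusion hj'

variable {S : ℕ → ℕ} {K : ℕ → ℕ → ℕ} {G : ℕ → ℕ → (ℕ → Bool) → Bool}

theorem MS_lower_lev {ι : Type} {F : BF ι} {pos : ι → ℕ} {n i : ℕ} (hi : i < S n)
    (hinj : Function.Injective pos) (hlt : ∀ a, pos a < K n i)
    (hF0 : F (fun _ => false) = false) (hK : ∀ i', i' < S n → 0 < K n i')
    (hG0 : ∀ i', i' < S n → ∀ y : ℕ → Bool, (∀ p, p < K n i' → y p = false) → G n i' y = false)
    (hGF : ∀ y : ℕ → Bool, G n i y = F (fun a => y (pos a))) (T : Finset (Fin n)) {s d P : ℕ}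
    (ht : (P + T.card) * K n i ≤ n / S n) (h : ComputesL T s d P (slice (MS S K G) n)) :
    Computes (s + P) (d + (Nat.log 2 P + 1)) 0 F := by
  have hKi := hK i hi
  have hseg : (i + 1) * (n / S n) ≤ n :=
    (Nat.mul_le_mul_right _ hi).trans (Nat.mul_div_le n (S n))
  have hseg' : (i + 1) * (n / S n) = i * (n / S n) + n / S n := by ring
  refine slice_lower_lev (o := i * (n / S n)) (m := K n i) hinj hlt hF0 hKi T
    (N := P + T.card) le_rfl (by omega) ?_ h
  intro x hx hsup
  rw [MS_iff x hx]
  constructor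
  · rintro ⟨i', hi', j, hj, hg⟩
    obtain ⟨p, hp, hpt⟩ : ∃ p, p < K n i' ∧
        x.getD (i' * (n / S n) + j * K n i' + p) false = true := by
      by_contra hcon
      push Not at hcon
      rw [hG0 i' hi' _ fun p hp => by simpa using hcon p hp] at hg
      exact Bool.noConfusion hg
    obtain ⟨h1, h2⟩ := hsup _ hpt
    have h3 : (j + 1) * K n i' ≤ n / S n := (Nat.le_div_iff_mul_le (hK i' hi')).1 hj
    have h4 : (j + 1) * K n i' = j * K n i' + K n i' := by ring
    have hii : i' = i := by
      rcases lt_trichotomy i' i with hlt' | heq | hgt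
      · have h5 : (i' + 1) * (n / S n) ≤ i * (n / S n) := Nat.mul_le_mul_right _ hlt'
        have h6 : (i' + 1) * (n / S n) = i' * (n / S n) + n / S n := by ring
        omega
      · exact heq
      · have h5 : (i + 1) * (n / S n) ≤ i' * (n / S n) := Nat.mul_le_mul_right _ hgt
        omega
    subst hii
    refine ⟨j, ?_, ?_⟩
    · by_contra hcon
      push Not at hcon
      have h5 : (P + T.card) * K n i' ≤ j * K n i' := Nat.mul_le_mul_right _ hcon
      omega
    · rw [← hGF (fun p => x.getD (i' * (n / S n) + j * K n i' + p) false)]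
      exact hg
  · rintro ⟨j, hj, hg⟩
    refine ⟨i, hi, j, ?_, ?_⟩
    · have h1 : P + T.card ≤ n / S n / K n i := (Nat.le_div_iff_mul_le hKi).2 ht
      omega
    · rw [hGF (fun p => x.getD (i * (n / S n) + j * K n i + p) false)]
      exact hg

end Pool.Agent.FewNeg
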