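import Mathlib
import Pool.Agent.FewNeg.LDepth
import Pool.Agent.FewNeg.TADefs

/-!
# A monotone language in P: the trade-off between the depth and the number of NOT gates
-/

set_option autoImplicit false

namespace Pool.Agent.FewNeg

theorem LTA_lower (n s d t : ℕ) (h : Computes s d t (slice LTA n)) :
    n ≤ 2 ^ 156 * (Nat.log 2 n + 1) * 2 ^ t * (d + t + 1) ^ 33 := by
  by_contra hcon
  push Not at hcon
  set lam := Nat.log 2 (d + t + 1) + 1 with hlam
  have h1 : d + t + 1 < 2 ^ lam := Nat.lt_pow_succ_log_self (by norm_num) _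
  have h2 : 2 ^ (lam - 1) ≤ d + t + 1 := by
    rw [hlam, Nat.add_sub_cancel]
    exact Nat.pow_log_le_self 2 (by omega)
  set i := 11 * lam + 41 with hi
  have h3 : 2 ^ t * 8 ^ i ≤ 2 ^ 156 * 2 ^ t * (d + t + 1) ^ 33 := by
    have h4 : 8 ^ i = 2 ^ 156 * (2 ^ (lam - 1)) ^ 33 := by
      rw [show (8 : ℕ) = 2 ^ 3 by norm_num, ← pow_mul, ← pow_mul, ← pow_add]
      congr 1
      omega
    rw [h4]
    calc 2 ^ t * (2 ^ 156 * (2 ^ (lam - 1)) ^ 33) = 2 ^ 156 * 2 ^ t * (2 ^ (lam - 1)) ^ 33 := by ring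
      _ ≤ _ := Nat.mul_le_mul_left _ (Nat.pow_le_pow_left h2 33)
  have h4 : 2 ^ t * 8 ^ i ≤ n / (Nat.log 2 n + 1) := by
    refine h3.trans ((Nat.le_div_iff_mul_le (by omega)).2 ?_)
    calc 2 ^ 156 * 2 ^ t * (d + t + 1) ^ 33 * (Nat.log 2 n + 1) =
        2 ^ 156 * (Nat.log 2 n + 1) * 2 ^ t * (d + t + 1) ^ 33 := by ring
      _ ≤ n := hcon.le
  have h5 : i < Nat.log 2 n + 1 := by
    have h6 : 2 ^ i ≤ n := by
      calc 2 ^ i ≤ 8 ^ i := Nat.pow_le_pow_left (by norm_num) i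
        _ ≤ 2 ^ t * 8 ^ i := Nat.le_mul_of_pos_left _ (Nat.two_pow_pos t)
        _ ≤ n / (Nat.log 2 n + 1) := h4
        _ ≤ n := Nat.div_le_self _ _
    have h7 := Nat.log_mono_right (b := 2) h6
    rw [Nat.log_pow (by norm_num)] at h7
    omega
  have h6 := MS_lower (S := fun n => Nat.log 2 n + 1) (K := fun _ i => 8 ^ i)
    (G := fun _ i => GA i) h5 (posA_inj (2 ^ i)) (posA_lt' i) (genF_zero _)
    (fun i' _ => Nat.pow_pos (by norm_num)) (fun i' _ y hy => by
      unfold GA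
      have e : (fun p => y (posA (2 ^ i') p)) = fun _ => false := by
        funext p
        exact hy _ (posA_lt' i' p)
      rw [e]
      exact genF_zero _) (fun y => rfl) h4 h
  exact gen_depth lam (d + t) (2 ^ i) h1 le_rfl h6.md

end Pool.Agent.FewNeg
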