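import Mathlib
import Pool.Agent.FewNeg.AndrNum
import Pool.Agent.FewNeg.TBDefs

/-!
# Monotone languages in POLYLOGSPACE: the trade-off between the size and the number of NOT gates
-/

set_option autoImplicit false

namespace Pool.Agent.FewNeg

theorem LTB_lower (c : ℕ) : ∃ C : ℕ, ∀ n s d t : ℕ, Computes s d t (slice (LTB c) n) →
    s ≤ 2 ^ Nat.log 2 n ^ c →
      n ≤ C * (Nat.log 2 (Nat.log 2 n) + 1) * 2 ^ t * (Nat.log 2 (s + t) + 1) ^ 8 := by
  refine ⟨(2 * (c + 1) + 1) * (4 * 7 ^ 8), fun n s d t h hs => ?_⟩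
  by_contra hcon
  push Not at hcon
  set A := Nat.log 2 (s + t) + 1 with hA
  set L := Nat.log 2 n with hL
  set l := Nat.log 2 L with hl
  have hA1 : 1 ≤ A := by omega
  have h1 : s + t < 2 ^ A := Nat.lt_pow_succ_log_self (by norm_num) _
  set i := Nat.clog 2 A with hi
  have h2 : A ≤ 2 ^ i := Nat.le_pow_clog (by norm_num) A
  have h3 : 2 ^ i ≤ 2 * A := by
    rcases Nat.lt_or_ge 1 A with h4 | h4
    · have h5 := Nat.pow_pred_clog_lt_self (b := 2) (by norm_num) h4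
      have h6 : 0 < Nat.clog 2 A := Nat.clog_pos (by norm_num) h4
      have h7 : 2 ^ Nat.clog 2 A = 2 * 2 ^ (Nat.clog 2 A).pred := by
        rw [← pow_succ']
        congr 1
        exact (Nat.succ_pred_eq_of_pos h6).symm
      rw [hi, h7]
      omega
    · have h5 : A = 1 := by omega
      rw [hi, h5]
      simp
  have h4 : aT i ≤ 7 * A := by unfold aT; omega
  have h5 : qT i ^ 2 ≤ 4 * 7 ^ 8 * A ^ 8 := by
    calc qT i ^ 2 ≤ (2 * aT i ^ 4) ^ 2 := Nat.pow_le_pow_left (qT_le i) 2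
      _ ≤ (2 * (7 * A) ^ 4) ^ 2 :=
        Nat.pow_le_pow_left (Nat.mul_le_mul_left _ (Nat.pow_le_pow_left h4 4)) 2
      _ = _ := by ring
  have hS : sT c n ≤ (2 * (c + 1) + 1) * (l + 1) := by
    unfold sT
    rw [← hL, ← hl]
    nlinarith
  have h6 : sT c n * (2 ^ t * (4 * 7 ^ 8 * A ^ 8)) ≤ n := by
    calc sT c n * (2 ^ t * (4 * 7 ^ 8 * A ^ 8)) ≤
        (2 * (c + 1) + 1) * (l + 1) * (2 ^ t * (4 * 7 ^ 8 * A ^ 8)) := Nat.mul_le_mul_right _ hS
      _ = (2 * (c + 1) + 1) * (4 * 7 ^ 8) * (l + 1) * 2 ^ t * A ^ 8 := by ring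
      _ ≤ n := hcon.le
  have hSpos : 0 < sT c n := Nat.succ_pos _
  have h7 : 2 ^ t * (4 * 7 ^ 8 * A ^ 8) ≤ n / sT c n :=
    (Nat.le_div_iff_mul_le hSpos).2 (by rw [mul_comm]; exact h6)
  have h8 : 2 ^ t * qT i ^ 2 ≤ n / sT c n := (Nat.mul_le_mul_left _ h5).trans h7
  have hn : 2 ^ t ≤ n := by
    have h9 : 1 ≤ 4 * 7 ^ 8 * A ^ 8 := Nat.one_le_iff_ne_zero.2 (by positivity)
    calc 2 ^ t ≤ 2 ^ t * (4 * 7 ^ 8 * A ^ 8) := Nat.le_mul_of_pos_right _ h9
      _ ≤ n / sT c n := h7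
      _ ≤ n := Nat.div_le_self _ _
  have htL : t ≤ L := by
    have h9 := Nat.log_mono_right (b := 2) hn
    rwa [Nat.log_pow (by norm_num)] at h9
  have hiS : i < sT c n := by
    have h9 : A ≤ (L + 2) ^ (c + 1) := by
      have h10 : s + t < 2 ^ (L ^ c + L + 1) := by
        have e1 : 2 ^ (L ^ c + L + 1) = 2 ^ L ^ c * 2 ^ (L + 1) := by
          rw [← pow_add]; congr 1
        have e2 : L + 1 < 2 ^ (L + 1) := Nat.lt_two_pow_self
        have e3 : 1 ≤ 2 ^ L ^ c := Nat.one_le_two_pow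
        have e4 : 2 ^ L ^ c * (L + 2) ≤ 2 ^ L ^ c * 2 ^ (L + 1) := Nat.mul_le_mul_left _ e2
        rw [e1]
        nlinarith
      have h11 : Nat.log 2 (s + t) < L ^ c + L + 1 := by
        by_contra hc
        push Not at hc
        rcases Nat.eq_zero_or_pos (s + t) with h0 | h0
        · rw [h0] at hc
          simp at hc
        · have h12 := Nat.pow_log_le_self 2 h0.ne'
          have h13 := Nat.pow_le_pow_right (n := 2) (by norm_num) hc
          omega
      have h12 : L ^ c ≤ (L + 2) ^ c := Nat.pow_le_pow_left (by omega) c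
      have h13 : 1 ≤ (L + 2) ^ c := Nat.one_le_pow _ _ (by omega)
      have h14 : (L + 2) ^ (c + 1) = (L + 2) ^ c * (L + 1) + (L + 2) ^ c := by ring
      have h15 : L + 1 ≤ (L + 2) ^ c * (L + 1) := Nat.le_mul_of_pos_left _ h13
      omega
    have h10 : L + 2 ≤ 2 ^ (l + 2) := by
      have e1 : L < 2 ^ (l + 1) := Nat.lt_pow_succ_log_self (by norm_num) _
      have e2 : 2 ^ (l + 2) = 2 * 2 ^ (l + 1) := by rw [pow_succ 2 (l + 1)]; ring
      have e3 : 2 ≤ 2 ^ (l + 1) := by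
        calc 2 = 2 ^ 1 := by norm_num
          _ ≤ _ := Nat.pow_le_pow_right (by norm_num) (by omega)
      omega
    have h11 : A ≤ 2 ^ ((c + 1) * (l + 2)) := by
      calc A ≤ (L + 2) ^ (c + 1) := h9
        _ ≤ (2 ^ (l + 2)) ^ (c + 1) := Nat.pow_le_pow_left h10 _
        _ = _ := by rw [← pow_mul, mul_comm]
    have h12 : i ≤ (c + 1) * (l + 2) := (Nat.clog_le_iff_le_pow (by norm_num)).2 h11
    unfold sT
    rw [← hL, ← hl]
    omega
  have hq : (qT i).Prime := qT_prime i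
  have hF := MS_lower (S := sT c) (K := fun _ i => qT i ^ 2)
    (G := fun _ i => GB i) hiS (posB_inj (qT i)) (posB_lt (qT i)) (andrF_zero hq.pos)
    (fun i' _ => Nat.pow_pos (qT_prime i').pos) (fun i' _ y hy => by
      unfold GB
      have e : (fun p => y (posB (qT i') p)) = fun _ => false := by
        funext p
        exact hy _ (posB_lt (qT i') p)
      rw [e]
      exact andrF_zero (qT_prime i').pos) (fun y => rfl) h8 h
  have h9 := andr_size (aT i) (qT i) (s + t) (d + t) (by unfold aT; omega) hq (lt_qT i) (qT_le i) hF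
  have h10 : 2 ^ A ≤ 2 ^ aT i := Nat.pow_le_pow_right (by norm_num) (by unfold aT; omega)
  omega

end Pool.Agent.FewNeg
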